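import Pool.Agent.JLQ.Defs

set_option autoImplicit false

namespace JLQ

open Finset AddMonoidAlgebra H83JL

variable {K : Type*} [Field K] {N : ℕ}

private theorem A06_mul (σ τ : Equiv.Perm (Fin N)) : SE K (σ * τ) = SE K σ * SE K τ := by
  apply LinearMap.ext; intro f
  simp only [SE_apply, Module.End.mul_apply]
  first
    | exact perm_mul σ τ f
    | exact (perm_mul σ τ f).symm
    | simp [perm_mul]

private theorem A06_one : SE K (1 : Equiv.Perm (Fin N)) = 1 := by
  apply LinearMap.ext; intro f
  simp only [SE_apply, Module.End.one_apply]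
  first
    | exact perm_one f
    | simp

theorem comm_all (A : Module.End K (Lau K N))
    (hA : ∀ (a : ℕ) (h : a + 1 < N), SE K (adj N a h) * A = A * SE K (adj N a h))
    (σ : Equiv.Perm (Fin N)) : SE K σ * A = A * SE K σ := by
  rcases N with _ | n
  · have : σ = 1 := Subsingleton.elim _ _
    rw [this, A06_one, one_mul, mul_one]
  · have hσ : σ ∈ Submonoid.closure
        (Set.range fun i : Fin n => Equiv.swap i.castSucc i.succ) := by
      rw [Equiv.Perm.mclosure_swap_castSucc_succ]
      trivial
    induction hσ using Submonoid.closure_induction with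
    | mem x hx =>
      obtain ⟨i, rfl⟩ := hx
      exact hA i.val (by omega)
    | one => rw [A06_one, one_mul, mul_one]
    | mul x y _ _ hx hy => rw [A06_mul, mul_assoc, hy, ← mul_assoc, hx, mul_assoc]

end JLQ
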