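import Pool.Agent.JLQ.Defs

/-! Row A20: the operators preserve integrality of the coefficients. -/

namespace JLQ

open Finset AddMonoidAlgebra H83JL

variable {K : Type*} [Field K] {N : ℕ}

private theorem A20_zero (R : Subring K) : InR R (0 : Lau K N) := fun _ => R.zero_mem

private theorem A20_add (R : Subring K) {f g : Lau K N} (hf : InR R f) (hg : InR R g) :
    InR R (f + g) := by
  intro η
  rw [coeff_add]
  exact R.add_mem (hf η) (hg η)

private theorem A20_neg (R : Subring K) {f : Lau K N} (hf : InR R f) : InR R (-f) := by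
  intro η
  rw [coeff_neg]
  exact R.neg_mem (hf η)

private theorem A20_sub (R : Subring K) {f g : Lau K N} (hf : InR R f) (hg : InR R g) :
    InR R (f - g) := by
  rw [sub_eq_add_neg]
  exact A20_add R hf (A20_neg R hg)

private theorem A20_smul (R : Subring K) {c : K} (hc : c ∈ R) {f : Lau K N} (hf : InR R f) :
    InR R (c • f) := by
  intro η
  rw [coeff_smul_apply]
  exact R.mul_mem hc (hf η)

private theorem A20_sum (R : Subring K) {ι : Type*} (s : Finset ι) (f : ι → Lau K N)
    (h : ∀ i ∈ s, InR R (f i)) : InR R (∑ i ∈ s, f i) := by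
  classical
  induction s using Finset.induction_on with
  | empty =>
    rw [sum_empty]
    exact A20_zero R
  | insert a s ha ih =>
    rw [sum_insert ha]
    exact A20_add R (h a (mem_insert_self a s)) (ih fun i hi => h i (mem_insert_of_mem hi))

private theorem A20_single (R : Subring K) (η : Fin N → ℤ) {c : K} (hc : c ∈ R) :
    InR R (single η c : Lau K N) := by
  classical
  intro ζ
  rw [coeff_single, Finsupp.single_apply]
  split_ifs
  · exact hc
  · exact R.zero_mem

private theorem A20_onMon (R : Subring K) (F : (Fin N → ℤ) → Lau K N) (hF : ∀ η, InR R (F η))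
    {f : Lau K N} (hf : InR R f) : InR R (onMon F f) := by
  have h1 : onMon F f = ∑ η ∈ f.coeff.support, f.coeff η • F η := by
    rw [onMon, LinearMap.comp_apply, Finsupp.linearCombination_apply, Finsupp.sum]
    rfl
  rw [h1]
  exact A20_sum R _ _ fun η _ => A20_smul R (hf η) (hF η)

private theorem A20_DD (R : Subring K) (i j : Fin N) {f : Lau K N} (hf : InR R f) :
    InR R (DD i j f) := by
  refine A20_onMon R _ (fun η => ?_) hf
  unfold DDmon
  split_ifs
  · exact A20_sum R _ _ fun s _ => A20_single R _ R.one_mem
  · exact A20_neg R (A20_sum R _ _ fun s _ => A20_single R _ R.one_mem)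

private theorem A20_perm (R : Subring K) (σ : Equiv.Perm (Fin N)) {f : Lau K N}
    (hf : InR R f) : InR R (perm σ f) := by
  intro η
  rw [perm_coeff]
  exact hf _

private theorem A20_euler (R : Subring K) (i : Fin N) {f : Lau K N} (hf : InR R f) :
    InR R (euler i f) := by
  intro η
  rw [euler_coeff]
  exact R.mul_mem (intCast_mem R _) (hf η)

private theorem A20_dun (R : Subring K) {k : K} (hk : k ∈ R) (i : Fin N) {f : Lau K N}
    (hf : InR R f) : InR R (dun k i f) := by
  rw [dun_apply]
  exact A20_sub R (A20_euler R i hf) (A20_smul R hk (A20_sum R _ _ fun j _ => A20_DD R i j hf))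

theorem InR_YE (R : Subring K) {k : K} (hk : k ∈ R) (i : Fin N) {f : Lau K N} (hf : InR R f) :
    InR R (YE k i f) := by
  have h1 : YE k i f = dun k i f - k • ∑ j ∈ Ioi i, perm (Equiv.swap i j) f +
      (k * (N : K)) • f := by
    simp [YE]
  rw [h1]
  exact A20_add R (A20_sub R (A20_dun R hk i hf)
    (A20_smul R hk (A20_sum R _ _ fun j _ => A20_perm R _ hf)))
    (A20_smul R (R.mul_mem hk (natCast_mem R N)) hf)

theorem InR_PP (R : Subring K) {k c : K} (hk : k ∈ R) (hc : c ∈ R) (m : ℕ) {f : Lau K N}
    (hf : InR R f) : InR R (PP k c N m f) := by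
  induction m with
  | zero => exact hf
  | succ m ih =>
    rw [PP, Module.End.mul_apply]
    split_ifs with h
    · rw [LinearMap.sub_apply, LinearMap.smul_apply, Module.End.one_apply]
      exact A20_sub R (A20_smul R hc ih) (InR_YE R hk _ ih)
    · exact ih

theorem InR_II (R : Subring K) {k : K} (hk : k ∈ R) (n : ℕ) {f : Lau K N} (hf : InR R f) :
    InR R (II k N n f) := by
  rw [II, LinearMap.sum_apply]
  refine A20_sum R _ _ fun i _ => ?_
  induction n with
  | zero => exact hf
  | succ n ih =>
    rw [pow_succ', Module.End.mul_apply]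
    exact A20_dun R hk i ih

theorem InR_Sy (R : Subring K) {f : Lau K N} (l : ℕ) (hf : InR R f) :
    InR R (Sy (xJ K N l * f)) := by
  unfold Sy
  refine A20_sum R _ _ fun σ _ => A20_perm R σ ?_
  intro η
  rw [xJ, AddMonoidAlgebra.coeff_single_mul_apply, one_mul]
  exact hf _

end JLQ
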