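import Pool.Agent.JLQ.Defs

namespace JLQ

open Finset AddMonoidAlgebra H83JL

variable {K : Type*} [Field K] {N : ℕ}

private lemma A23_eJ (l : ℕ) : Antitone (eJ N l) := by
  intro i j hij
  have h : i.val ≤ j.val := hij
  unfold eJ
  split_ifs with h1 h2 h2
  · exact le_rfl
  · omega
  · norm_num
  · exact le_rfl

private lemma A23_perm {χ : Fin N → ℤ} (σ : Equiv.Perm (Fin N)) {f : Lau K N}
    (hf : f ∈ supported K K (W χ)) : perm σ f ∈ supported K K (W χ) := by
  rw [mem_supported'] at hf ⊢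
  intro η hη
  rw [perm_coeff]
  apply hf
  intro h
  apply hη
  have h1 := (clo_W χ).perm σ⁻¹ _ h
  have e : (fun i => (fun i => η (σ i)) (σ⁻¹ i)) = η := by
    ext i; simp
  rwa [e] at h1

-- ROW A23
theorem Sy_mem (l : ℕ) {ρ : Fin N → ℤ} (hρ : Antitone ρ) {h : Lau K N}
    (hh : h ∈ supported K K (W ρ)) : Sy (xJ K N l * h) ∈ VV K (ρ + eJ N l) := by
  classical
  have h1 : xJ K N l * h ∈ supported K K (W (ρ + eJ N l)) := by
    refine supp_induction (P := fun g => xJ K N l * g ∈ supported K K (W (ρ + eJ N l)))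
      h hh (by simp) ?_ ?_
    · intro f1 f2 h1 h2; rw [mul_add]; exact add_mem h1 h2
    · intro η hη c
      have e : eJ N l + η = η + eJ N l := add_comm _ _
      rw [xJ, single_mul_single, e]
      exact single_mem (W_add hη (mem_W_self (A23_eJ l))) _
  refine ⟨?_, fun τ => ?_⟩
  · unfold Sy
    exact Submodule.sum_mem _ fun σ _ => A23_perm σ h1
  · unfold Sy
    rw [map_sum]
    have e : ∀ σ : Equiv.Perm (Fin N), perm τ (perm σ (xJ K N l * h)) =
        perm (τ * σ) (xJ K N l * h) := fun σ => (perm_mul τ σ _).symm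
    simp only [e]
    exact Fintype.sum_equiv (Equiv.mulLeft τ) _ _ fun σ => rfl

end JLQ
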