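import Pool.Agent.JLQ.Defs

namespace JLQ

open Finset AddMonoidAlgebra H83JL

variable {K : Type*} [Field K] {N : ℕ}

theorem A30_single (η : Fin N → ℤ) (c : K) : invL (single η c : Lau K N) = single (-η) c := by
  simp [invL]

theorem invL_coeff (f : Lau K N) (η : Fin N → ℤ) : (invL f).coeff η = f.coeff (-η) := by
  induction f using AddMonoidAlgebra.induction_linear with
  | zero => simp
  | add f g hf hg => simp [hf, hg]
  | single ζ c =>
    classical
    rw [A30_single]
    simp only [coeff_single, Finsupp.single_apply]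
    have : (-ζ = η) ↔ (ζ = -η) := neg_eq_iff_eq_neg
    simp only [this]

theorem A30_perm (σ : Equiv.Perm (Fin N)) (f : Lau K N) :
    invL (perm σ f) = perm σ (invL f) := by
  apply AddMonoidAlgebra.ext
  ext η
  rw [invL_coeff, perm_coeff, perm_coeff, invL_coeff]
  rfl

theorem A30_euler (i : Fin N) (f : Lau K N) :
    invL (euler i f) = - euler i (invL f) := by
  apply AddMonoidAlgebra.ext
  ext η
  rw [invL_coeff, euler_coeff, coeff_neg, Finsupp.neg_apply, euler_coeff, invL_coeff]
  simp only [Pi.neg_apply, Int.cast_neg]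
  ring

theorem A30_xp (i : Fin N) : invL (xp K i 1) = xp K i (-1) := by
  rw [xp, A30_single, xp]
  congr 1
  ext j
  simp only [Pi.neg_apply, Pi.single_apply]
  split_ifs <;> simp

theorem A30_xx (i : Fin N) : xp K i 1 * xp K i (-1) = 1 := by
  rw [xp, xp, single_mul_single, one_def, mul_one]
  congr 1
  ext j
  simp only [Pi.add_apply, Pi.single_apply, Pi.zero_apply]
  split_ifs <;> simp

theorem A30_rel (k E : K) {P : Lau K N} (h : CMSrel k E P) : CMSrel k E (invL P) := by
  obtain ⟨h, h1, h2⟩ := h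
  refine ⟨fun i j => invL (h i j), ?_, ?_⟩
  · intro i j
    have h3 := congrArg (fun f => xp K i 1 * xp K j 1 * invL f) (h1 i j)
    simp only [map_mul, map_sub, map_add, A30_xp, A30_euler] at h3
    have hi := A30_xx (K := K) i
    have hj := A30_xx (K := K) j
    show (xp K i 1 - xp K j 1) * invL (h i j) =
      (xp K i 1 + xp K j 1) * (euler i (invL P) - euler j (invL P))
    have e1 : xp K i 1 * xp K j 1 * ((xp K i (-1) - xp K j (-1)) * invL (h i j)) =
        ((xp K i 1 * xp K i (-1)) * xp K j 1 - (xp K j 1 * xp K j (-1)) * xp K i 1) *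
          invL (h i j) := by ring
    have e2 : xp K i 1 * xp K j 1 * ((xp K i (-1) + xp K j (-1)) *
        (-euler i (invL P) - -euler j (invL P))) =
        ((xp K i 1 * xp K i (-1)) * xp K j 1 + (xp K j 1 * xp K j (-1)) * xp K i 1) *
          (-euler i (invL P) - -euler j (invL P)) := by ring
    rw [e1, e2, hi, hj, one_mul, one_mul] at h3
    linear_combination -h3
  · have h3 := congrArg (fun f => invL f) h2
    simp only [map_sub, map_sum, map_smul, A30_euler, map_neg, neg_neg] at h3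
    exact h3

theorem A30_csum (χ : Fin N → ℤ) (m : ℕ) (hm : m ≤ N) :
    csum (fun i => - χ (Fin.rev i)) m = csum χ (N - m) - ∑ i, χ i := by
  unfold csum
  rw [Finset.sum_filter, Finset.sum_filter,
    ← Equiv.sum_comp Fin.revPerm (fun i : Fin N => if i.val < m then - χ (Fin.rev i) else 0),
    ← Finset.sum_sub_distrib]
  refine Finset.sum_congr rfl fun j _ => ?_
  have hj := j.isLt
  simp only [Fin.revPerm_apply, Fin.rev_rev, Fin.val_rev]
  by_cases h : N - (j.val + 1) < m
  · rw [if_pos h, if_neg (by omega)]; ring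
  · rw [if_neg h, if_pos (by omega)]; ring

theorem A30_W {χ : Fin N → ℤ} {η : Fin N → ℤ} (h : -η ∈ W χ) :
    η ∈ W (fun i => - χ (Fin.rev i)) := by
  obtain ⟨h1, h2⟩ := h
  have hs : ∑ i, η i = - ∑ i, χ i := by
    rw [← h1]; simp
  have hr : ∑ i : Fin N, - χ (Fin.rev i) = - ∑ i, χ i := by
    rw [Finset.sum_neg_distrib]
    congr 1
    exact Equiv.sum_comp Fin.revPerm χ
  refine ⟨by rw [hs, hr], fun S => ?_⟩
  have hc : S.card ≤ N := by simpa using S.card_le_univ
  rw [A30_csum χ S.card hc]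
  have h3 := h2 Sᶜ
  rw [Finset.card_compl, Fintype.card_fin] at h3
  have h4 := Finset.sum_add_sum_compl S η
  simp only [Pi.neg_apply, Finset.sum_neg_distrib] at h3
  linarith

theorem A30_ev_two (k : K) (χ : Fin N → ℤ) : ev k χ 2 = ∑ b, (χ b : K) ^ 2 -
    k * ∑ b, ∑ c, if χ c < χ b then ((χ b : K) - χ c) else 0 := by
  have h1 : ∀ b, psi k χ 1 b = (χ b : K) := by
    intro b
    simp [psi]
  have h2 : ∀ b, psi k χ 2 b = (χ b : K) ^ 2 -
      k * ∑ c, if χ c < χ b then ((χ b : K) - χ c) else 0 := by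
    intro b
    rw [← Finset.sum_filter]
    show (χ b : K) * psi k χ 1 b -
      k * ∑ c ∈ univ.filter (fun c => χ c < χ b), (psi k χ 1 b - psi k χ 1 c) = _
    simp only [h1]
    ring
  rw [ev]
  simp only [h2]
  rw [Finset.sum_sub_distrib, Finset.mul_sum]

theorem A30_ev (k : K) (χ : Fin N → ℤ) : ev k (fun i => - χ (Fin.rev i)) 2 = ev k χ 2 := by
  rw [A30_ev_two, A30_ev_two]
  congr 1
  · rw [← Equiv.sum_comp Fin.revPerm (fun b : Fin N => (χ b : K) ^ 2)]
    refine Finset.sum_congr rfl fun b _ => ?_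
    simp
  · congr 1
    rw [Finset.sum_comm,
      ← Equiv.sum_comp Fin.revPerm (fun b : Fin N => ∑ c, if χ c < χ b then ((χ b : K) - χ c) else 0)]
    refine Finset.sum_congr rfl fun b _ => ?_
    rw [← Equiv.sum_comp Fin.revPerm (fun c : Fin N =>
      if χ c < χ (Fin.revPerm b) then ((χ (Fin.revPerm b) : K) - χ c) else 0)]
    refine Finset.sum_congr rfl fun c _ => ?_
    simp only [Fin.revPerm_apply, neg_lt_neg_iff, Int.cast_neg]
    by_cases h : χ (Fin.rev c) < χ (Fin.rev b)
    · rw [if_pos h, if_pos h]; ring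
    · rw [if_neg h, if_neg h]

theorem invL_eig {k : K} {χ : Fin N → ℤ} {f : Lau K N} (hχ : Antitone χ) (hf : f ∈ Eig k χ) :
    invL f ∈ Eig k (fun i => - χ (Fin.rev i)) := by
  obtain ⟨⟨h1, h2⟩, h3⟩ := hf
  have hs : Sym (invL f) := fun σ => by rw [← A30_perm, h2 σ]
  refine ⟨⟨?_, hs⟩, ?_⟩
  · rw [mem_supported'] at h1 ⊢
    intro η hη
    rw [invL_coeff]
    apply h1
    intro h4
    exact hη (A30_W h4)
  · rw [A30_ev]
    exact (CMSrel_iff k _ hs).1 (A30_rel k _ ((CMSrel_iff k _ h2).2 h3))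

end JLQ
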