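import Pool.Agent.JLQ.Defs

/-!
Row B04 of the board JLQ (MP_9e047e_al): specialisation through `K[p_0][p_a : a ≠ 0]`.
-/

namespace JLQ

open Finset AddMonoidAlgebra H83JL

variable {K : Type*} [Field K] {N : ℕ}

private theorem B04_C (N : ℕ) (x : K) :
    phi' K N (MvPolynomial.map (Polynomial.evalRingHom (N : K)) (conv K (MvPolynomial.C x))) =
      phi K N (MvPolynomial.C x) := by
  have h1 : conv K (MvPolynomial.C x) = MvPolynomial.C (Polynomial.C x) := by
    have h := (conv K).commutes x
    exact h
  have h2 : phi K N (MvPolynomial.C x) = algebraMap K (Lau K N) x := (phi K N).commutes x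
  have h3 : phi' K N (MvPolynomial.C x) = algebraMap K (Lau K N) x := (phi' K N).commutes x
  rw [h1, h2, MvPolynomial.map_C, Polynomial.coe_evalRingHom, Polynomial.eval_C, h3]

private theorem B04_X (N : ℕ) (a : ℤ) :
    phi' K N (MvPolynomial.map (Polynomial.evalRingHom (N : K)) (conv K (MvPolynomial.X a))) =
      phi K N (MvPolynomial.X a) := by
  rw [phi_X]
  unfold conv
  rw [MvPolynomial.aeval_X]
  by_cases h : a = 0
  · subst h
    rw [dif_pos rfl, MvPolynomial.map_C, Polynomial.coe_evalRingHom, Polynomial.eval_X,
      psum_zero]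
    have h3 : phi' K N (MvPolynomial.C (N : K)) = algebraMap K (Lau K N) (N : K) :=
      (phi' K N).commutes _
    rw [h3, map_natCast]
  · rw [dif_neg h, MvPolynomial.map_X]
    unfold phi'
    rw [MvPolynomial.aeval_X]

-- ROW B04
theorem phi'_conv (N : ℕ) (J : MvPolynomial ℤ K) :
    phi' K N (MvPolynomial.map (Polynomial.evalRingHom (N : K)) (conv K J)) = phi K N J := by
  induction J using MvPolynomial.induction_on with
  | C x => exact B04_C N x
  | add p q hp hq => rw [map_add, map_add, map_add, hp, hq, map_add]
  | mul_X p a hp => rw [map_mul, map_mul, map_mul, hp, B04_X, map_mul]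

end JLQ
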