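import Pool.Agent.JLQ.Defs

namespace JLQ

open Finset AddMonoidAlgebra H83JL

variable {K : Type*} [Field K] {N : ℕ}

theorem C01_hh {f g : Lau K N} (hf : Sym f) (hg : Sym g) (hfg : Sym (f * g)) {i j : Fin N}
    (hij : i ≠ j) : hh (f * g) i j = hh f i j * g + f * hh g i j := by
  apply cancel hij
  have h1 := hh_spec hij hf
  have h2 := hh_spec hij hg
  have h3 := hh_spec hij hfg
  rw [euler_mul, euler_mul] at h3
  linear_combination h3 - g * h1 - f * h2

-- ROW C01
theorem II_mul (k : K) {f g : Lau K N} (hf : Sym f) (hg : Sym g) :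
    II k N 2 (f * g) = II k N 2 f * g + f * II k N 2 g + 2 * ∑ i, euler i f * euler i g := by
  have hfg : Sym (f * g) := by
    intro σ
    rw [map_mul, hf, hg]
  rw [II_two k hfg, II_two k hf, II_two k hg]
  have h1 : ∑ i, euler i (euler i (f * g)) = (∑ i, euler i (euler i f)) * g +
      2 * ∑ i, euler i f * euler i g + f * ∑ i, euler i (euler i g) := by
    rw [Finset.sum_mul, Finset.mul_sum, Finset.mul_sum, ← Finset.sum_add_distrib,
      ← Finset.sum_add_distrib]
    refine Finset.sum_congr rfl fun i _ => ?_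
    rw [euler_mul, map_add, euler_mul, euler_mul]
    ring
  have h2 : ∑ i, ∑ j ∈ Ioi i, hh (f * g) i j = (∑ i, ∑ j ∈ Ioi i, hh f i j) * g +
      f * ∑ i, ∑ j ∈ Ioi i, hh g i j := by
    rw [Finset.sum_mul, Finset.mul_sum, ← Finset.sum_add_distrib]
    refine Finset.sum_congr rfl fun i _ => ?_
    rw [Finset.sum_mul, Finset.mul_sum, ← Finset.sum_add_distrib]
    refine Finset.sum_congr rfl fun j hj => ?_
    rw [mem_Ioi] at hj
    exact C01_hh hf hg hfg hj.ne
  rw [h1, h2, smul_add, sub_mul, mul_sub, smul_mul_assoc, mul_smul_comm]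
  ring

end JLQ
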