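import Pool.Agent.JLQ.C01

namespace JLQ

open Finset AddMonoidAlgebra H83JL

variable {K : Type*} [Field K] {N : ℕ}

theorem C06_phi_C (N : ℕ) (c : K) : phi K N (MvPolynomial.C c) = c • (1 : Lau K N) := by
  rw [phi, MvPolynomial.aeval_C, Algebra.algebraMap_eq_smul_one]

theorem C06_sum (N : ℕ) (a : ℤ) (e : K) (F : ℕ → ℤ) (G : ℕ → ℤ) (n : ℕ)
    (hFG : ∀ s, F s + G s = a)
    (hD : ∀ i j : Fin N, i ≠ j → DD i j (xp K i a) =
      e • ∑ s ∈ range n, xp K i (F s) * xp K j (G s)) :
    ∑ i : Fin N, ∑ j ∈ univ.erase i, DD i j (xp K i a) =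
      e • ∑ s ∈ range n, (psum K N (F s) * psum K N (G s) - psum K N a) := by
  have h1 : ∀ i : Fin N, ∑ j ∈ univ.erase i, DD i j (xp K i a) =
      e • ∑ s ∈ range n, (xp K i (F s) * psum K N (G s) - xp K i a) := by
    intro i
    have h2 : ∀ j ∈ univ.erase i, DD i j (xp K i a) =
        e • ∑ s ∈ range n, xp K i (F s) * xp K j (G s) := by
      intro j hj
      simp only [mem_erase, mem_univ, and_true] at hj
      exact hD i j (Ne.symm hj)
    rw [Finset.sum_congr rfl h2, ← Finset.smul_sum, Finset.sum_comm]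
    congr 1
    refine Finset.sum_congr rfl fun s _ => ?_
    rw [← Finset.mul_sum, psum, ← Finset.add_sum_erase _ _ (mem_univ i), mul_add, xp_mul, hFG]
    ring
  simp only [h1]
  rw [← Finset.smul_sum, Finset.sum_comm]
  congr 1
  refine Finset.sum_congr rfl fun s _ => ?_
  rw [Finset.sum_sub_distrib, ← Finset.sum_mul]
  rfl

theorem C06_DD (N : ℕ) (a : ℤ) :
    ∑ i : Fin N, ∑ j ∈ univ.erase i, DD i j (xp K i a) =
      (a.sign : K) • ((psum K N 0 - (a.natAbs : Lau K N)) * psum K N a +
        ∑ t ∈ range (a.natAbs - 1), psum K N (a.sign * ((t : ℤ) + 1)) *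
          psum K N (a - a.sign * ((t : ℤ) + 1))) := by
  rcases lt_trichotomy a 0 with ha | ha | ha
  · obtain ⟨m, hm⟩ : ∃ m : ℕ, a = -((m + 1 : ℕ) : ℤ) := ⟨a.natAbs - 1, by omega⟩
    have hs : a.sign = -1 := Int.sign_eq_neg_one_of_neg ha
    have hn : a.natAbs = m + 1 := by omega
    rw [C06_sum N a (-1) (fun s => -(s : ℤ)) (fun s => (s : ℤ) - ((m + 1 : ℕ) : ℤ)) (m + 1)
      (by intro s; rw [hm]; ring)
      (by intro i j hij; rw [hm, DD_xp_neg hij, neg_one_smul])]
    rw [hs, hn, Finset.sum_range_succ', Nat.add_sub_cancel]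
    simp only [Int.cast_neg, Int.cast_one]
    congr 1
    rw [Finset.sum_sub_distrib, Finset.sum_const, card_range, nsmul_eq_mul]
    have e1 : ∀ t : ℕ, (-1 : ℤ) * ((t : ℤ) + 1) = -((t + 1 : ℕ) : ℤ) := by
      intro t; push_cast; ring
    have e2 : ∀ t : ℕ, a - (-((t + 1 : ℕ) : ℤ)) = ((t + 1 : ℕ) : ℤ) - ((m + 1 : ℕ) : ℤ) := by
      intro t; rw [hm]; ring
    simp only [e1, e2]
    have e3 : ((0 : ℕ) : ℤ) - ((m + 1 : ℕ) : ℤ) = a := by rw [hm]; simp
    rw [e3]
    have e4 : (-((0 : ℕ) : ℤ)) = 0 := by simp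
    rw [e4]
    push_cast
    ring
  · subst ha
    simp only [Int.sign_zero, Int.cast_zero, zero_smul]
    refine Finset.sum_eq_zero fun i _ => Finset.sum_eq_zero fun j hj => ?_
    simp only [mem_erase, mem_univ, and_true] at hj
    have := DD_xp_nat (K := K) (Ne.symm hj) 0
    simpa using this
  · obtain ⟨m, hm⟩ : ∃ m : ℕ, a = ((m + 1 : ℕ) : ℤ) := ⟨a.natAbs - 1, by omega⟩
    have hs : a.sign = 1 := Int.sign_eq_one_of_pos ha
    have hn : a.natAbs = m + 1 := by omega
    rw [C06_sum N a 1 (fun s => ((m + 1 : ℕ) : ℤ) - s) (fun s => (s : ℤ)) (m + 1)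
      (by intro s; rw [hm]; ring)
      (by intro i j hij; rw [hm, DD_xp_nat hij, one_smul])]
    rw [hs, hn, Finset.sum_range_succ', Nat.add_sub_cancel]
    simp only [Int.cast_one]
    congr 1
    rw [Finset.sum_sub_distrib, Finset.sum_const, card_range, nsmul_eq_mul]
    have e1 : ∀ t : ℕ, (1 : ℤ) * ((t : ℤ) + 1) = ((t + 1 : ℕ) : ℤ) := by
      intro t; push_cast; ring
    have e2 : ∀ t : ℕ, a - ((t + 1 : ℕ) : ℤ) = ((m + 1 : ℕ) : ℤ) - ((t + 1 : ℕ) : ℤ) := by
      intro t; rw [hm]
    simp only [e1, e2]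
    have e3 : ((m + 1 : ℕ) : ℤ) - ((0 : ℕ) : ℤ) = a := by rw [hm]; simp
    rw [e3]
    have e4 : ((0 : ℕ) : ℤ) = 0 := by simp
    rw [e4]
    have e5 : ∑ t ∈ range m, psum K N ((t + 1 : ℕ) : ℤ) *
        psum K N (((m + 1 : ℕ) : ℤ) - ((t + 1 : ℕ) : ℤ)) =
        ∑ t ∈ range m, psum K N (((m + 1 : ℕ) : ℤ) - ((t + 1 : ℕ) : ℤ)) *
          psum K N ((t + 1 : ℕ) : ℤ) :=
      Finset.sum_congr rfl fun t _ => mul_comm _ _
    rw [e5]
    push_cast
    ring

theorem C06_II_psum (k : K) (N : ℕ) (a : ℤ) :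
    II k N 2 (psum K N a) = phi K N (qq k a) := by
  have hs : Sym (psum K N a) := fun σ => perm_psum σ a
  have h1 : II k N 2 (psum K N a) = ((a : K) ^ 2) • psum K N a -
      (k * (a : K)) • ∑ i : Fin N, ∑ j ∈ univ.erase i, DD i j (xp K i a) := by
    rw [II, LinearMap.sum_apply]
    have h2 : ∀ i : Fin N, (dun k i ^ 2) (psum K N a) = ((a : K) ^ 2) • xp K i a -
        (k * (a : K)) • ∑ j ∈ univ.erase i, DD i j (xp K i a) := by
      intro i
      rw [pow_two, Module.End.mul_apply, dun_sym k i hs, euler_psum, map_smul, dun_apply,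
        euler_xp, if_pos rfl, smul_sub, smul_smul, smul_smul]
      congr 2
      · ring
      · ring
    simp only [h2]
    rw [Finset.sum_sub_distrib, ← Finset.smul_sum, ← Finset.smul_sum]
    rfl
  rw [h1, C06_DD, smul_smul]
  have h3 : k * (a : K) * (a.sign : K) = k * ((|a| : ℤ) : K) := by
    rw [mul_assoc, ← Int.cast_mul, mul_comm a a.sign, Int.sign_mul_self_eq_abs]
  rw [h3]
  have h4 : (a.natAbs : Lau K N) = phi K N (MvPolynomial.C ((|a| : ℤ) : K)) := by
    rw [C06_phi_C, Int.abs_eq_natAbs, Int.cast_natCast, ← Algebra.algebraMap_eq_smul_one,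
      map_natCast]
  have h5 : ∀ (c : K) (g : MvPolynomial ℤ K), phi K N (MvPolynomial.C c * g) =
      c • phi K N g := by
    intro c g
    rw [← MvPolynomial.smul_eq_C_mul, map_smul]
  rw [h4, qq, map_sub, h5, h5, map_add, map_mul (phi K N) (MvPolynomial.X 0 - _), map_sub,
    phi_X, phi_X, map_sum]
  simp only [map_mul (phi K N), phi_X]

theorem C06_pd (a b : ℤ) (f : MvPolynomial ℤ K) :
    MvPolynomial.pderiv a (f * MvPolynomial.X b) =
      MvPolynomial.pderiv a f * MvPolynomial.X b + (if a = b then f else 0) := by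
  classical
  rw [Derivation.leibniz, MvPolynomial.pderiv_X, Pi.single_apply]
  simp only [smul_eq_mul]
  by_cases h : a = b
  · subst h; simp; ring
  · rw [if_neg h, if_neg (fun h' => h h'.symm)]; ring

theorem C06_LL (k : K) (S : Finset ℤ) (b : ℤ) (hb : b ∈ S) (f : MvPolynomial ℤ K) :
    LL k S (f * MvPolynomial.X b) = LL k S f * MvPolynomial.X b + qq k b * f +
      2 * ∑ a ∈ S, MvPolynomial.C ((a * b : ℤ) : K) * MvPolynomial.X (a + b) *
        MvPolynomial.pderiv a f := by
  classical
  unfold LL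
  have h1 : ∑ a ∈ S, qq k a * MvPolynomial.pderiv a (f * MvPolynomial.X b) =
      (∑ a ∈ S, qq k a * MvPolynomial.pderiv a f) * MvPolynomial.X b + qq k b * f := by
    simp only [C06_pd, mul_add, mul_ite, mul_zero]
    rw [Finset.sum_add_distrib, Finset.sum_ite_eq', if_pos hb, Finset.sum_mul]
    congr 1
    exact Finset.sum_congr rfl fun a _ => by ring
  have h2 : ∀ a c : ℤ, MvPolynomial.pderiv a (MvPolynomial.pderiv c (f * MvPolynomial.X b)) =
      MvPolynomial.pderiv a (MvPolynomial.pderiv c f) * MvPolynomial.X b +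
      (if a = b then MvPolynomial.pderiv c f else 0) +
      (if c = b then MvPolynomial.pderiv a f else 0) := by
    intro a c
    rw [C06_pd, map_add, C06_pd]
    congr 1
    split_ifs <;> simp
  have h3 : ∑ a ∈ S, ∑ c ∈ S, MvPolynomial.C ((a * c : ℤ) : K) * MvPolynomial.X (a + c) *
      MvPolynomial.pderiv a (MvPolynomial.pderiv c (f * MvPolynomial.X b)) =
      (∑ a ∈ S, ∑ c ∈ S, MvPolynomial.C ((a * c : ℤ) : K) * MvPolynomial.X (a + c) *
        MvPolynomial.pderiv a (MvPolynomial.pderiv c f)) * MvPolynomial.X b +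
      2 * ∑ a ∈ S, MvPolynomial.C ((a * b : ℤ) : K) * MvPolynomial.X (a + b) *
        MvPolynomial.pderiv a f := by
    simp only [h2, mul_add, mul_ite, mul_zero]
    simp only [Finset.sum_add_distrib]
    have h4 : ∑ a ∈ S, ∑ c ∈ S, (if a = b then MvPolynomial.C ((a * c : ℤ) : K) *
        MvPolynomial.X (a + c) * MvPolynomial.pderiv c f else 0) =
        ∑ a ∈ S, MvPolynomial.C ((a * b : ℤ) : K) * MvPolynomial.X (a + b) *
        MvPolynomial.pderiv a f := by
      rw [Finset.sum_comm]
      refine Finset.sum_congr rfl fun c _ => ?_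
      rw [Finset.sum_ite_eq', if_pos hb, mul_comm b c, add_comm b c]
    have h5 : ∑ a ∈ S, ∑ c ∈ S, (if c = b then MvPolynomial.C ((a * c : ℤ) : K) *
        MvPolynomial.X (a + c) * MvPolynomial.pderiv a f else 0) =
        ∑ a ∈ S, MvPolynomial.C ((a * b : ℤ) : K) * MvPolynomial.X (a + b) *
        MvPolynomial.pderiv a f := by
      refine Finset.sum_congr rfl fun a _ => ?_
      rw [Finset.sum_ite_eq', if_pos hb]
    rw [h4, h5, Finset.sum_mul]
    have h6 : ∀ a ∈ S, (∑ c ∈ S, MvPolynomial.C ((a * c : ℤ) : K) * MvPolynomial.X (a + c) *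
        MvPolynomial.pderiv a (MvPolynomial.pderiv c f)) * MvPolynomial.X b =
        ∑ c ∈ S, MvPolynomial.C ((a * c : ℤ) : K) * MvPolynomial.X (a + c) *
        (MvPolynomial.pderiv a (MvPolynomial.pderiv c f) * MvPolynomial.X b) := by
      intro a _
      rw [Finset.sum_mul]
      exact Finset.sum_congr rfl fun c _ => by ring
    rw [Finset.sum_congr rfl h6]
    ring
  rw [h1, h3]
  ring

theorem C06_main (k : K) (N : ℕ) (f : MvPolynomial ℤ K) : ∃ S0 : Finset ℤ, ∀ S, S0 ⊆ S →
    (∀ i : Fin N, euler i (phi K N f) =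
      ∑ a ∈ S, (a : K) • (xp K i a * phi K N (MvPolynomial.pderiv a f))) ∧
    II k N 2 (phi K N f) = phi K N (LL k S f) := by
  classical
  induction f using MvPolynomial.induction_on with
  | C c =>
    refine ⟨∅, fun S _ => ⟨fun i => ?_, ?_⟩⟩
    · have h1 : euler i (1 : Lau K N) = 0 := by
        rw [one_def, euler_single]; simp
      rw [C06_phi_C, map_smul, h1, smul_zero]
      simp
    · have h1 : II k N 2 (1 : Lau K N) = 0 := by
        have hs : Sym (1 : Lau K N) := fun σ => map_one _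
        have h2 := II_mul k hs hs
        have h3 : ∀ i : Fin N, euler i (1 : Lau K N) = 0 := by
          intro i
          rw [one_def, euler_single]; simp
        simp only [h3, mul_one, one_mul, mul_zero, Finset.sum_const_zero, add_zero] at h2
        simpa using h2
      rw [C06_phi_C, map_smul, h1, smul_zero]
      simp [LL]
  | add f g hf hg =>
    obtain ⟨S1, h1⟩ := hf
    obtain ⟨S2, h2⟩ := hg
    refine ⟨S1 ∪ S2, fun S hS => ?_⟩
    obtain ⟨h3, h4⟩ := h1 S (Finset.union_subset_left hS)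
    obtain ⟨h5, h6⟩ := h2 S (Finset.union_subset_right hS)
    refine ⟨fun i => ?_, ?_⟩
    · rw [map_add, map_add, h3, h5, ← Finset.sum_add_distrib]
      refine Finset.sum_congr rfl fun a _ => ?_
      rw [map_add, map_add, mul_add, smul_add]
    · rw [map_add, map_add, h4, h6, ← map_add]
      congr 1
      unfold LL
      simp only [map_add, mul_add, Finset.sum_add_distrib]
      ring
  | mul_X f b hf =>
    obtain ⟨S1, h1⟩ := hf
    refine ⟨insert b S1, fun S hS => ?_⟩
    have hb : b ∈ S := hS (Finset.mem_insert_self _ _)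
    obtain ⟨h3, h4⟩ := h1 S ((Finset.subset_insert _ _).trans hS)
    refine ⟨fun i => ?_, ?_⟩
    · rw [map_mul, euler_mul, h3, phi_X, euler_psum, Finset.sum_mul]
      have h5 : ∀ a ∈ S, (a : K) • (xp K i a * phi K N (MvPolynomial.pderiv a
          (f * MvPolynomial.X b))) = (a : K) • (xp K i a * phi K N (MvPolynomial.pderiv a f)) *
          psum K N b + (if a = b then (a : K) • (xp K i a * phi K N f) else 0) := by
        intro a _
        rw [C06_pd, map_add, map_mul, phi_X, mul_add, smul_add, smul_mul_assoc, mul_assoc]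
        congr 1
        split_ifs
        · rfl
        · simp
      rw [Finset.sum_congr rfl h5, Finset.sum_add_distrib, Finset.sum_ite_eq', if_pos hb,
        mul_smul_comm, mul_comm (phi K N f)]
    · rw [map_mul, II_mul k (phi_sym N f) (phi_sym N _), h4, phi_X, C06_II_psum, C06_LL k S b hb,
        map_add, map_add, map_mul (phi K N) (LL k S f), phi_X, map_mul (phi K N) (qq k b)]
      have h5 : ∑ i : Fin N, euler i (phi K N f) * euler i (psum K N b) =
          phi K N (∑ a ∈ S, MvPolynomial.C ((a * b : ℤ) : K) * MvPolynomial.X (a + b) *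
            MvPolynomial.pderiv a f) := by
        have h6 : ∀ i : Fin N, euler i (phi K N f) * euler i (psum K N b) =
            ∑ a ∈ S, ((a * b : ℤ) : K) • (xp K i (a + b) *
              phi K N (MvPolynomial.pderiv a f)) := by
          intro i
          rw [h3, euler_psum, Finset.sum_mul]
          refine Finset.sum_congr rfl fun a _ => ?_
          rw [smul_mul_smul_comm, ← xp_mul]
          push_cast
          congr 1
          ring
        simp only [h6]
        rw [Finset.sum_comm, map_sum]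
        refine Finset.sum_congr rfl fun a _ => ?_
        rw [← Finset.smul_sum, ← Finset.sum_mul, mul_assoc, ← MvPolynomial.smul_eq_C_mul,
          map_smul, map_mul, phi_X]
        rfl
      rw [h5, map_mul (phi K N) 2, map_ofNat]
      ring

theorem C06_comm (a b : ℤ) (f : MvPolynomial ℤ K) :
    MvPolynomial.pderiv a (MvPolynomial.pderiv b f) =
      MvPolynomial.pderiv b (MvPolynomial.pderiv a f) := by
  classical
  induction f using MvPolynomial.induction_on with
  | C c => simp
  | add f g hf hg => simp only [map_add, hf, hg]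
  | mul_X f c hf =>
    simp only [C06_pd, map_add, hf]
    by_cases h1 : a = c <;> by_cases h2 : b = c <;> simp [h1, h2]

theorem C06_LL_mono (k : K) (S S' : Finset ℤ) (f : MvPolynomial ℤ K) (hf : f.vars ⊆ S)
    (hS : S ⊆ S') : LL k S' f = LL k S f := by
  classical
  have h1 : ∀ a ∉ S, MvPolynomial.pderiv a f = 0 := by
    intro a ha
    exact MvPolynomial.pderiv_eq_zero_of_notMem_vars (fun h => ha (hf h))
  have h2 : ∀ a b, b ∉ S → MvPolynomial.pderiv a (MvPolynomial.pderiv b f) = 0 := by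
    intro a b hb
    rw [h1 b hb, map_zero]
  have h3 : ∀ a b, a ∉ S → MvPolynomial.pderiv a (MvPolynomial.pderiv b f) = 0 := by
    intro a b ha
    rw [C06_comm, h1 a ha, map_zero]
  unfold LL
  congr 1
  · symm
    apply Finset.sum_subset hS
    intro a _ ha
    rw [h1 a ha, mul_zero]
  · have h4 : ∀ a, ∑ b ∈ S', MvPolynomial.C ((a * b : ℤ) : K) * MvPolynomial.X (a + b) *
        MvPolynomial.pderiv a (MvPolynomial.pderiv b f) =
        ∑ b ∈ S, MvPolynomial.C ((a * b : ℤ) : K) * MvPolynomial.X (a + b) *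
        MvPolynomial.pderiv a (MvPolynomial.pderiv b f) := by
      intro a
      symm
      apply Finset.sum_subset hS
      intro b _ hb
      rw [h2 a b hb, mul_zero]
    simp only [h4]
    symm
    apply Finset.sum_subset hS
    intro a _ ha
    refine Finset.sum_eq_zero fun b _ => ?_
    rw [h3 a b ha, mul_zero]

theorem LL_phi (k : K) (S : Finset ℤ) (f : MvPolynomial ℤ K) (hf : f.vars ⊆ S) (N : ℕ) :
    II k N 2 (phi K N f) = phi K N (LL k S f) := by
  classical
  obtain ⟨S0, h⟩ := C06_main k N f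
  rw [(h (S ∪ S0) Finset.subset_union_right).2,
    C06_LL_mono k S (S ∪ S0) f hf Finset.subset_union_left]

end JLQ
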