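import Pool.Agent.JLQ.Defs

namespace JLQ

open Finset AddMonoidAlgebra H83JL

variable {K : Type*} [Field K] {N : ℕ}

theorem C07_cc_sum {N : ℕ} {χ : Fin N → ℤ} (hχ : Antitone χ) :
    cc χ = ∑ i : Fin N, χ i * ((N : ℤ) - 1 - 2 * (i.val : ℤ)) := by
  rw [cc_antitone hχ]
  have h3 : ∑ m ∈ range (N + 1), csum χ m = ∑ i : Fin N, χ i * (N - i.val : ℤ) := by
    unfold csum
    simp only [Finset.sum_filter]
    rw [Finset.sum_comm]
    refine Finset.sum_congr rfl fun i _ => ?_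
    rw [← Finset.sum_filter, Finset.sum_const]
    have : (range (N + 1)).filter (fun m => i.val < m) = Ioc i.val N := by
      ext m; simp only [mem_filter, mem_range, mem_Ioc]; omega
    rw [this, Nat.card_Ioc, nsmul_eq_mul, Nat.cast_sub i.isLt.le]
    ring
  rw [h3, Finset.mul_sum, Finset.mul_sum, ← Finset.sum_sub_distrib]
  refine Finset.sum_congr rfl fun i _ => ?_
  ring

theorem C07_sum_cut {A : Type*} [AddCommMonoid A] (f : ℕ → A) {L N : ℕ} (h : ∀ i, L ≤ i → f i = 0)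
    (hN : L ≤ N) : ∑ i ∈ range N, f i = ∑ i ∈ range L, f i := by
  symm
  refine Finset.sum_subset (Finset.range_subset_range.2 hN) fun i _ hi => h i ?_
  simpa using hi

/-- sum over the weight of a bipartition -/
theorem C07_sum_chi {L L' : ℕ} {nu tau : ℕ → ℕ}
    (hνL : ∀ i, L ≤ i → nu i = 0) (hτL : ∀ j, L' ≤ j → tau j = 0) {N : ℕ} (hN : L + L' ≤ N)
    (w : ℤ → ℕ → ℤ) (hw : ∀ i, w 0 i = 0) :
    ∑ i : Fin N, w (chi N nu tau i) i.val =
      ∑ i ∈ range L, w (nu i) i + ∑ j ∈ range L', w (-(tau j)) (N - 1 - j) := by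
  have e1 : ∀ i : Fin N, w (chi N nu tau i) i.val =
      w (nu i) i.val + w (-(tau (N - 1 - i.val))) i.val := by
    intro i
    unfold chi
    by_cases hi : L ≤ i.val
    · rw [hνL _ hi]
      simp [hw]
    · have : tau (N - 1 - i.val) = 0 := hτL _ (by omega)
      rw [this]
      simp [hw]
  rw [Finset.sum_congr rfl (fun i _ => e1 i), Finset.sum_add_distrib]
  congr 1
  · rw [← Finset.sum_range (fun i => w (nu i) i)]
    exact C07_sum_cut _ (fun i hi => by rw [hνL i hi]; simp [hw]) (by omega)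
  · rw [← Finset.sum_range (fun i => w (-(tau (N - 1 - i))) i), ← Finset.sum_range_reflect]
    rw [← C07_sum_cut (fun j => w (-(tau j)) (N - 1 - j)) (L := L') (N := N)
      (fun i hi => by rw [hτL i hi]; simp [hw]) (by omega)]
    refine Finset.sum_congr rfl fun j hj => ?_
    have hj' := Finset.mem_range.1 hj
    have : N - 1 - (N - 1 - j) = j := by omega
    rw [this]

/-- the eigenvalue of `II k N 2` at the weight of a bipartition, for all `N ≥ L + L'` -/
theorem C07_ev (k : K) {L L' : ℕ} {nu tau : ℕ → ℕ} (hν : Antitone nu) (hτ : Antitone tau)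
    (hνL : ∀ i, L ≤ i → nu i = 0) (hτL : ∀ j, L' ≤ j → tau j = 0) {N : ℕ} (hN : L + L' ≤ N) :
    ev k (chi N nu tau) 2 =
      (((∑ i ∈ range L, nu i ^ 2 + ∑ j ∈ range L', tau j ^ 2 : ℕ) : K) +
        k * ((∑ i ∈ range L, nu i * (2 * i + 1) + ∑ j ∈ range L', tau j * (2 * j + 1) : ℕ) : K)) -
      k * ((∑ i ∈ range L, nu i + ∑ j ∈ range L', tau j : ℕ) : K) * N := by
  have h1 : ∑ b, chi N nu tau b ^ 2 = ∑ i ∈ range L, (nu i : ℤ) ^ 2 +
      ∑ j ∈ range L', (tau j : ℤ) ^ 2 := by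
    have := C07_sum_chi hνL hτL hN (fun a _ => a ^ 2) (by simp)
    simpa using this
  have h2 : cc (chi N nu tau) = (∑ i ∈ range L, (nu i : ℤ) + ∑ j ∈ range L', (tau j : ℤ)) * N -
      (∑ i ∈ range L, (nu i : ℤ) * (2 * i + 1) + ∑ j ∈ range L', (tau j : ℤ) * (2 * j + 1)) := by
    rw [C07_cc_sum (chi_antitone hν hτ)]
    have := C07_sum_chi hνL hτL hN (fun a i => a * ((N : ℤ) - 1 - 2 * (i : ℤ))) (by simp)
    rw [this, add_mul, Finset.sum_mul, Finset.sum_mul]
    have e1 : ∀ i ∈ range L, (nu i : ℤ) * ((N : ℤ) - 1 - 2 * (i : ℤ)) =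
        (nu i : ℤ) * N - (nu i : ℤ) * (2 * i + 1) := fun i _ => by ring
    have e2 : ∀ j ∈ range L', -(tau j : ℤ) * ((N : ℤ) - 1 - 2 * ((N - 1 - j : ℕ) : ℤ)) =
        (tau j : ℤ) * N - (tau j : ℤ) * (2 * j + 1) := by
      intro j hj
      have hj' := Finset.mem_range.1 hj
      have : ((N - 1 - j : ℕ) : ℤ) = (N : ℤ) - 1 - j := by omega
      rw [this]; ring
    rw [Finset.sum_congr rfl e1, Finset.sum_congr rfl e2, Finset.sum_sub_distrib,
      Finset.sum_sub_distrib]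
    ring
  rw [ev_two, h1, h2]
  push_cast
  ring

theorem ev_chi (k : K) {L L' N : ℕ}
    {lam mu : ℕ → ℕ} (hla : Antitone lam) (hmu : Antitone mu) (hlL : ∀ i, L ≤ i → lam i = 0)
    (hμL : ∀ j, L' ≤ j → mu j = 0) (hN : L + L' ≤ N) :
    ev k (chi N lam mu) 2 = e0 k L L' lam mu -
      k * (((∑ i ∈ range L, lam i + ∑ j ∈ range L', mu j : ℕ) : K)) * N := by
  rw [C07_ev k hla hmu hlL hμL hN, e0]
  push_cast
  rw [Finset.sum_add_distrib, Finset.sum_add_distrib, mul_add, Finset.mul_sum, Finset.mul_sum]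
  have e1 : ∀ i ∈ range L, k * ((lam i : K) * (2 * (i : K) + 1)) =
      k * (2 * (i : K) + 1) * (lam i : K) := fun i _ => by ring
  have e2 : ∀ i ∈ range L', k * ((mu i : K) * (2 * (i : K) + 1)) =
      k * (2 * (i : K) + 1) * (mu i : K) := fun i _ => by ring
  rw [Finset.sum_congr rfl e1, Finset.sum_congr rfl e2]
  ring

end JLQ
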