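import Pool.Agent.JLQ.Defs

namespace JLQ

open Finset AddMonoidAlgebra H83JL

variable {K : Type*} [Field K] {N : ℕ}

/-- supported on the monomials with `(posdeg, p_0-degree)` at most `(p, d)` lexicographically -/
def Low (p d : ℕ) (f : MvPolynomial ℤ K) : Prop :=
  ∀ m, f.coeff m ≠ 0 → posdeg m < p ∨ (posdeg m = p ∧ m 0 ≤ d)

theorem C09_posdeg_add (m n : ℤ →₀ ℕ) : posdeg (m + n) = posdeg m + posdeg n := by
  unfold posdeg
  exact Finsupp.sum_add_index' (by simp) (by intro a b c; ring)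

theorem C09_posdeg_single (a : ℤ) (n : ℕ) : posdeg (Finsupp.single a n) = a.toNat * n := by
  unfold posdeg
  simp [Finsupp.sum_single_index]

theorem C09_zero {p d : ℕ} {f : MvPolynomial ℤ K} (hf : Low p d f) (m' : ℤ →₀ ℕ)
    (h : p < posdeg m' ∨ (posdeg m' = p ∧ d < m' 0)) : f.coeff m' = 0 := by
  by_contra hne
  rcases hf m' hne with h1 | h1 <;> omega

theorem C09_euler (a : ℤ) (f : MvPolynomial ℤ K) (n : ℤ →₀ ℕ) :
    (MvPolynomial.X a * MvPolynomial.pderiv a f).coeff n = (n a : K) * f.coeff n := by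
  rw [MvPolynomial.coeff_X_mul']
  split_ifs with h
  · rw [MvPolynomial.coeff_pderiv]
    have h1 : 1 ≤ n a := Nat.one_le_iff_ne_zero.mpr (Finsupp.mem_support_iff.mp h)
    have h2 : n - Finsupp.single a 1 + Finsupp.single a 1 = n :=
      tsub_add_cancel_of_le (Finsupp.single_le_iff.mpr h1)
    rw [h2]
    have h3 : (n - Finsupp.single a 1 : ℤ →₀ ℕ) a + 1 = n a := by
      simp only [Finsupp.coe_tsub, Pi.sub_apply, Finsupp.single_eq_same]
      omega
    have h4 : (((n - Finsupp.single a 1 : ℤ →₀ ℕ) a : ℕ) : K) + 1 = (n a : K) := by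
      rw [← h3]; push_cast; ring
    rw [h4]; ring
  · have : n a = 0 := by simpa using h
    rw [this]; simp

theorem C09_second (k : K) (p d : ℕ) (f : MvPolynomial ℤ K)
    (hf : Low p d f) (m : ℤ →₀ ℕ) (hm : posdeg m = p) (hm0 : m 0 = d + 1) (a b : ℤ) :
    (MvPolynomial.C ((a * b : ℤ) : K) * MvPolynomial.X (a + b) *
      MvPolynomial.pderiv a (MvPolynomial.pderiv b f)).coeff m = 0 := by
  rw [mul_assoc, MvPolynomial.coeff_C_mul]
  by_cases ha : a = 0
  · simp [ha]
  by_cases hb : b = 0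
  · simp [hb]
  rw [MvPolynomial.coeff_X_mul']
  split_ifs with h
  · rw [MvPolynomial.coeff_pderiv, MvPolynomial.coeff_pderiv]
    have h1 : 1 ≤ m (a + b) := Nat.one_le_iff_ne_zero.mpr (Finsupp.mem_support_iff.mp h)
    set n : ℤ →₀ ℕ := m - Finsupp.single (a + b) 1 with hn
    have h2 : n + Finsupp.single (a + b) 1 = m :=
      tsub_add_cancel_of_le (Finsupp.single_le_iff.mpr h1)
    have hp : posdeg n + (a + b).toNat = p := by
      rw [← hm, ← h2, C09_posdeg_add, C09_posdeg_single]; simp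
    have h0 : n 0 + (Finsupp.single (a + b) 1 : ℤ →₀ ℕ) 0 = d + 1 := by
      rw [← hm0, ← h2]; simp
    have hz : f.coeff (n + Finsupp.single a 1 + Finsupp.single b 1) = 0 := by
      apply C09_zero hf
      rw [C09_posdeg_add, C09_posdeg_add, C09_posdeg_single, C09_posdeg_single]
      have e1 : (n + Finsupp.single a 1 + Finsupp.single b 1 : ℤ →₀ ℕ) 0 = n 0 := by
        simp [Finsupp.single_apply, ha, hb]
      rw [e1]
      by_cases hab : a + b = 0
      · left
        rw [hab] at hp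
        simp only [Int.toNat_zero, add_zero] at hp
        omega
      · rw [Finsupp.single_apply, if_neg hab] at h0
        omega
    rw [hz]; simp
  · simp

theorem C09_third (k : K) (p d : ℕ) (f : MvPolynomial ℤ K)
    (hf : Low p d f) (m : ℤ →₀ ℕ) (hm : posdeg m = p) (hm0 : m 0 = d + 1) (a : ℤ) (t : ℕ)
    (ht : t < a.natAbs - 1) :
    (MvPolynomial.X (a.sign * ((t : ℤ) + 1)) *
          MvPolynomial.X (a - a.sign * ((t : ℤ) + 1)) * MvPolynomial.pderiv a f).coeff m = 0 := by
  have ha : a ≠ 0 := by rintro rfl; simp at ht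
  set b : ℤ := a.sign * ((t : ℤ) + 1) with hb
  have key : b ≠ 0 ∧ a - b ≠ 0 ∧ a.toNat = b.toNat + (a - b).toNat := by
    rcases lt_or_gt_of_ne ha with h | h
    · have hs : a.sign = -1 := Int.sign_eq_neg_one_of_neg h
      rw [hs] at hb
      refine ⟨by omega, by omega, by omega⟩
    · have hs : a.sign = 1 := Int.sign_eq_one_of_pos h
      rw [hs] at hb
      refine ⟨by omega, by omega, by omega⟩
  obtain ⟨k1, k2, k3⟩ := key
  rw [mul_assoc, MvPolynomial.coeff_X_mul']
  split_ifs with h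
  · rw [MvPolynomial.coeff_X_mul']
    split_ifs with h'
    · rw [MvPolynomial.coeff_pderiv]
      have h1 : 1 ≤ m b := Nat.one_le_iff_ne_zero.mpr (Finsupp.mem_support_iff.mp h)
      set n : ℤ →₀ ℕ := m - Finsupp.single b 1 with hn
      have h2 : n + Finsupp.single b 1 = m :=
        tsub_add_cancel_of_le (Finsupp.single_le_iff.mpr h1)
      have h1' : 1 ≤ n (a - b) := Nat.one_le_iff_ne_zero.mpr (Finsupp.mem_support_iff.mp h')
      set l : ℤ →₀ ℕ := n - Finsupp.single (a - b) 1 with hl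
      have h2' : l + Finsupp.single (a - b) 1 = n :=
        tsub_add_cancel_of_le (Finsupp.single_le_iff.mpr h1')
      have hp : posdeg l + (a - b).toNat + b.toNat = p := by
        rw [← hm, ← h2, C09_posdeg_add, C09_posdeg_single, ← h2', C09_posdeg_add,
          C09_posdeg_single]; simp
      have h0 : l 0 = d + 1 := by
        rw [← hm0, ← h2, ← h2']; simp [Finsupp.single_apply, k1, k2]
      have hz : f.coeff (l + Finsupp.single a 1) = 0 := by
        apply C09_zero hf
        rw [C09_posdeg_add, C09_posdeg_single]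
        have e1 : (l + Finsupp.single a 1 : ℤ →₀ ℕ) 0 = l 0 := by
          simp [Finsupp.single_apply, ha]
        rw [e1]
        right
        omega
      rw [hz]; simp
    · rfl
  · rfl

theorem C09_first (k : K) (p d : ℕ) (f : MvPolynomial ℤ K)
    (hf : Low p d f) (m : ℤ →₀ ℕ) (hm : posdeg m = p) (hm0 : m 0 = d + 1) (a : ℤ) :
    (qq k a * MvPolynomial.pderiv a f).coeff m =
      - (k * ((|a| : ℤ) : K)) * (((m - Finsupp.single 0 1 : ℤ →₀ ℕ) a : ℕ) : K) *
        f.coeff (m - Finsupp.single 0 1) := by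
  have hfm : f.coeff m = 0 := C09_zero hf m (Or.inr ⟨hm, by omega⟩)
  have e : qq k a * MvPolynomial.pderiv a f =
      MvPolynomial.C ((a : K) ^ 2) * (MvPolynomial.X a * MvPolynomial.pderiv a f) -
      MvPolynomial.C (k * ((|a| : ℤ) : K)) *
        (MvPolynomial.X 0 * (MvPolynomial.X a * MvPolynomial.pderiv a f)) +
      MvPolynomial.C (k * ((|a| : ℤ) : K) * ((|a| : ℤ) : K)) *
        (MvPolynomial.X a * MvPolynomial.pderiv a f) -
      MvPolynomial.C (k * ((|a| : ℤ) : K)) *
        (∑ t ∈ range (a.natAbs - 1), MvPolynomial.X (a.sign * ((t : ℤ) + 1)) *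
          MvPolynomial.X (a - a.sign * ((t : ℤ) + 1)) * MvPolynomial.pderiv a f) := by
    unfold qq
    rw [← Finset.sum_mul, MvPolynomial.C_mul (a := k * ((|a| : ℤ) : K))]
    ring
  rw [e, MvPolynomial.coeff_sub, MvPolynomial.coeff_add, MvPolynomial.coeff_sub,
    MvPolynomial.coeff_C_mul, MvPolynomial.coeff_C_mul, MvPolynomial.coeff_C_mul,
    MvPolynomial.coeff_C_mul, C09_euler, hfm, MvPolynomial.coeff_sum,
    Finset.sum_eq_zero (fun t ht => C09_third k p d f hf m hm hm0 a t (Finset.mem_range.mp ht)),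
    MvPolynomial.coeff_X_mul', if_pos (by simp [hm0]), C09_euler]
  ring

-- ROW C09
theorem LL_low (k : K) (S : Finset ℤ) (p d : ℕ) (f : MvPolynomial ℤ K) (hS : f.vars ⊆ S)
    (hf : Low p d f) (m : ℤ →₀ ℕ) (hm : posdeg m = p) (hm0 : m 0 = d + 1) :
    (LL k S f).coeff m = - k * ((m.sum (fun a e => |a| * (e : ℤ)) : ℤ) : K) *
      f.coeff (m - Finsupp.single 0 1) := by
  unfold LL
  rw [MvPolynomial.coeff_add, MvPolynomial.coeff_sum, MvPolynomial.coeff_sum]
  have h2 : ∑ a ∈ S, (∑ b ∈ S, MvPolynomial.C ((a * b : ℤ) : K) * MvPolynomial.X (a + b) *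
      MvPolynomial.pderiv a (MvPolynomial.pderiv b f)).coeff m = 0 := by
    apply Finset.sum_eq_zero
    intro a _
    rw [MvPolynomial.coeff_sum]
    exact Finset.sum_eq_zero (fun b _ => C09_second k p d f hf m hm hm0 a b)
  rw [h2, add_zero, Finset.sum_congr rfl (fun a _ => C09_first k p d f hf m hm hm0 a)]
  by_cases hz : f.coeff (m - Finsupp.single 0 1) = 0
  · simp [hz]
  have hsub : ∀ a, (m - Finsupp.single 0 1 : ℤ →₀ ℕ) a ≠ 0 → a ∈ S := by
    intro a ha
    apply hS
    rw [MvPolynomial.mem_vars]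
    exact ⟨_, MvPolynomial.mem_support_iff.mpr hz, Finsupp.mem_support_iff.mpr ha⟩
  have hsum : ((m.sum (fun a e => |a| * (e : ℤ)) : ℤ)) =
      ∑ a ∈ S, |a| * (((m - Finsupp.single 0 1 : ℤ →₀ ℕ) a : ℕ) : ℤ) := by
    have s1 : m.sum (fun a e => |a| * (e : ℤ)) = ∑ a ∈ m.support ∪ S, |a| * (m a : ℤ) := by
      unfold Finsupp.sum
      apply Finset.sum_subset Finset.subset_union_left
      intro a _ ha
      have : m a = 0 := by simpa using ha
      simp [this]
    have s2 : ∑ a ∈ S, |a| * (((m - Finsupp.single 0 1 : ℤ →₀ ℕ) a : ℕ) : ℤ) =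
        ∑ a ∈ m.support ∪ S, |a| * (((m - Finsupp.single 0 1 : ℤ →₀ ℕ) a : ℕ) : ℤ) := by
      apply Finset.sum_subset Finset.subset_union_right
      intro a _ ha
      have : (m - Finsupp.single 0 1 : ℤ →₀ ℕ) a = 0 := by
        by_contra hne
        exact ha (hsub a hne)
      rw [this]; simp
    rw [s1, s2]
    apply Finset.sum_congr rfl
    intro a _
    by_cases ha : a = 0
    · simp [ha]
    · congr 2
      simp [Finsupp.single_apply, Ne.symm ha]
  rw [hsum, ← Finset.sum_mul]
  congr 1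
  push_cast
  rw [Finset.mul_sum]
  apply Finset.sum_congr rfl
  intro a _
  ring

end JLQ
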