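import Pool.Agent.JLQ.Defs

namespace JLQ

open Finset AddMonoidAlgebra H83JL

variable {K : Type*} [Field K] {N : ℕ}

theorem BB_int (R : Subring K) {k : K} (hkR : k ∈ R) (L L' : ℕ) (lam mu : ℕ → ℕ) (d : ℕ) :
    (BB k L L' lam mu).coeff d ∈ R := by
  set S : Subring (Polynomial K) := (Polynomial.mapRingHom R.subtype).range with hS
  have hC : Polynomial.C k ∈ S := ⟨Polynomial.C ⟨k, hkR⟩, by simp⟩
  have hX : (Polynomial.X : Polynomial K) ∈ S := ⟨Polynomial.X, by simp⟩
  have hB : BB k L L' lam mu ∈ S := by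
    unfold BB
    refine prod_mem fun i _ => prod_mem fun u _ => ?_
    unfold ff
    exact add_mem (add_mem (natCast_mem S _) (natCast_mem S _))
      (mul_mem hC (sub_mem (add_mem (natCast_mem S _) (natCast_mem S _)) hX))
  obtain ⟨p, hp⟩ := hB
  rw [← hp, Polynomial.coe_mapRingHom, Polynomial.coeff_map]
  exact (p.coeff d).2

theorem sc_int (R : Subring K) (q : Polynomial K) (hq : ∀ d, q.coeff d ∈ R) (m : ℤ →₀ ℕ) :
    (sc K q).coeff m ∈ R := by
  classical
  rw [sc, Polynomial.aeval_eq_sum_range, MvPolynomial.coeff_sum]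
  refine sum_mem fun i _ => ?_
  rw [MvPolynomial.coeff_smul, smul_eq_mul, MvPolynomial.coeff_X_pow]
  refine mul_mem (hq i) ?_
  split_ifs
  · exact one_mem R
  · exact zero_mem R

theorem facL_int (R : Subring K) {k : K} (hkR : k ∈ R) (L : ℕ) (lam : ℕ → ℕ) :
    facL k L lam ∈ R := by
  unfold facL
  refine prod_mem fun i _ => prod_mem fun j _ => ?_
  exact add_mem (sub_mem (sub_mem (natCast_mem R _) (natCast_mem R _)) (one_mem R))
    (mul_mem hkR (sub_mem (natCast_mem R _) (natCast_mem R _)))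

end JLQ
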