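import Mathlib

/-! Coefficients under a homomorphism into `K[p_0][p_a : a ≠ 0]`. -/

namespace JLQ

open Polynomial

variable {K : Type*} [Field K]

/-- polynomials in the `p_a` with coefficients in `A[p_0]` -/
def CoefIn (σ : Type*) (A : Subring K) : Subring (MvPolynomial σ K[X]) where
  carrier := {f | ∀ m e, ((f.coeff m).coeff e) ∈ A}
  mul_mem' := by
    classical
    intro f g hf hg m e
    rw [MvPolynomial.coeff_mul, Polynomial.finset_sum_coeff]
    refine A.sum_mem fun x _ => ?_
    rw [Polynomial.coeff_mul]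
    exact A.sum_mem fun y _ => A.mul_mem (hf _ _) (hg _ _)
  one_mem' := by
    classical
    intro m e
    rw [MvPolynomial.coeff_one]
    split_ifs
    · rw [Polynomial.coeff_one]
      split_ifs
      · exact A.one_mem
      · exact A.zero_mem
    · rw [Polynomial.coeff_zero]; exact A.zero_mem
  add_mem' := by
    intro f g hf hg m e
    rw [MvPolynomial.coeff_add, Polynomial.coeff_add]
    exact A.add_mem (hf _ _) (hg _ _)
  zero_mem' := by
    intro m e
    rw [MvPolynomial.coeff_zero, Polynomial.coeff_zero]; exact A.zero_mem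
  neg_mem' := by
    intro f hf m e
    rw [MvPolynomial.coeff_neg, Polynomial.coeff_neg]
    exact A.neg_mem (hf _ _)

lemma C_mem_CoefIn {σ : Type*} (A : Subring K) {p : K[X]} (h : ∀ e, p.coeff e ∈ A) :
    (MvPolynomial.C p : MvPolynomial σ K[X]) ∈ CoefIn σ A := by
  classical
  intro m e
  rw [MvPolynomial.coeff_C]
  split_ifs
  · exact h e
  · rw [Polynomial.coeff_zero]; exact A.zero_mem

lemma X_mem_CoefIn {σ : Type*} (A : Subring K) (a : σ) :
    (MvPolynomial.X a : MvPolynomial σ K[X]) ∈ CoefIn σ A := by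
  classical
  intro m e
  rw [MvPolynomial.coeff_X']
  split_ifs
  · rw [Polynomial.coeff_one]
    split_ifs
    · exact A.one_mem
    · exact A.zero_mem
  · rw [Polynomial.coeff_zero]; exact A.zero_mem

lemma CX_mem_CoefIn {σ : Type*} (A : Subring K) :
    (MvPolynomial.C X : MvPolynomial σ K[X]) ∈ CoefIn σ A := by
  refine C_mem_CoefIn A fun e => ?_
  rw [Polynomial.coeff_X]
  split_ifs
  · exact A.one_mem
  · exact A.zero_mem

/-- coefficients of the image of `J` under `p_a ↦ g a` -/
theorem aeval_mem {σ : Type*} (A : Subring K) (g : ℤ → MvPolynomial σ K[X])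
    (hg : ∀ a, g a ∈ CoefIn σ A) (J : MvPolynomial ℤ K) (h : ∀ m, J.coeff m ∈ A) (m : σ →₀ ℕ)
    (e : ℕ) : ((MvPolynomial.aeval g J : MvPolynomial σ K[X]).coeff m).coeff e ∈ A := by
  classical
  have : (MvPolynomial.aeval g J : MvPolynomial σ K[X]) ∈ CoefIn σ A := by
    rw [MvPolynomial.aeval_def, MvPolynomial.eval₂_eq]
    refine Subring.sum_mem _ fun m _ => Subring.mul_mem _ ?_
      (Subring.prod_mem _ fun a _ => Subring.pow_mem _ (hg a) _)
    have : (algebraMap K (MvPolynomial σ K[X])) (J.coeff m) =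
        MvPolynomial.C (Polynomial.C (J.coeff m)) := rfl
    rw [this]
    refine C_mem_CoefIn A fun e => ?_
    rw [Polynomial.coeff_C]
    split_ifs
    · exact h m
    · exact A.zero_mem
  exact this m e

/-- lifting a polynomial with coefficients in `F[k]` -/
theorem exists_lift {F : Type*} [Field F] (p : (RatFunc F)[X])
    (hp : ∀ e, ∃ c : F[X], p.coeff e = algebraMap F[X] (RatFunc F) c) :
    ∃ q : F[X][X], q.map (algebraMap F[X] (RatFunc F)) = p := by
  choose c hc using hp
  refine ⟨∑ e ∈ p.support, Polynomial.monomial e (c e), ?_⟩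
  rw [Polynomial.map_sum]
  conv_rhs => rw [p.as_sum_support]
  refine Finset.sum_congr rfl fun e _ => ?_
  rw [Polynomial.map_monomial, ← hc]

end JLQ
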