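import Pool.Agent.H83JL.Asm
import Pool.Agent.H83JL.Uniq
import Pool.Agent.H83JL.CMS

/-! Definitions for the polynomiality in `k` and `p_0` of the normalised Jack-Laurent functions. -/

namespace JLQ

open Finset AddMonoidAlgebra H83JL

variable {K : Type*} [Field K] {N : ℕ}

/-- Cherednik operators -/
noncomputable def YE (k : K) (i : Fin N) : Module.End K (Lau K N) :=
  dun k i - k • ∑ j ∈ Ioi i, SE K (Equiv.swap i j) + (k * (N : K)) • 1

/-- all coefficients lie in the subring `R` -/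
def InR (R : Subring K) (f : Lau K N) : Prop := ∀ η, f.coeff η ∈ R

/-- product of the first `m` factors `c - Y_i` -/
noncomputable def PP (k c : K) (N : ℕ) : ℕ → Module.End K (Lau K N)
  | 0 => 1
  | m + 1 => (if h : m < N then (c • 1 - YE k (⟨m, h⟩ : Fin N)) else 1) * PP k c N m

/-- the adjacent transposition -/
def adj (N a : ℕ) (h : a + 1 < N) : Equiv.Perm (Fin N) :=
  Equiv.swap (⟨a, by omega⟩ : Fin N) ⟨a + 1, h⟩

/-- power sums of the Cherednik operators -/
noncomputable def P1 (k : K) (N : ℕ) : Module.End K (Lau K N) := ∑ i, YE k i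
/-- power sums of the Cherednik operators -/
noncomputable def P2 (k : K) (N : ℕ) : Module.End K (Lau K N) := ∑ i, YE k i * YE k i

/-- the cyclic operator `x_n · τ` -/
noncomputable def PhiE (K : Type*) [Field K] (n : ℕ) : Module.End K (Lau K (n + 1)) :=
  LinearMap.mulLeft K (xp K (Fin.last n) 1) * SE K (finRotate (n + 1))⁻¹

/-- the exponent of `x_0 ... x_{l-1}` -/
def eJ (N l : ℕ) : Fin N → ℤ := fun i => if i.val < l then 1 else 0

/-- the monomial `x_0 ... x_{l-1}` -/
noncomputable def xJ (K : Type*) [Field K] (N l : ℕ) : Lau K N := single (eJ N l) 1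

/-- symmetrisation -/
noncomputable def Sy (f : Lau K N) : Lau K N := ∑ σ : Equiv.Perm (Fin N), perm σ f

/-- `∏ (λ_i - j - 1 + k (i - λ'_j))` over the cells of `λ` -/
noncomputable def facL (k : K) (L : ℕ) (lam : ℕ → ℕ) : K :=
  ∏ i ∈ range L, ∏ j ∈ range (lam i), ((lam i : K) - j - 1 + k * ((i : K) - conj L lam j))

/-- positive part of the degree of a monomial in the `p_a` -/
noncomputable def posdeg (m : ℤ →₀ ℕ) : ℕ := m.sum (fun a e => a.toNat * e)

/-- sum of the positive entries of a weight -/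
def posp (η : Fin N → ℤ) : ℕ := ∑ i, (η i).toNat

/-- the image of `p_a` under the CMS operator -/
noncomputable def qq (k : K) (a : ℤ) : MvPolynomial ℤ K :=
  MvPolynomial.C ((a : K) ^ 2) * MvPolynomial.X a -
    MvPolynomial.C (k * ((|a| : ℤ) : K)) *
      ((MvPolynomial.X 0 - MvPolynomial.C ((|a| : ℤ) : K)) * MvPolynomial.X a +
        ∑ t ∈ range (a.natAbs - 1), MvPolynomial.X (a.sign * ((t : ℤ) + 1)) *
          MvPolynomial.X (a - a.sign * ((t : ℤ) + 1)))

/-- the CMS operator in infinitely many variables, on polynomials in the `p_a`, `a ∈ S` -/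
noncomputable def LL (k : K) (S : Finset ℤ) (f : MvPolynomial ℤ K) : MvPolynomial ℤ K :=
  ∑ a ∈ S, qq k a * MvPolynomial.pderiv a f +
    ∑ a ∈ S, ∑ b ∈ S, MvPolynomial.C ((a * b : ℤ) : K) * MvPolynomial.X (a + b) *
      MvPolynomial.pderiv a (MvPolynomial.pderiv b f)

/-- from `K[p_a : a ∈ ℤ]` to `K[p_0][p_a : a ≠ 0]` -/
noncomputable def conv (K : Type*) [Field K] :
    MvPolynomial ℤ K →ₐ[K] MvPolynomial {a : ℤ // a ≠ 0} (Polynomial K) :=
  MvPolynomial.aeval (fun a => if h : a = 0 then MvPolynomial.C Polynomial.X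
    else MvPolynomial.X ⟨a, h⟩)

/-- the exponent with `p_0`-part `d` -/
noncomputable def ext0 (m : {a : ℤ // a ≠ 0} →₀ ℕ) (d : ℕ) : ℤ →₀ ℕ :=
  m.embDomain (Function.Embedding.subtype _) + Finsupp.single 0 d

/-- the `p_0`-free part of the eigenvalue -/
noncomputable def e0 (k : K) (L L' : ℕ) (lam mu : ℕ → ℕ) : K :=
  ∑ i ∈ range L, ((lam i : K) ^ 2 + k * (2 * (i : K) + 1) * lam i) +
    ∑ j ∈ range L', ((mu j : K) ^ 2 + k * (2 * (j : K) + 1) * mu j)

/-- inversion of the variables -/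
noncomputable def invL : Lau K N →ₐ[K] Lau K N :=
  mapDomainAlgHom K K (-(AddMonoidHom.id (Fin N → ℤ)))

end JLQ
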