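import Pool.Agent.H83JL.CMS

/-! Definitions for the column removal. -/

namespace JLQ

open Finset AddMonoidAlgebra H83JL

variable {K : Type*} [Field K]

/-- `A(ν) = ∏ (ν_i - j + k (i - 1 - ν'_j))`, rows and columns counted from zero -/
noncomputable def Af (k : K) (L : ℕ) (nu : ℕ → ℕ) : K :=
  ∏ i ∈ range L, ∏ j ∈ range (nu i), ((nu i : K) - (j + 1) + k * (i - (conj L nu j : K)))

/-- the column `(1^m)` -/
def colm (m : ℕ) : ℕ → ℕ := fun j => if j < m then 1 else 0

/-- the inversion `x ↦ 1/x` -/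
noncomputable def invL (K : Type*) [Field K] (N : ℕ) : Lau K N →ₐ[K] Lau K N :=
  mapDomainAlgHom K K (negAddMonoidHom : (Fin N → ℤ) →+ (Fin N → ℤ))

end JLQ
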