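import Pool.Agent.H83JL.CMS

/-! Definitions for the integrality of Jack-Laurent symmetric functions. -/

namespace JLQ

open Finset AddMonoidAlgebra H83JL

variable {K : Type*} [Field K]

/-- positive degree of a monomial in the `p_a`, `a ∈ ℤ` -/
def pdeg (m : ℤ →₀ ℕ) : ℕ := m.sum fun a e => e * a.toNat

/-- absolute degree -/
def adeg (m : ℤ →₀ ℕ) : ℕ := m.sum fun a e => e * a.natAbs

/-- weight -/
def wt (m : ℤ →₀ ℕ) : ℤ := m.sum fun a e => (e : ℤ) * a

/-- positive part of a weight -/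
def pos {N : ℕ} (η : Fin N → ℤ) : ℕ := ∑ i, (η i).toNat

/-- all coefficients in `A` -/
def IntM (A : Subring K) (f : MvPolynomial ℤ K) : Prop := ∀ m, f.coeff m ∈ A

/-- all coefficients in `A` -/
def IntL {N : ℕ} (A : Subring K) (f : Lau K N) : Prop := ∀ η, f.coeff η ∈ A

/-- restriction of a Laurent polynomial to a set of exponents -/
noncomputable def res {N : ℕ} (S : Set (Fin N → ℤ)) (f : Lau K N) : Lau K N :=
  open Classical in .ofCoeff (f.coeff.filter (fun η => η ∈ S))

/-- `J` represents `s(p_0) P_{lam,mu}` -/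
def Rep (k : K) (lam mu : ℕ → ℕ) (s : Polynomial K) (J : MvPolynomial ℤ K) : Prop :=
  ∃ N0 : ℕ, ∀ N ≥ N0, phi K N J ∈ Eig k (chi N lam mu) ∧
    (phi K N J).coeff (chi N lam mu) = s.eval (N : K)

/-- partitions with at most `L` rows and at most `L` boxes -/
structure Par (L : ℕ) (lam : ℕ → ℕ) : Prop where
  anti : Antitone lam
  zero : ∀ i, L ≤ i → lam i = 0
  size : ∑ i ∈ range L, lam i ≤ L

/-- the factor `A(λ)` -/
noncomputable def Afac (k : K) (L : ℕ) (lam : ℕ → ℕ) : K :=
  ∏ i ∈ range L, ∏ j ∈ range (lam i), ((lam i : K) - j - 1 + k * ((i : K) - conj L lam j))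

end JLQ
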