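import Mathlib

/-! The subrings `F[k, 1/k]` and the local ring at `k = 0` of `F(k)`. -/

namespace JLQ

open Polynomial

variable {F : Type*} [Field F]

/-- `F[k, 1/k]` -/
def Rk (F : Type*) [Field F] : Subring (RatFunc F) where
  carrier := {f | ∃ n : ℕ, ∃ p : F[X], RatFunc.X ^ n * f = algebraMap F[X] (RatFunc F) p}
  mul_mem' := by
    rintro f g ⟨n, p, h⟩ ⟨m, q, h'⟩
    refine ⟨n + m, p * q, ?_⟩
    rw [map_mul, ← h, ← h', pow_add]
    ring
  one_mem' := ⟨0, 1, by simp⟩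
  add_mem' := by
    rintro f g ⟨n, p, h⟩ ⟨m, q, h'⟩
    refine ⟨n + m, Polynomial.X ^ m * p + Polynomial.X ^ n * q, ?_⟩
    rw [map_add, map_mul, map_mul, ← h, ← h', map_pow, map_pow, RatFunc.algebraMap_X, pow_add]
    ring
  zero_mem' := ⟨0, 0, by simp⟩
  neg_mem' := by
    rintro f ⟨n, p, h⟩
    refine ⟨n, -p, ?_⟩
    rw [map_neg, ← h]
    ring

/-- the local ring at `k = 0` -/
def Ok (F : Type*) [Field F] : Subring (RatFunc F) where
  carrier := {f | ∃ a b : F[X], b.eval 0 ≠ 0 ∧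
    algebraMap F[X] (RatFunc F) b * f = algebraMap F[X] (RatFunc F) a}
  mul_mem' := by
    rintro f g ⟨a, b, hb, h⟩ ⟨a', b', hb', h'⟩
    refine ⟨a * a', b * b', ?_, ?_⟩
    · rw [eval_mul]
      exact mul_ne_zero hb hb'
    · rw [map_mul, map_mul, ← h, ← h']
      ring
  one_mem' := ⟨1, 1, by simp, by simp⟩
  add_mem' := by
    rintro f g ⟨a, b, hb, h⟩ ⟨a', b', hb', h'⟩
    refine ⟨a * b' + a' * b, b * b', ?_, ?_⟩
    · rw [eval_mul]
      exact mul_ne_zero hb hb'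
    · rw [map_mul, map_add, map_mul, map_mul, ← h, ← h']
      ring
  zero_mem' := ⟨0, 1, by simp, by simp⟩
  neg_mem' := by
    rintro f ⟨a, b, hb, h⟩
    refine ⟨-a, b, hb, ?_⟩
    rw [map_neg, ← h]
    ring

lemma X_mem_Rk : (RatFunc.X : RatFunc F) ∈ Rk F :=
  ⟨0, Polynomial.X, by rw [RatFunc.algebraMap_X]; simp⟩

lemma Xinv_mem_Rk : (RatFunc.X : RatFunc F)⁻¹ ∈ Rk F :=
  ⟨1, 1, by rw [pow_one, mul_inv_cancel₀ RatFunc.X_ne_zero, map_one]⟩

lemma int_eq (n : ℤ) : (n : RatFunc F) = algebraMap F[X] (RatFunc F) (n : F[X]) := by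
  rw [map_intCast]

lemma rat_eq [CharZero F] (q : ℚ) :
    (q : RatFunc F) = algebraMap F[X] (RatFunc F) (Polynomial.C (q : F)) := by
  rw [RatFunc.algebraMap_C, map_ratCast]

lemma rat_mem_Rk [CharZero F] (q : ℚ) : (q : RatFunc F) ∈ Rk F :=
  ⟨0, Polynomial.C (q : F), by rw [rat_eq, pow_zero, one_mul]⟩

lemma X_mem_Ok : (RatFunc.X : RatFunc F) ∈ Ok F :=
  ⟨Polynomial.X, 1, by simp, by rw [RatFunc.algebraMap_X]; simp⟩

lemma lin_eq (n m : ℤ) : ((n : RatFunc F) + RatFunc.X * (m : RatFunc F)) =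
    algebraMap F[X] (RatFunc F) ((n : F[X]) + Polynomial.X * (m : F[X])) := by
  rw [map_add, map_mul, RatFunc.algebraMap_X, map_intCast, map_intCast]

lemma unit_Ok [CharZero F] (n m : ℤ) (hn : n ≠ 0) :
    ((n : RatFunc F) + RatFunc.X * (m : RatFunc F)) ≠ 0 ∧
      ((n : RatFunc F) + RatFunc.X * (m : RatFunc F))⁻¹ ∈ Ok F := by
  have h0 : (((n : F[X]) + Polynomial.X * (m : F[X])).eval 0) ≠ 0 := by
    simp only [eval_add, eval_mul, eval_X, eval_intCast, zero_mul, add_zero]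
    exact_mod_cast hn
  have h1 : ((n : F[X]) + Polynomial.X * (m : F[X])) ≠ 0 := by
    intro h
    rw [h, eval_zero] at h0
    exact h0 rfl
  have h2 : ((n : RatFunc F) + RatFunc.X * (m : RatFunc F)) ≠ 0 := by
    rw [lin_eq]
    exact (map_ne_zero_iff _ (RatFunc.algebraMap_injective F)).2 h1
  refine ⟨h2, 1, (n : F[X]) + Polynomial.X * (m : F[X]), h0, ?_⟩
  rw [← lin_eq, mul_inv_cancel₀ h2, map_one]

lemma inter_RO {f : RatFunc F} (h1 : f ∈ Rk F) (h2 : f ∈ Ok F) :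
    ∃ p : F[X], f = algebraMap F[X] (RatFunc F) p := by
  obtain ⟨n, p, hp⟩ := h1
  obtain ⟨a, b, hb, h⟩ := h2
  have hinj := RatFunc.algebraMap_injective F
  have e : Polynomial.X ^ n * a = b * p := by
    apply hinj
    rw [map_mul, map_mul, ← h, ← hp, map_pow, RatFunc.algebraMap_X]
    ring
  have hc : IsCoprime (Polynomial.X ^ n : F[X]) b := by
    apply IsCoprime.pow_left
    rw [Polynomial.irreducible_X.coprime_iff_not_dvd]
    intro hd
    rw [Polynomial.X_dvd_iff, Polynomial.coeff_zero_eq_eval_zero] at hd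
    exact hb hd
  have hd : (Polynomial.X ^ n : F[X]) ∣ p := hc.dvd_of_dvd_mul_left ⟨a, e.symm⟩
  obtain ⟨c, hc'⟩ := hd
  refine ⟨c, ?_⟩
  have hX : (RatFunc.X : RatFunc F) ^ n ≠ 0 := pow_ne_zero _ RatFunc.X_ne_zero
  apply mul_left_cancel₀ hX
  rw [hp, hc', map_mul, map_pow, RatFunc.algebraMap_X]

lemma X_irrat [CharZero F] (q : ℚ) : (q : RatFunc F) ≠ RatFunc.X := by
  rw [rat_eq, ← RatFunc.algebraMap_X]
  intro h
  have h2 := RatFunc.algebraMap_injective F h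
  exact Polynomial.X_ne_C _ h2.symm

end JLQ
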