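import Pool.Agent.JLQ.S1b

/-! S2: coefficients of `phi K N f` for all large `N` determine `f` (also modulo a
`ℚ`-subspace `A` of `K`, and in graded form). -/

namespace JLQ

open Finset H83JL

variable {K : Type*} [Field K]

/-- nonzero parts of a monomial, as a list -/
noncomputable def ml (m : ℤ →₀ ℕ) : List ℤ := ((m.erase 0).toMultiset).toList

lemma ml_ne (m : ℤ →₀ ℕ) : ∀ b ∈ ml m, b ≠ 0 := by
  intro b hb
  rw [ml, Multiset.mem_toList, Finsupp.mem_toMultiset, Finsupp.support_erase,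
    Finset.mem_erase] at hb
  exact hb.1

lemma ml_coe (m : ℤ →₀ ℕ) : (ml m : Multiset ℤ) = (m.erase 0).toMultiset := by
  rw [ml, Multiset.coe_toList]

lemma ml_inj {m m' : ℤ →₀ ℕ} (h : (ml m : Multiset ℤ) = (ml m' : Multiset ℤ)) :
    m.erase 0 = m'.erase 0 := by
  rw [ml_coe, ml_coe] at h
  classical
  exact Finsupp.ext fun a => by rw [← Finsupp.count_toMultiset, ← Finsupp.count_toMultiset, h]

lemma ml_prod (N : ℕ) (m : ℤ →₀ ℕ) :
    (m.prod fun a e => psum K N a ^ e) =
      ((N : Lau K N)) ^ (m 0) * ((ml m).map (psum K N)).prod := by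
  rw [← Finsupp.mul_prod_erase' m 0 (fun a e => psum K N a ^ e) (fun i => pow_zero _), psum_zero]
  congr 1
  rw [← Multiset.prod_coe, ← Multiset.map_coe, ml_coe, Finsupp.toMultiset_map,
    Finsupp.prod_toMultiset, Finsupp.prod_mapDomain_index]
  · intro a; exact pow_zero a
  · intro a m n; exact pow_add a m n

lemma natCast_mul_coeff {N : ℕ} (n : ℕ) (f : Lau K N) (η : Fin N → ℤ) :
    ((n : Lau K N) * f).coeff η = (n : K) * f.coeff η := by
  rw [← nsmul_eq_mul, ← Nat.cast_smul_eq_nsmul K, AddMonoidAlgebra.coeff_smul, Finsupp.smul_apply,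
    smul_eq_mul]

/-- the coefficient formula -/
theorem phi_coeff (N : ℕ) (f : MvPolynomial ℤ K) (η : Fin N → ℤ) :
    (phi K N f).coeff η =
      ∑ m ∈ f.support, f.coeff m * (((N ^ (m 0) * cnt (ml m) η : ℕ)) : K) := by
  rw [phi, MvPolynomial.aeval_def, MvPolynomial.eval₂_eq, AddMonoidAlgebra.coeff_sum,
    Finset.sum_apply']
  refine Finset.sum_congr rfl fun m _ => ?_
  have h := ml_prod (K := K) N m
  rw [Finsupp.prod] at h
  rw [h, ← Algebra.smul_def, AddMonoidAlgebra.coeff_smul, Finsupp.smul_apply, smul_eq_mul,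
    ← Nat.cast_pow, natCast_mul_coeff, coeff_prod]
  push_cast
  rfl

/-- `cnt` only charges exponents with smaller `∑ |η i|` -/
lemma cnt_deg {N : ℕ} (l : List ℤ) (η : Fin N → ℤ) (h : cnt l η ≠ 0) :
    ∑ i, (η i).natAbs ≤ (l.map Int.natAbs).sum := by
  induction l generalizing η with
  | nil =>
    simp only [cnt] at h
    have : η = 0 := by by_contra hc; simp [hc] at h
    subst this
    simp
  | cons b l ih =>
    simp only [cnt] at h
    obtain ⟨i, _, hi⟩ := Finset.exists_ne_zero_of_sum_ne_zero h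
    have h1 := ih _ hi
    obtain ⟨ζ, hζ⟩ : ∃ ζ : Fin N → ℤ, ζ = η - Pi.single i b := ⟨_, rfl⟩
    rw [← hζ] at h1
    have hζi : ζ i = η i - b := by rw [hζ]; simp
    have hζj : ∀ j, j ≠ i → ζ j = η j := by
      intro j hj
      rw [hζ, Pi.sub_apply, Pi.single_eq_of_ne hj, sub_zero]
    have h2 : ∑ j, (η j).natAbs ≤ ∑ j, (ζ j).natAbs + b.natAbs := by
      rw [← Finset.add_sum_erase univ (fun j => (η j).natAbs) (mem_univ i),
        ← Finset.add_sum_erase univ (fun j => (ζ j).natAbs) (mem_univ i)]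
      have e : ∑ x ∈ univ.erase i, (ζ x).natAbs = ∑ x ∈ univ.erase i, (η x).natAbs := by
        refine Finset.sum_congr rfl fun j hj => ?_
        simp only [mem_erase, mem_univ, and_true] at hj
        rw [hζj j hj]
      simp only [e, hζi]
      omega
    simp only [List.map_cons, List.sum_cons]
    omega

lemma sum_natAbs_nz {N : ℕ} (η : Fin N → ℤ) :
    ((nz η).map Int.natAbs).sum = ∑ i, (η i).natAbs := by
  have : ∀ s : Finset (Fin N),
      ((∑ i ∈ s, (if η i = 0 then (0 : Multiset ℤ) else {η i})).map Int.natAbs).sum =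
        ∑ i ∈ s, (η i).natAbs := by
    classical
    intro s
    induction s using Finset.induction_on with
    | empty => simp
    | insert a s ha ih =>
      rw [Finset.sum_insert ha, Finset.sum_insert ha, Multiset.map_add, Multiset.sum_add, ih]
      congr 1
      split_ifs with h
      · simp [h]
      · simp
  exact this univ

lemma dg_ml (m : ℤ →₀ ℕ) : ((ml m).map Int.natAbs).sum = dg m := by
  rw [← Multiset.sum_coe, ← Multiset.map_coe, ml_coe, Finsupp.toMultiset_map,
    dg, ← Finsupp.add_sum_erase' m 0 (fun a e => a.natAbs * e) (by simp),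
    Finsupp.sum_toMultiset, Finsupp.sum_mapDomain_index (by simp) (by intros; ring)]
  simp only [Int.natAbs_zero, zero_mul, zero_add, smul_eq_mul, mul_comm]

/-- values at large naturals in a `ℚ`-subspace -/
lemma vander [CharZero K] (A : AddSubgroup K) (hA : ∀ (q : ℚ), ∀ a ∈ A, (q : K) * a ∈ A)
    {ι : Type*} (s : Finset ι) (e : ι → ℕ) (he : Set.InjOn e s) (c : ι → K) (N0 : ℕ)
    (h : ∀ N ≥ N0, ∑ i ∈ s, c i * (N : K) ^ (e i) ∈ A) : ∀ i ∈ s, c i ∈ A := by
  classical
  let A' : Submodule ℚ K :=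
    { carrier := A
      add_mem' := fun ha hb => A.add_mem ha hb
      zero_mem' := A.zero_mem
      smul_mem' := fun q a ha => by
        rw [Rat.smul_def]
        exact hA q a ha }
  have hmem : ∀ x, x ∈ A' ↔ x ∈ A := fun _ => Iff.rfl
  intro i hi
  rw [← hmem, ← Submodule.Quotient.mk_eq_zero A']
  rw [← Module.forall_dual_apply_eq_zero_iff ℚ]
  intro l
  let p : Polynomial ℚ := ∑ j ∈ s, Polynomial.monomial (e j) (l (Submodule.Quotient.mk (c j)))
  have hp : p = 0 := by
    apply Polynomial.eq_zero_of_infinite_isRoot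
    apply Set.Infinite.mono (s := (fun n : ℕ => (n : ℚ)) '' Set.Ici N0)
    · rintro _ ⟨n, hn, rfl⟩
      show Polynomial.eval _ p = 0
      have h1 := h n hn
      rw [← hmem, ← Submodule.Quotient.mk_eq_zero A'] at h1
      have h2 : l (Submodule.Quotient.mk (∑ i ∈ s, c i * (n : K) ^ (e i))) = 0 := by
        rw [h1, map_zero]
      rw [← Submodule.mkQ_apply, map_sum, map_sum] at h2
      rw [← h2, Polynomial.eval_finsetSum]
      refine Finset.sum_congr rfl fun j _ => ?_
      rw [Polynomial.eval_monomial]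
      have : c j * (n : K) ^ (e j) = ((n : ℚ) ^ (e j)) • c j := by
        rw [Rat.smul_def]; push_cast; ring
      rw [this, map_smul, map_smul, smul_eq_mul, mul_comm, Submodule.mkQ_apply]
    · exact (Set.Ici_infinite N0).image (fun a _ b _ hab => by exact_mod_cast hab)
  have h3 : p.coeff (e i) = 0 := by rw [hp]; simp
  rw [Polynomial.finsetSum_coeff, Finset.sum_eq_single i] at h3
  · simpa using h3
  · intro j hj hji
    rw [Polynomial.coeff_monomial, if_neg]
    intro h4
    exact hji (he hj hi h4)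
  · intro h4; exact absurd hi h4

/-- general graded form -/
theorem coeff_mem_graded [CharZero K] (A : AddSubgroup K)
    (hA : ∀ (q : ℚ), ∀ a ∈ A, (q : K) * a ∈ A) (f : MvPolynomial ℤ K) (n N0 : ℕ)
    (h : ∀ N ≥ N0, ∀ η : Fin N → ℤ, n ≤ ∑ i, (η i).natAbs → (phi K N f).coeff η ∈ A) :
    ∀ m : ℤ →₀ ℕ, n ≤ dg m → f.coeff m ∈ A := by
  classical
  by_contra hcon
  push Not at hcon
  obtain ⟨m0, hm0, hm0'⟩ := hcon
  let B : Finset (ℤ →₀ ℕ) := f.support.filter (fun m => n ≤ dg m ∧ f.coeff m ∉ A)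
  have hB : B.Nonempty := by
    refine ⟨m0, ?_⟩
    simp only [B, mem_filter, MvPolynomial.mem_support_iff]
    refine ⟨?_, hm0, hm0'⟩
    intro h0; rw [h0] at hm0'; exact hm0' A.zero_mem
  obtain ⟨m, hm, hmax⟩ := Finset.exists_max_image B (fun m => (ml m).length) hB
  simp only [B, mem_filter, MvPolynomial.mem_support_iff] at hm
  obtain ⟨hm1, hm2, hm3⟩ := hm
  apply hm3
  let S : Finset (ℤ →₀ ℕ) := f.support.filter (fun m' => m'.erase 0 = m.erase 0)
  have key : ∀ N ≥ max N0 (ml m).length,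
      ∑ m' ∈ S, f.coeff m' * (N : K) ^ (m' 0) ∈ A := by
    intro N hN
    have hN0 : N0 ≤ N := (le_max_left _ _).trans hN
    have hN1 : (ml m).length ≤ N := (le_max_right _ _).trans hN
    obtain ⟨η, hη⟩ := exists_nz (N := N) (ml m) (ml_ne m) hN1
    have hsum : ∑ i, (η i).natAbs = dg m := by
      rw [← sum_natAbs_nz, hη, Multiset.map_coe, Multiset.sum_coe, dg_ml]
    have h1 := h N hN0 η (by rw [hsum]; exact hm2)
    rw [phi_coeff, ← Finset.sum_filter_add_sum_filter_not f.support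
      (fun m' => m'.erase 0 = m.erase 0)] at h1
    have h2 : ∑ m' ∈ f.support with ¬ (m'.erase 0 = m.erase 0),
        f.coeff m' * (((N ^ (m' 0) * cnt (ml m') η : ℕ)) : K) ∈ A := by
      apply AddSubgroup.sum_mem
      intro m' hm'
      simp only [mem_filter] at hm'
      by_cases hc : cnt (ml m') η = 0
      · rw [hc]; simp
      · have h5 := cnt_deg (ml m') η hc
        rw [dg_ml, hsum] at h5
        obtain ⟨h3, h4⟩ := cnt_ne (ml m') (ml_ne m') η hc
        rw [hη, Multiset.coe_card] at h3 h4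
        have hlt : (ml m).length < (ml m').length := by
          refine lt_of_le_of_ne h3 fun heq => ?_
          exact hm'.2 (ml_inj (h4 heq)).symm
        have hgood : f.coeff m' ∈ A := by
          by_contra hbad
          have := hmax m' (by
            simp only [B, mem_filter]
            exact ⟨hm'.1, hm2.trans h5, hbad⟩)
          omega
        have := hA ((N ^ (m' 0) * cnt (ml m') η : ℕ) : ℚ) _ hgood
        rw [mul_comm]
        simpa using this
    have h6 := (AddSubgroup.add_mem_cancel_right A h2).1 h1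
    have hpos := cnt_pos (ml m) (ml_ne m) η hη
    have h7 : ∑ m' ∈ f.support with m'.erase 0 = m.erase 0,
        f.coeff m' * (((N ^ (m' 0) * cnt (ml m') η : ℕ)) : K) =
        ((cnt (ml m) η : ℕ) : K) * ∑ m' ∈ S, f.coeff m' * (N : K) ^ (m' 0) := by
      rw [Finset.mul_sum]
      refine Finset.sum_congr rfl fun m' hm' => ?_
      have hm2' := (Finset.mem_filter.1 hm').2
      have : ml m' = ml m := by rw [ml, ml, hm2']
      rw [this]
      push_cast
      ring
    rw [h7] at h6
    have h8 := hA ((cnt (ml m) η : ℚ)⁻¹) _ h6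
    have hne : ((cnt (ml m) η : ℕ) : K) ≠ 0 := by exact_mod_cast hpos.ne'
    have h9 : (((cnt (ml m) η : ℚ)⁻¹ : ℚ) : K) *
        (((cnt (ml m) η : ℕ) : K) * ∑ m' ∈ S, f.coeff m' * (N : K) ^ (m' 0)) =
        ∑ m' ∈ S, f.coeff m' * (N : K) ^ (m' 0) := by
      push_cast
      rw [inv_mul_cancel_left₀ hne]
    rwa [h9] at h8
  refine vander A hA S (fun m' => m' 0) ?_ (fun m' => f.coeff m') _ key m ?_
  · intro a ha b hb hab
    simp only [S, coe_filter, Set.mem_ofPred_eq] at ha hb
    have h1 : a.erase 0 = b.erase 0 := ha.2.trans hb.2.symm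
    ext x
    by_cases hx : x = 0
    · rw [hx]; exact hab
    · have := DFunLike.congr_fun h1 x
      rwa [Finsupp.erase_ne hx, Finsupp.erase_ne hx] at this
  · simp only [S, mem_filter, MvPolynomial.mem_support_iff]
    exact ⟨hm1, trivial⟩

/-- `A`-integrality of all coefficients -/
theorem coeff_mem [CharZero K] (A : AddSubgroup K)
    (hA : ∀ (q : ℚ), ∀ a ∈ A, (q : K) * a ∈ A) (f : MvPolynomial ℤ K) (N0 : ℕ)
    (h : ∀ N ≥ N0, ∀ η : Fin N → ℤ, (phi K N f).coeff η ∈ A) (m : ℤ →₀ ℕ) : f.coeff m ∈ A :=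
  coeff_mem_graded A hA f 0 N0 (fun N hN η _ => h N hN η) m (Nat.zero_le _)

/-- injectivity -/
theorem phi_inj [CharZero K] (f : MvPolynomial ℤ K) (N0 : ℕ)
    (h : ∀ N ≥ N0, phi K N f = 0) : f = 0 := by
  ext m
  have := coeff_mem (⊥ : AddSubgroup K) (by
    intro q a ha
    rw [AddSubgroup.mem_bot] at ha ⊢
    rw [ha, mul_zero]) f N0 (fun N hN η => by rw [h N hN]; simp) m
  rw [AddSubgroup.mem_bot] at this
  rw [this]; simp

/-- exponents of `phi K N f` -/
lemma phi_supp (N : ℕ) (f : MvPolynomial ℤ K) (η : Fin N → ℤ) (h : (phi K N f).coeff η ≠ 0) :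
    ∃ m ∈ f.support, cnt (ml m) η ≠ 0 ∧ ∑ i, (η i).natAbs ≤ dg m := by
  rw [phi_coeff] at h
  obtain ⟨m, hm, hne⟩ := Finset.exists_ne_zero_of_sum_ne_zero h
  have hc : cnt (ml m) η ≠ 0 := by
    intro h0; apply hne; rw [h0]; simp
  refine ⟨m, hm, hc, ?_⟩
  have := cnt_deg (ml m) η hc
  rwa [dg_ml] at this

/-- top degree form -/
theorem coeff_mem_top [CharZero K] (A : AddSubgroup K)
    (hA : ∀ (q : ℚ), ∀ a ∈ A, (q : K) * a ∈ A) (f : MvPolynomial ℤ K) (n N0 : ℕ)
    (hf : ∀ m ∈ f.support, dg m ≤ n)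
    (h : ∀ N ≥ N0, ∀ η : Fin N → ℤ, ∑ i, (η i).natAbs = n → (phi K N f).coeff η ∈ A) :
    ∀ m : ℤ →₀ ℕ, dg m = n → f.coeff m ∈ A := by
  intro m hm
  refine coeff_mem_graded A hA f n N0 (fun N hN η hη => ?_) m hm.ge
  by_cases h0 : (phi K N f).coeff η = 0
  · rw [h0]; exact A.zero_mem
  · obtain ⟨m', hm', _, hle⟩ := phi_supp N f η h0
    exact h N hN η (le_antisymm (hle.trans (hf m' hm')) hη)

/-- converse: `A`-integral `f` has `A`-integral specialisations -/
theorem phi_coeff_mem (A : AddSubgroup K) (f : MvPolynomial ℤ K) (h : ∀ m, f.coeff m ∈ A)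
    (N : ℕ) (η : Fin N → ℤ) : (phi K N f).coeff η ∈ A := by
  rw [phi_coeff]
  apply AddSubgroup.sum_mem
  intro m _
  rw [mul_comm, ← nsmul_eq_mul]
  exact A.nsmul_mem (h m) _

end JLQ
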