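import Pool.Agent.JLQ.Defs97

/-! Propagation of integrality through the eigenvalue equation. -/

namespace JLQ

open Finset H83JL

variable {K : Type*} [Field K]

/-- structure of the operator `II k N 2` on the monomials in the power sums -/
def Str (k : K) (dg cf : (ℤ →₀ ℕ) → ℕ) (O : AddSubgroup K) : Prop :=
  ∀ m' : ℤ →₀ ℕ, ∃ r : MvPolynomial ℤ K,
    (∀ N, II k N 2 (phi K N (MvPolynomial.monomial m' 1)) =
      phi K N (r - MvPolynomial.monomial (m' + Finsupp.single 0 1) (k * cf m'))) ∧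
    (∀ m c, c ∈ O → r.coeff m * c ∈ O) ∧
    (∀ m, r.coeff m ≠ 0 → (m 0 = m' 0 ∧ dg m = dg m') ∨ dg m < dg m')

lemma Str.bot {k : K} {dg cf : (ℤ →₀ ℕ) → ℕ} {O : AddSubgroup K} (h : Str k dg cf O) :
    Str k dg cf ⊥ := by
  intro m
  obtain ⟨r, h1, -, h3⟩ := h m
  refine ⟨r, h1, ?_, h3⟩
  intro m' c hc
  rw [AddSubgroup.mem_bot] at hc ⊢
  rw [hc, mul_zero]

lemma phi_smul (N : ℕ) (a : K) (f : MvPolynomial ℤ K) : phi K N (a • f) = a • phi K N f :=
  map_smul _ _ _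

/-- the identity between coefficients -/
lemma step_eq {k : K} {cf : (ℤ →₀ ℕ) → ℕ}
    (hinj : ∀ f : MvPolynomial ℤ K, (∃ N0, ∀ N ≥ N0, phi K N f = 0) → f = 0)
    (r : (ℤ →₀ ℕ) → MvPolynomial ℤ K)
    (hr : ∀ m N, II k N 2 (phi K N (MvPolynomial.monomial m 1)) =
      phi K N (r m - MvPolynomial.monomial (m + Finsupp.single 0 1) (k * cf m)))
    (n : ℕ) (e0 : K) (J : MvPolynomial ℤ K)
    (hJ : ∃ N0, ∀ N ≥ N0, II k N 2 (phi K N J) = (e0 - k * n * N) • phi K N J)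
    (m : ℤ →₀ ℕ) :
    k * ((n : K) - cf m) * J.coeff m = e0 * J.coeff (m + Finsupp.single 0 1) -
      ∑ m' ∈ J.support, J.coeff m' * (r m').coeff (m + Finsupp.single 0 1) := by
  classical
  set G : MvPolynomial ℤ K := ∑ m' ∈ J.support, J.coeff m' •
    (r m' - MvPolynomial.monomial (m' + Finsupp.single 0 1) (k * cf m')) with hG
  have hG1 : ∀ N, phi K N G = II k N 2 (phi K N J) := by
    intro N
    have e : phi K N J = ∑ m' ∈ J.support, J.coeff m' •
        phi K N (MvPolynomial.monomial m' 1) := by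
      conv_lhs => rw [J.as_sum]
      rw [map_sum]
      refine Finset.sum_congr rfl fun m' _ => ?_
      rw [← phi_smul, MvPolynomial.smul_monomial, smul_eq_mul, mul_one]
    rw [e, hG, map_sum, map_sum]
    refine Finset.sum_congr rfl fun m' _ => ?_
    rw [phi_smul, map_smul, hr]
  have hG2 : G = (MvPolynomial.C e0 - MvPolynomial.C (k * n) * MvPolynomial.X 0) * J := by
    rw [← sub_eq_zero]
    apply hinj
    obtain ⟨N0, hN0⟩ := hJ
    refine ⟨N0, fun N hN => ?_⟩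
    rw [map_sub, hG1, hN0 N hN, map_mul, map_sub, map_mul, phi_X, psum_zero]
    have hC : ∀ c : K, phi K N (MvPolynomial.C c) = algebraMap K (Lau K N) c := by
      intro c; rw [H83JL.phi, MvPolynomial.aeval_C]
    rw [hC, hC, Algebra.smul_def, ← map_natCast (algebraMap K (Lau K N)) N, ← map_mul,
      ← map_sub, sub_self]
  have h3 : MvPolynomial.coeff (m + Finsupp.single 0 1) G =
      MvPolynomial.coeff (m + Finsupp.single 0 1)
      ((MvPolynomial.C e0 - MvPolynomial.C (k * n) * MvPolynomial.X 0) * J) := by rw [hG2]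
  rw [sub_mul, MvPolynomial.coeff_sub, MvPolynomial.coeff_C_mul, mul_assoc,
    MvPolynomial.coeff_C_mul, mul_comm (MvPolynomial.X 0) J, MvPolynomial.coeff_mul_X, hG,
    MvPolynomial.coeff_sum] at h3
  have h4 : ∀ m' : ℤ →₀ ℕ, MvPolynomial.coeff (m + Finsupp.single 0 1) (J.coeff m' •
      (r m' - MvPolynomial.monomial (m' + Finsupp.single 0 1) (k * cf m'))) =
      (if m' = m then -(J.coeff m * (k * cf m)) else 0) +
      J.coeff m' * (r m').coeff (m + Finsupp.single 0 1) := by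
    intro m'
    rw [MvPolynomial.coeff_smul, MvPolynomial.coeff_sub, MvPolynomial.coeff_monomial, smul_eq_mul]
    by_cases h : m' = m
    · subst h
      simp only [if_true]
      ring
    · have : ¬ (m' + Finsupp.single 0 1 = m + Finsupp.single 0 1) := fun h' =>
        h (add_right_cancel h')
      rw [if_neg this, if_neg h]
      ring
  rw [Finset.sum_congr rfl (fun m' _ => h4 m'), Finset.sum_add_distrib,
    Finset.sum_ite_eq'] at h3
  by_cases hm : m ∈ J.support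
  · rw [if_pos hm] at h3
    linear_combination h3
  · rw [if_neg hm] at h3
    have hm0 : J.coeff m = 0 := MvPolynomial.notMem_support_iff.1 hm
    rw [hm0] at h3 ⊢
    linear_combination h3

/-- the step of the propagation -/
lemma step [CharZero K] {k : K} (hk : k ≠ 0) {dg cf : (ℤ →₀ ℕ) → ℕ}
    (hdg : ∀ m, dg (m + Finsupp.single 0 1) = dg m)
    (O : AddSubgroup K) (hOk : ∀ c ∈ O, k⁻¹ * c ∈ O) (hOq : ∀ (q : ℚ), ∀ c ∈ O, (q : K) * c ∈ O)
    (hS : Str k dg cf O)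
    (hinj : ∀ f : MvPolynomial ℤ K, (∃ N0, ∀ N ≥ N0, phi K N f = 0) → f = 0)
    (n : ℕ) (e0 : K) (he0 : ∀ c ∈ O, e0 * c ∈ O) (J : MvPolynomial ℤ K)
    (hJ : ∃ N0, ∀ N ≥ N0, II k N 2 (phi K N J) = (e0 - k * n * N) • phi K N J)
    (m : ℤ →₀ ℕ) (hn : J.coeff m ≠ 0 → cf m ≠ n)
    (hup : ∀ m', (dg m < dg m' ∨ dg m = dg m' ∧ m 0 < m' 0) → J.coeff m' ∈ O) :
    J.coeff m ∈ O := by
  by_cases hm0 : J.coeff m = 0
  · rw [hm0]; exact O.zero_mem
  replace hn := hn hm0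
  choose r h1 h2 h3 using hS
  have key := step_eq hinj r h1 n e0 J hJ m
  have hR : e0 * J.coeff (m + Finsupp.single 0 1) -
      ∑ m' ∈ J.support, J.coeff m' * (r m').coeff (m + Finsupp.single 0 1) ∈ O := by
    refine O.sub_mem (he0 _ (hup _ (Or.inr ⟨(hdg m).symm, by simp⟩))) (O.sum_mem fun m' _ => ?_)
    by_cases h0 : (r m').coeff (m + Finsupp.single 0 1) = 0
    · rw [h0, mul_zero]; exact O.zero_mem
    · rw [mul_comm]
      apply h2
      apply hup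
      rcases h3 m' _ h0 with ⟨a, b⟩ | a
      · refine Or.inr ⟨by rw [← b, hdg], ?_⟩
        rw [← a]; simp
      · rw [hdg] at a
        exact Or.inl a
  rw [← key] at hR
  have hne : ((n : K) - cf m) ≠ 0 := by
    rw [sub_ne_zero]
    exact_mod_cast hn.symm
  have h6 := hOq ((n : ℚ) - cf m)⁻¹ _ (hOk _ hR)
  have : (((n : ℚ) - cf m)⁻¹ : ℚ) * (k⁻¹ * (k * ((n : K) - cf m) * J.coeff m)) = J.coeff m := by
    push_cast
    field_simp
  rwa [this] at h6

/-- a maximal element with respect to `(dg m, m 0)` -/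
lemma exists_top (dg : (ℤ →₀ ℕ) → ℕ) (S : Finset (ℤ →₀ ℕ)) (hS : S.Nonempty) :
    ∃ m ∈ S, ∀ m' ∈ S, ¬ (dg m < dg m' ∨ dg m = dg m' ∧ m 0 < m' 0) := by
  obtain ⟨m, hm, h⟩ := S.exists_max_image
    (fun m => (toLex (dg m, m 0) : ℕ ×ₗ ℕ)) hS
  refine ⟨m, hm, fun m' hm' hcon => ?_⟩
  have h2 := h m' hm'
  rw [Prod.Lex.toLex_le_toLex] at h2
  simp only at h2
  omega

/-- all monomials of `J` have degree at most `n` (form with `dg = cf`) -/
theorem deg_le [CharZero K] {k : K} (hk : k ≠ 0) {dg : (ℤ →₀ ℕ) → ℕ}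
    (hdg : ∀ m, dg (m + Finsupp.single 0 1) = dg m) {O : AddSubgroup K}
    (hS : Str k dg dg O)
    (hinj : ∀ f : MvPolynomial ℤ K, (∃ N0, ∀ N ≥ N0, phi K N f = 0) → f = 0)
    (n : ℕ) (e0 : K) (J : MvPolynomial ℤ K)
    (hJ : ∃ N0, ∀ N ≥ N0, II k N 2 (phi K N J) = (e0 - k * n * N) • phi K N J)
    (m : ℤ →₀ ℕ) (hm : J.coeff m ≠ 0) : dg m ≤ n := by
  classical
  by_contra hcon
  set S := J.support.filter (fun m => n < dg m) with hSdef
  have hne : S.Nonempty := ⟨m, by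
    rw [hSdef, Finset.mem_filter, MvPolynomial.mem_support_iff]
    exact ⟨hm, by omega⟩⟩
  obtain ⟨m₁, hm₁, hmax⟩ := exists_top dg S hne
  rw [hSdef, Finset.mem_filter, MvPolynomial.mem_support_iff] at hm₁
  apply hm₁.1
  have := step hk hdg ⊥ (by simp) (by simp) hS.bot hinj n e0 (by simp) J hJ m₁
    (fun _ => by omega) (by
    intro m' hm'
    rw [AddSubgroup.mem_bot]
    by_contra h0
    refine hmax m' ?_ hm'
    rw [hSdef, Finset.mem_filter, MvPolynomial.mem_support_iff]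
    exact ⟨h0, by omega⟩)
  rwa [AddSubgroup.mem_bot] at this

/-- integrality of the coefficients with `cf m = n` propagates to all coefficients -/
theorem propagate [CharZero K] {k : K} (hk : k ≠ 0) {dg cf : (ℤ →₀ ℕ) → ℕ}
    (hdg : ∀ m, dg (m + Finsupp.single 0 1) = dg m)
    (O : AddSubgroup K) (hOk : ∀ c ∈ O, k⁻¹ * c ∈ O) (hOq : ∀ (q : ℚ), ∀ c ∈ O, (q : K) * c ∈ O)
    (hS : Str k dg cf O)
    (hinj : ∀ f : MvPolynomial ℤ K, (∃ N0, ∀ N ≥ N0, phi K N f = 0) → f = 0)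
    (n : ℕ) (e0 : K) (he0 : ∀ c ∈ O, e0 * c ∈ O) (J : MvPolynomial ℤ K)
    (hJ : ∃ N0, ∀ N ≥ N0, II k N 2 (phi K N J) = (e0 - k * n * N) • phi K N J)
    (htop : ∀ m, cf m = n → J.coeff m ∈ O) (m : ℤ →₀ ℕ) : J.coeff m ∈ O := by
  classical
  by_contra hcon
  set S := J.support.filter (fun m => J.coeff m ∉ O) with hSdef
  have hne : S.Nonempty := ⟨m, by
    rw [hSdef, Finset.mem_filter, MvPolynomial.mem_support_iff]
    exact ⟨fun h0 => hcon (by rw [h0]; exact O.zero_mem), hcon⟩⟩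
  obtain ⟨m₁, hm₁, hmax⟩ := exists_top dg S hne
  rw [hSdef, Finset.mem_filter, MvPolynomial.mem_support_iff] at hm₁
  by_cases hn : cf m₁ = n
  · exact hm₁.2 (htop _ hn)
  apply hm₁.2
  refine step hk hdg O hOk hOq hS hinj n e0 he0 J hJ m₁ (fun _ => hn) ?_
  intro m' hm'
  by_contra h0
  refine hmax m' ?_ hm'
  rw [hSdef, Finset.mem_filter, MvPolynomial.mem_support_iff]
  exact ⟨fun h => h0 (by rw [h]; exact O.zero_mem), h0⟩

/-! ### the degrees of Defs97 -/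

lemma pdeg_add (m m' : ℤ →₀ ℕ) : pdeg (m + m') = pdeg m + pdeg m' := by
  classical
  unfold pdeg
  rw [Finsupp.sum_add_index'] <;> intros <;> ring

lemma adeg_add (m m' : ℤ →₀ ℕ) : adeg (m + m') = adeg m + adeg m' := by
  classical
  unfold adeg
  rw [Finsupp.sum_add_index'] <;> intros <;> ring

lemma pdeg_single (a : ℤ) (e : ℕ) : pdeg (Finsupp.single a e) = e * a.toNat := by
  unfold pdeg
  rw [Finsupp.sum_single_index]; simp

lemma adeg_single (a : ℤ) (e : ℕ) : adeg (Finsupp.single a e) = e * a.natAbs := by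
  unfold adeg
  rw [Finsupp.sum_single_index]; simp

lemma pdeg_X0 (m : ℤ →₀ ℕ) : pdeg (m + Finsupp.single 0 1) = pdeg m := by
  rw [pdeg_add, pdeg_single]; simp

lemma adeg_X0 (m : ℤ →₀ ℕ) : adeg (m + Finsupp.single 0 1) = adeg m := by
  rw [adeg_add, adeg_single]; simp

/-- `adeg = 2 pdeg - wt` -/
lemma adeg_eq (m : ℤ →₀ ℕ) : (adeg m : ℤ) = 2 * pdeg m - wt m := by
  unfold adeg pdeg wt Finsupp.sum
  push_cast
  rw [Finset.mul_sum, ← Finset.sum_sub_distrib]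
  refine Finset.sum_congr rfl fun a _ => ?_
  rcases le_total 0 a with h | h
  · rw [abs_of_nonneg h, Int.toNat_of_nonneg h]; ring
  · rw [abs_of_nonpos h, Int.toNat_of_nonpos h]; push_cast; ring

/-- **S3**, form of the stubs (S1 and S2a as hypotheses) -/
theorem S3 [CharZero K] (A : Subring K) {k : K} (hki : k⁻¹ ∈ A) (hk0 : k ≠ 0)
    (hQ : ∀ q : ℚ, (q : K) ∈ A)
    (S1 : ∀ m' : ℤ →₀ ℕ, ∃ r : MvPolynomial ℤ K,
      (∀ N, II k N 2 (phi K N (MvPolynomial.monomial m' 1)) =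
        phi K N (r - MvPolynomial.monomial (m' + Finsupp.single 0 1) (k * adeg m'))) ∧
      IntM A r ∧ (∀ m, r.coeff m ≠ 0 → (m 0 = m' 0 ∧ pdeg m = pdeg m') ∨ pdeg m < pdeg m'))
    (S2a : ∀ f : MvPolynomial ℤ K, (∃ N0, ∀ N ≥ N0, phi K N f = 0) → f = 0)
    {J : MvPolynomial ℤ K} {N0 n n' : ℕ} {E0 : K} (hE0 : E0 ∈ A)
    (hE : ∀ N ≥ N0, II k N 2 (phi K N J) =
      (E0 - k * (n + n' : ℕ) * (N : K)) • phi K N J)
    (hw : ∀ m, J.coeff m ≠ 0 → wt m = (n : ℤ) - n')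
    (htop : ∀ m, pdeg m = n → J.coeff m ∈ A) : IntM A J := by
  intro m
  have hS : Str k pdeg adeg A.toAddSubgroup := by
    intro m'
    obtain ⟨r, h1, h2, h3⟩ := S1 m'
    exact ⟨r, h1, fun m c hc => A.mul_mem (h2 m) hc, h3⟩
  refine propagate hk0 pdeg_X0 A.toAddSubgroup (fun c hc => A.mul_mem hki hc)
    (fun q c hc => A.mul_mem (hQ q) hc) hS S2a (n + n') E0 (fun c hc => A.mul_mem hE0 hc) J
    ⟨N0, hE⟩ ?_ m
  intro m₁ h
  by_cases h0 : J.coeff m₁ = 0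
  · rw [h0]; exact A.zero_mem
  · apply htop
    have h1 := adeg_eq m₁
    rw [hw m₁ h0, h] at h1
    push_cast at h1
    omega

/-- **S3**, form with the absolute degree (no homogeneity needed) -/
theorem S3abs [CharZero K] (A : Subring K) {k : K} (hki : k⁻¹ ∈ A) (hk0 : k ≠ 0)
    (hQ : ∀ q : ℚ, (q : K) ∈ A)
    (S1 : ∀ m' : ℤ →₀ ℕ, ∃ r : MvPolynomial ℤ K,
      (∀ N, II k N 2 (phi K N (MvPolynomial.monomial m' 1)) =
        phi K N (r - MvPolynomial.monomial (m' + Finsupp.single 0 1) (k * adeg m'))) ∧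
      IntM A r ∧ (∀ m, r.coeff m ≠ 0 → (m 0 = m' 0 ∧ adeg m = adeg m') ∨ adeg m < adeg m'))
    (S2a : ∀ f : MvPolynomial ℤ K, (∃ N0, ∀ N ≥ N0, phi K N f = 0) → f = 0)
    {J : MvPolynomial ℤ K} {N0 n : ℕ} {E0 : K} (hE0 : E0 ∈ A)
    (hE : ∀ N ≥ N0, II k N 2 (phi K N J) = (E0 - k * n * (N : K)) • phi K N J) :
    (∀ m, J.coeff m ≠ 0 → adeg m ≤ n) ∧
      ((∀ m, adeg m = n → J.coeff m ∈ A) → IntM A J) := by
  have hS : Str k adeg adeg A.toAddSubgroup := by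
    intro m'
    obtain ⟨r, h1, h2, h3⟩ := S1 m'
    exact ⟨r, h1, fun m c hc => A.mul_mem (h2 m) hc, h3⟩
  refine ⟨fun m hm => deg_le hk0 adeg_X0 hS S2a n E0 J ⟨N0, hE⟩ m hm, fun htop m => ?_⟩
  exact propagate hk0 adeg_X0 A.toAddSubgroup (fun c hc => A.mul_mem hki hc)
    (fun q c hc => A.mul_mem (hQ q) hc) hS S2a n E0 (fun c hc => A.mul_mem hE0 hc) J
    ⟨N0, hE⟩ htop m

end JLQ
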