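import Pool.Agent.JLQ.Defs97

/-! The inversion `x_i ↦ 1/x_i`. -/

namespace JLQ

open Finset AddMonoidAlgebra H83JL

variable {K : Type*} [Field K] {N : ℕ}

/-- negation of exponents -/
def negH (N : ℕ) : (Fin N → ℤ) →+ (Fin N → ℤ) where
  toFun η := -η
  map_zero' := neg_zero
  map_add' a b := neg_add a b

/-- the inversion `x_i ↦ 1/x_i` -/
noncomputable def inv9 (K : Type*) [Field K] (N : ℕ) : Lau K N →ₐ[K] Lau K N :=
  mapDomainAlgHom K K (negH N)

@[simp] lemma inv9_single (η : Fin N → ℤ) (c : K) :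
    inv9 K N (single η c) = single (-η) c := by
  simp [inv9, negH]

lemma inv9_coeff (f : Lau K N) (η : Fin N → ℤ) :
    (inv9 K N f).coeff η = f.coeff (-η) := by
  induction f using AddMonoidAlgebra.induction_linear with
  | zero => simp
  | add f g hf hg => simp [hf, hg]
  | single ζ c =>
    classical
    rw [inv9_single]
    simp only [coeff_single, Finsupp.single_apply]
    have : (-ζ = η) ↔ (ζ = -η) := neg_eq_iff_eq_neg
    simp only [this]

lemma inv9_xp (i : Fin N) (a : ℤ) : inv9 K N (xp K i a) = xp K i (-a) := by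
  rw [xp, inv9_single, xp, ← Pi.single_neg]

lemma inv9_psum (N : ℕ) (a : ℤ) : inv9 K N (psum K N a) = psum K N (-a) := by
  rw [psum, map_sum, psum]
  simp only [inv9_xp]

lemma inv9_inv9 (f : Lau K N) : inv9 K N (inv9 K N f) = f := by
  apply AddMonoidAlgebra.ext
  ext η
  rw [inv9_coeff, inv9_coeff, neg_neg]

lemma euler_inv9 (i : Fin N) (f : Lau K N) :
    euler i (inv9 K N f) = - inv9 K N (euler i f) := by
  apply AddMonoidAlgebra.ext
  ext η
  rw [euler_coeff, inv9_coeff, coeff_neg, Finsupp.neg_apply, inv9_coeff, euler_coeff]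
  simp

lemma perm_inv9 (σ : Equiv.Perm (Fin N)) (f : Lau K N) :
    perm σ (inv9 K N f) = inv9 K N (perm σ f) := by
  apply AddMonoidAlgebra.ext
  ext η
  rw [perm_coeff, inv9_coeff, inv9_coeff, perm_coeff]
  rfl

lemma Sym_inv9 {f : Lau K N} (hf : Sym f) : Sym (inv9 K N f) := by
  intro σ
  rw [perm_inv9, hf]

lemma phi_rename (N : ℕ) (P : MvPolynomial ℤ K) :
    phi K N (MvPolynomial.rename (fun a : ℤ => -a) P) = inv9 K N (phi K N P) := by
  have : (phi K N).comp (MvPolynomial.rename (fun a : ℤ => -a)) = (inv9 K N).comp (phi K N) := by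
    apply MvPolynomial.algHom_ext
    intro a
    rw [AlgHom.comp_apply, AlgHom.comp_apply, MvPolynomial.rename_X, phi_X, phi_X, inv9_psum]
  exact DFunLike.congr_fun this P

lemma CMSrel_inv9 {k E : K} {f : Lau K N} (h : CMSrel k E f) : CMSrel k E (inv9 K N f) := by
  obtain ⟨h, h1, h2⟩ := h
  refine ⟨fun i j => inv9 K N (h i j), ?_, ?_⟩
  · intro i j
    have e := congrArg (inv9 K N) (h1 i j)
    rw [map_mul, map_mul, map_sub, map_add, map_sub, inv9_xp, inv9_xp] at e
    rw [euler_inv9, euler_inv9]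
    have a1 : xp K i 1 * xp K i (-1) = 1 := by rw [xp_mul, add_neg_cancel, xp_zero]
    have a2 : xp K j 1 * xp K j (-1) = 1 := by rw [xp_mul, add_neg_cancel, xp_zero]
    linear_combination (-(xp K i 1 * xp K j 1)) * e +
      (xp K j 1 * inv9 K N (h i j) -
        xp K j 1 * (inv9 K N (euler i f) - inv9 K N (euler j f))) * a1 +
      (- xp K i 1 * inv9 K N (h i j) -
        xp K i 1 * (inv9 K N (euler i f) - inv9 K N (euler j f))) * a2
  · have e := congrArg (inv9 K N) h2
    rw [map_sub, map_smul, map_smul, map_sum, map_sum] at e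
    simp only [map_sum] at e
    rw [← e]
    congr 1
    refine Finset.sum_congr rfl fun i _ => ?_
    rw [euler_inv9, map_neg, euler_inv9, neg_neg]

/-- the reversed negated weight -/
def nrev (χ : Fin N → ℤ) : Fin N → ℤ := fun i => - χ (Fin.rev i)

lemma sum_nrev (χ : Fin N → ℤ) : ∑ i, nrev χ i = - ∑ i, χ i := by
  unfold nrev
  rw [Finset.sum_neg_distrib]
  congr 1
  exact Equiv.sum_comp Fin.revPerm χ

lemma csum_nrev (χ : Fin N → ℤ) {m : ℕ} (hm : m ≤ N) :
    csum (nrev χ) m = csum χ (N - m) - ∑ i, χ i := by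
  unfold csum nrev
  rw [Finset.sum_neg_distrib]
  have h1 : ∑ i ∈ univ.filter (fun i : Fin N => i.val < m), χ (Fin.rev i) =
      ∑ i ∈ univ.filter (fun i : Fin N => ¬ i.val < N - m), χ i := by
    refine Finset.sum_bij (fun i _ => Fin.rev i) ?_ ?_ ?_ ?_
    · intro i hi
      simp only [mem_filter, mem_univ, true_and, Fin.val_rev] at hi ⊢
      have := i.isLt
      omega
    · intro a _ b _ h
      exact Fin.rev_injective h
    · intro b hb
      refine ⟨Fin.rev b, ?_, by simp⟩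
      simp only [mem_filter, mem_univ, true_and, Fin.val_rev] at hb ⊢
      have := b.isLt
      omega
    · intro i _
      rfl
  have h2 := Finset.sum_filter_add_sum_filter_not univ (fun i : Fin N => i.val < N - m) χ
  rw [h1]
  linarith

lemma W_nrev {χ η : Fin N → ℤ} (h : η ∈ W χ) : -η ∈ W (nrev χ) := by
  obtain ⟨h1, h2⟩ := h
  refine ⟨?_, fun S => ?_⟩
  · rw [sum_nrev, ← h1]
    simp
  · have hc : S.card ≤ N := by
      have := Finset.card_le_univ S
      simpa using this
    rw [csum_nrev χ hc, ← h1]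
    have h3 := h2 Sᶜ
    rw [Finset.card_compl, Fintype.card_fin] at h3
    have h4 := Finset.sum_add_sum_compl S η
    have h5 : ∑ i ∈ S, (-η) i = - ∑ i ∈ S, η i := by simp
    rw [h5]
    linarith

lemma cc_nrev (χ : Fin N → ℤ) : cc (nrev χ) = cc χ := by
  have e : ∀ χ : Fin N → ℤ, cc χ = ∑ b, ∑ c, if χ c < χ b then (χ b - χ c) else 0 := by
    intro χ
    unfold cc
    exact Finset.sum_congr rfl fun b _ => Finset.sum_filter _ _
  rw [e, e]
  have h1 : ∀ b : Fin N, (∑ c, if nrev χ c < nrev χ b then (nrev χ b - nrev χ c) else 0) =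
      ∑ c, if χ (Fin.rev b) < χ c then (χ c - χ (Fin.rev b)) else 0 := by
    intro b
    rw [← Equiv.sum_comp Fin.revPerm
      (fun c => if χ (Fin.rev b) < χ c then (χ c - χ (Fin.rev b)) else 0)]
    refine Finset.sum_congr rfl fun c _ => ?_
    simp only [nrev, Fin.revPerm_apply, neg_lt_neg_iff]
    split_ifs
    · ring
    · rfl
  simp only [h1]
  have h2 := Equiv.sum_comp Fin.revPerm
    (fun b => ∑ c, if χ b < χ c then (χ c - χ b) else 0)
  simp only [Fin.revPerm_apply] at h2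
  rw [h2, Finset.sum_comm]

lemma ev_nrev (k : K) (χ : Fin N → ℤ) : ev k (nrev χ) 2 = ev k χ 2 := by
  rw [ev_two, ev_two, cc_nrev]
  congr 2
  unfold nrev
  simp only [neg_sq]
  exact Equiv.sum_comp Fin.revPerm (fun i => χ i ^ 2)

lemma VV_inv9 {χ : Fin N → ℤ} {f : Lau K N} (hf : f ∈ VV K χ) : inv9 K N f ∈ VV K (nrev χ) := by
  refine ⟨?_, Sym_inv9 hf.2⟩
  rw [AddMonoidAlgebra.mem_supported']
  intro η hη
  rw [inv9_coeff]
  by_contra hcon
  apply hη
  have h1 : -η ∈ W χ := by
    by_contra h2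
    exact hcon (AddMonoidAlgebra.mem_supported'.1 hf.1 _ h2)
  have := W_nrev h1
  rwa [neg_neg] at this

lemma Eig_inv9 {k : K} {χ : Fin N → ℤ} {f : Lau K N} (hf : f ∈ Eig k χ) :
    inv9 K N f ∈ Eig k (nrev χ) := by
  refine ⟨VV_inv9 hf.1, ?_⟩
  rw [ev_nrev, ← CMSrel_iff k _ (Sym_inv9 hf.1.2)]
  exact CMSrel_inv9 ((CMSrel_iff k _ hf.1.2).2 hf.2)

lemma nrev_chi (N : ℕ) (lam mu : ℕ → ℕ) : nrev (chi N lam mu) = chi N mu lam := by
  funext i
  have h1 : N - 1 - (N - 1 - i.val) = i.val := by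
    have := i.isLt
    omega
  have h2 : N - (i.val + 1) = N - 1 - i.val := by omega
  simp only [nrev, chi, Fin.val_rev, h2, h1]
  ring

lemma coeff_inv9_nrev {χ : Fin N → ℤ} {f : Lau K N} (hf : Sym f) :
    (inv9 K N f).coeff (nrev χ) = f.coeff χ := by
  rw [inv9_coeff]
  have h := congrArg (fun g : Lau K N => g.coeff χ) (hf Fin.revPerm)
  simp only [perm_coeff] at h
  rw [← h]
  congr 1
  funext i
  simp [nrev]

/-- general form -/
theorem S9gen {k : K} {lam mu : ℕ → ℕ} {s : Polynomial K} {P : MvPolynomial ℤ K}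
    (hP : Rep k lam mu s P) : Rep k mu lam s (MvPolynomial.rename (fun a : ℤ => -a) P) := by
  obtain ⟨N0, h⟩ := hP
  refine ⟨N0, fun N hN => ?_⟩
  obtain ⟨h1, h2⟩ := h N hN
  rw [phi_rename, ← nrev_chi]
  exact ⟨Eig_inv9 h1, by rw [coeff_inv9_nrev h1.1.2, h2]⟩

theorem S9 [CharZero K] {k : K} {mu : ℕ → ℕ} {P : MvPolynomial ℤ K}
    (hP : Rep k mu 0 1 P) : Rep k 0 mu 1 (MvPolynomial.rename (fun a : ℤ => -a) P) :=
  S9gen hP

lemma IntM_rename {A : Subring K} {P : MvPolynomial ℤ K} (hP : IntM A P) :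
    IntM A (MvPolynomial.rename (fun a : ℤ => -a) P) := by
  intro m
  have hinj : Function.Injective (fun a : ℤ => -a) := neg_injective
  by_cases hm : ∃ u : ℤ →₀ ℕ, u.mapDomain (fun a : ℤ => -a) = m
  · obtain ⟨u, rfl⟩ := hm
    rw [MvPolynomial.coeff_rename_mapDomain _ hinj]
    exact hP u
  · rw [MvPolynomial.coeff_rename_eq_zero]
    · exact zero_mem _
    · intro u hu
      exact absurd ⟨u, hu⟩ hm

end JLQ
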