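import Pool.Agent.JLQ.S5
import Pool.Agent.JLQ.S2
import Pool.Agent.JLQ.S3
import Pool.Agent.JLQ.S9
import Pool.Agent.JLQ.Ev

/-! Integrality of `A(λ) A(μ) B(λ,μ) P_{λ,μ}` over a ring containing `1/k`. -/

namespace JLQ

open Finset AddMonoidAlgebra H83JL Polynomial

variable {K : Type*} [Field K]

lemma chi_split10 {N : ℕ} (lam mu : ℕ → ℕ) : chi N lam mu = chi N lam 0 + chi N 0 mu := by
  ext i
  simp only [chi, Pi.add_apply, Pi.zero_apply, Nat.cast_zero, sub_zero, zero_sub]
  ring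

lemma chi_pos10 {N : ℕ} (lam : ℕ → ℕ) (i : Fin N) : 0 ≤ chi N lam 0 i := by
  simp [chi]

lemma chi_neg10 {N : ℕ} (mu : ℕ → ℕ) (i : Fin N) : chi N 0 mu i ≤ 0 := by
  simp [chi]

lemma chi_disj10 {N L L' : ℕ} {lam mu : ℕ → ℕ} (h1 : ∀ i, L ≤ i → lam i = 0)
    (h2 : ∀ i, L' ≤ i → mu i = 0) (hN : L + L' ≤ N) (i : Fin N) :
    chi N lam 0 i = 0 ∨ chi N 0 mu i = 0 := by
  rcases Nat.lt_or_ge i.val L with h | h
  · right
    have h3 : mu (N - 1 - i.val) = 0 := h2 _ (by omega)
    simp [chi, h3]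
  · left
    have h3 : lam i.val = 0 := h1 _ h
    simp [chi, h3]

lemma sum_pos10 {N L : ℕ} {lam : ℕ → ℕ} (h1 : ∀ i, L ≤ i → lam i = 0) (hN : L ≤ N) :
    ∑ i, chi N lam 0 i = ((∑ i ∈ range L, lam i : ℕ) : ℤ) := by
  have e : ∀ i : Fin N, chi N lam 0 i = ((lam i.val : ℕ) : ℤ) := by
    intro i; simp [chi]
  rw [Finset.sum_congr rfl (fun i _ => e i), Fin.sum_univ_eq_sum_range (fun i => ((lam i : ℕ) : ℤ)) N,
    ← Nat.cast_sum, sum_ext_range h1 hN]

lemma sum_neg10 {N L : ℕ} {mu : ℕ → ℕ} (h1 : ∀ i, L ≤ i → mu i = 0) (hN : L ≤ N) :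
    ∑ i, chi N 0 mu i = -((∑ i ∈ range L, mu i : ℕ) : ℤ) := by
  have e : ∀ i : Fin N, chi N 0 mu i = -((mu (N - 1 - i.val) : ℕ) : ℤ) := by
    intro i; simp [chi]
  rw [Finset.sum_congr rfl (fun i _ => e i), Finset.sum_neg_distrib,
    Fin.sum_univ_eq_sum_range (fun i => ((mu (N - 1 - i) : ℕ) : ℤ)) N,
    Finset.sum_range_reflect (fun i => ((mu i : ℕ) : ℤ)) N, ← Nat.cast_sum, sum_ext_range h1 hN]

lemma nrm_natAbs {N : ℕ} (η : Fin N → ℤ) : nrm η = ((∑ i, (η i).natAbs : ℕ) : ℤ) := by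
  unfold nrm
  rw [Nat.cast_sum]
  refine Finset.sum_congr rfl fun i _ => ?_
  rw [Int.natCast_natAbs]

lemma nrm_chi10 {N L L' : ℕ} {lam mu : ℕ → ℕ} (h1 : ∀ i, L ≤ i → lam i = 0)
    (h2 : ∀ i, L' ≤ i → mu i = 0) (hN : L + L' ≤ N) :
    nrm (chi N lam mu) = ((∑ i ∈ range L, lam i + ∑ i ∈ range L', mu i : ℕ) : ℤ) := by
  rw [chi_split10, nrm_split (chi_pos10 lam) (chi_neg10 mu) (chi_disj10 h1 h2 hN),
    sum_pos10 h1 (by omega), sum_neg10 h2 (by omega)]
  push_cast
  ring

/-- the subring of polynomials with coefficients in `A` -/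
def IS (A : Subring K) : Subring (MvPolynomial ℤ K) where
  carrier := {f | IntM A f}
  zero_mem' := by intro m; rw [MvPolynomial.coeff_zero]; exact A.zero_mem
  one_mem' := by
    classical
    intro m
    rw [MvPolynomial.coeff_one]
    split_ifs
    · exact A.one_mem
    · exact A.zero_mem
  add_mem' := by
    intro f g hf hg m
    rw [MvPolynomial.coeff_add]
    exact A.add_mem (hf m) (hg m)
  neg_mem' := by
    intro f hf m
    rw [MvPolynomial.coeff_neg]
    exact A.neg_mem (hf m)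
  mul_mem' := by
    classical
    intro f g hf hg m
    rw [MvPolynomial.coeff_mul]
    exact sum_mem fun x _ => A.mul_mem (hf _) (hg _)

lemma C_IS {A : Subring K} {c : K} (hc : c ∈ A) : (MvPolynomial.C c : MvPolynomial ℤ K) ∈ IS A := by
  classical
  intro m
  rw [MvPolynomial.coeff_C]
  split_ifs
  · exact hc
  · exact A.zero_mem

lemma X_IS (A : Subring K) (a : ℤ) : (MvPolynomial.X a : MvPolynomial ℤ K) ∈ IS A := by
  classical
  intro m
  rw [MvPolynomial.coeff_X]
  split_ifs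
  · exact A.one_mem
  · exact A.zero_mem

lemma BB_IS {A : Subring K} {k : K} (hk : k ∈ A) (L L' : ℕ) (lam mu : ℕ → ℕ) :
    sc K (BB k L L' lam mu) ∈ IS A := by
  rw [BB, map_prod]
  refine prod_mem fun i _ => ?_
  rw [map_prod]
  refine prod_mem fun u _ => ?_
  rw [ff, map_add, map_add, map_mul, map_sub, map_add, map_natCast, map_natCast, map_natCast,
    map_natCast]
  have h1 : sc K (C k) = MvPolynomial.C k := by
    rw [sc, Polynomial.aeval_C]; rfl
  have h2 : sc K X = MvPolynomial.X 0 := by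
    rw [sc, Polynomial.aeval_X]
  rw [h1, h2]
  refine add_mem (add_mem (natCast_mem _ _) (natCast_mem _ _)) (mul_mem (C_IS hk) (sub_mem
    (add_mem (natCast_mem _ _) (natCast_mem _ _)) (X_IS A 0)))

lemma rename_IS {A : Subring K} {P : MvPolynomial ℤ K} (hP : P ∈ IS A) :
    MvPolynomial.rename (fun a : ℤ => -a) P ∈ IS A := by
  intro m
  have h : m = Finsupp.mapDomain (fun a : ℤ => -a) (Finsupp.mapDomain (fun a : ℤ => -a) m) := by
    rw [← Finsupp.mapDomain_comp]
    have : ((fun a : ℤ => -a) ∘ fun a : ℤ => -a) = id := by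
      funext a; simp
    rw [this, Finsupp.mapDomain_id]
  rw [h, MvPolynomial.coeff_rename_mapDomain _ neg_injective]
  exact hP _

lemma phi_C_mul10 (N : ℕ) (c : K) (f : MvPolynomial ℤ K) :
    phi K N (MvPolynomial.C c * f) = c • phi K N f := by
  rw [← MvPolynomial.smul_eq_C_mul, map_smul]

theorem S10_of [CharZero K] (A : Subring K) {k : K} (hk : ∀ q : ℚ, (q : K) ≠ k) (hkA : k ∈ A)
    (hS3 : ∀ (J : MvPolynomial ℤ K) (n N0 : ℕ) (e0 : K), e0 ∈ A →
      (∀ N ≥ N0, II k N 2 (phi K N J) = (e0 - k * n * N) • phi K N J) →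
      (∀ m, n ≤ dg m → J.coeff m ∈ A) → ∀ m, J.coeff m ∈ A)
    (hev : ∀ (L L' : ℕ) (lam mu : ℕ → ℕ), Antitone lam → Antitone mu →
      (∀ i, L ≤ i → lam i = 0) → (∀ i, L' ≤ i → mu i = 0) →
      ∃ e0 ∈ A, ∀ N ≥ L + L', ev k (chi N lam mu) 2 =
        e0 - k * ((∑ i ∈ range L, lam i + ∑ i ∈ range L', mu i : ℕ) : K) * (N : K))
    (hS9 : ∀ (mu : ℕ → ℕ) (P : MvPolynomial ℤ K), Rep k mu 0 1 P →
      Rep k 0 mu 1 (MvPolynomial.rename (fun a : ℤ => -a) P))
    (L L' : ℕ) (lam mu : ℕ → ℕ) (hla : Par L lam) (hmu : Par L' mu)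
    (hP : ∃ P, Rep k lam 0 1 P ∧ IntM A (MvPolynomial.C (Afac k L lam) * P))
    (hQ : ∃ Q, Rep k mu 0 1 Q ∧ IntM A (MvPolynomial.C (Afac k L' mu) * Q)) :
    ∃ J, Rep k lam mu (BB k L L' lam mu) J ∧
      IntM A (MvPolynomial.C (Afac k L lam * Afac k L' mu) * J) := by
  classical
  obtain ⟨P, ⟨N1, hP1⟩, hP2⟩ := hP
  obtain ⟨Q, hQ1', hQ2⟩ := hQ
  obtain ⟨N2, hQ1⟩ := hS9 mu Q hQ1'
  obtain ⟨J, N0, hJ⟩ := BB_mem hk hla.anti hmu.anti hla.zero hmu.zero hla.size hmu.size
  refine ⟨J, ⟨N0, hJ⟩, ?_⟩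
  set Q' := MvPolynomial.rename (fun a : ℤ => -a) Q with hQ'
  set a := Afac k L lam with ha
  set b := Afac k L' mu with hb
  set n := ∑ i ∈ range L, lam i + ∑ i ∈ range L', mu i with hn
  obtain ⟨e0, he0, hev'⟩ := hev L L' lam mu hla.anti hmu.anti hla.zero hmu.zero
  set T := sc K (BB k L L' lam mu) * ((MvPolynomial.C a * P) * (MvPolynomial.C b * Q')) with hT
  have hTA : T ∈ IS A := by
    refine mul_mem (BB_IS hkA _ _ _ _) (mul_mem hP2 ?_)
    have : MvPolynomial.C b * Q' = MvPolynomial.rename (fun a : ℤ => -a)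
        (MvPolynomial.C b * Q) := by
      rw [map_mul, MvPolynomial.rename_C]
    rw [this]
    exact rename_IS hQ2
  -- the difference has no coefficients in degrees at least n
  have hdiff : ∀ m, n ≤ dg m → (MvPolynomial.C (a * b) * J - T).coeff m = 0 := by
    intro m hm
    have := coeff_mem_graded (⊥ : AddSubgroup K) (by
      intro q a ha
      rw [AddSubgroup.mem_bot] at ha ⊢
      rw [ha, mul_zero]) (MvPolynomial.C (a * b) * J - T) n (max (max N0 N1) (max N2 (L + L')))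
      (by
        intro N hN η hη
        rw [AddSubgroup.mem_bot]
        have a0 : N0 ≤ N := by omega
        have a1 : N1 ≤ N := by omega
        have a2 : N2 ≤ N := by omega
        have a3 : L + L' ≤ N := by omega
        obtain ⟨hJ1, hJ2⟩ := hJ N a0
        obtain ⟨hF1, hF2⟩ := hP1 N a1
        obtain ⟨hG1, hG2⟩ := hQ1 N a2
        rw [eval_one] at hF2 hG2
        have hdis := chi_disj10 (N := N) hla.zero hmu.zero a3
        have hm : Antitone (chi N lam 0) := chi_antitone hla.anti (fun _ _ _ => le_rfl)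
        have hm' : Antitone (chi N 0 mu) := chi_antitone (fun _ _ _ => le_rfl) hmu.anti
        rw [chi_split10 lam mu] at hJ1 hJ2
        have hphi : phi K N (MvPolynomial.C (a * b) * J - T) =
            (a * b) • phi K N J - ((BB k L L' lam mu).eval (N : K) * (a * b)) •
              (phi K N P * phi K N Q') := by
          rw [map_sub, phi_C_mul10, hT, phi_sc, map_mul, phi_C_mul10, phi_C_mul10,
            smul_mul_smul_comm, smul_smul]
        rw [hphi, AddMonoidAlgebra.coeff_sub, Finsupp.sub_apply, AddMonoidAlgebra.coeff_smul,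
          AddMonoidAlgebra.coeff_smul, Finsupp.smul_apply, Finsupp.smul_apply, smul_eq_mul,
          smul_eq_mul]
        have hnr : (n : ℤ) = nrm (chi N lam 0 + chi N 0 mu) := by
          rw [← chi_split10, nrm_chi10 hla.zero hmu.zero a3]
        have hle : nrm (chi N lam 0 + chi N 0 mu) ≤ nrm η := by
          rw [← hnr, nrm_natAbs]
          exact_mod_cast hη
        rcases hle.eq_or_lt with heq | hlt
        · have h1 := top_factor hk hm hm' (chi_pos10 lam) (chi_neg10 mu) hdis hJ1 hF1 hG1 η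
            heq.symm
          rw [hF2, hG2, hJ2, one_mul, one_mul] at h1
          rw [h1]
          ring
        · have h1 : (phi K N J).coeff η = 0 := by
            by_contra h
            have h2 : η ∈ W (chi N lam 0 + chi N 0 mu) := by
              by_contra h3
              exact h (mem_supported'.1 hJ1.1.1 η h3)
            exact absurd (nrm_le h2) (not_le.2 hlt)
          have h2 : (phi K N P * phi K N Q').coeff η = 0 := by
            have hFG := mul_supp (C := W (chi N lam 0 + chi N 0 mu))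
              (fun a ha b hb => W_add ha hb) hF1.1.1 hG1.1.1
            by_contra h
            have h2 : η ∈ W (chi N lam 0 + chi N 0 mu) := by
              by_contra h3
              exact h (mem_supported'.1 hFG η h3)
            exact absurd (nrm_le h2) (not_le.2 hlt)
          rw [h1, h2, mul_zero, mul_zero, sub_zero]) m hm
    rwa [AddSubgroup.mem_bot] at this
  refine hS3 _ n (max N0 (L + L')) e0 he0 ?_ ?_
  · intro N hN
    have a0 : N0 ≤ N := by omega
    have a3 : N ≥ L + L' := by omega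
    rw [phi_C_mul10, map_smul, (hJ N a0).1.2, hev' N a3, smul_comm]
  · intro m hm
    have h1 := hdiff m hm
    rw [MvPolynomial.coeff_sub, sub_eq_zero] at h1
    rw [h1]
    exact hTA m

/-- structure of the second integral in the form of S3 -/
lemma str10 (A : Subring K) {k : K} (hk : k ∈ A) : Str k dg dg A.toAddSubgroup := by
  intro m'
  obtain ⟨V, hV, hV2⟩ := struct A hk m'
  obtain ⟨t, ht, u, hu, rfl⟩ := AddSubgroup.mem_sup.1 hV
  refine ⟨t + u, fun N => ?_, fun m c hc => ?_, fun m hm => ?_⟩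
  · rw [hV2 N, map_neg]
    congr 1
    ring
  · rw [MvPolynomial.coeff_add]
    exact A.mul_mem (A.add_mem (ht m).1 (hu m).1) hc
  · by_cases h1 : t.coeff m = 0
    · right
      apply (hu m).2
      intro h2
      apply hm
      rw [MvPolynomial.coeff_add, h1, h2, add_zero]
    · left
      have := (ht m).2 h1
      exact ⟨this.2, this.1⟩

/-- **(S10)** integrality of `A(λ) A(μ) B(λ,μ) P_{λ,μ}` from the integrality of `A(λ) P_λ` and
`A(μ) P_μ` -/
theorem S10 [CharZero K] (A : Subring K) {k : K} (hk : ∀ q : ℚ, (q : K) ≠ k) (hkA : k ∈ A)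
    (hki : k⁻¹ ∈ A) (hQ : ∀ q : ℚ, (q : K) ∈ A) :
    ∀ (L L' : ℕ) (lam mu : ℕ → ℕ), Par L lam → Par L' mu →
    (∃ P, Rep k lam 0 1 P ∧ IntM A (MvPolynomial.C (Afac k L lam) * P)) →
    (∃ Q, Rep k mu 0 1 Q ∧ IntM A (MvPolynomial.C (Afac k L' mu) * Q)) →
    ∃ J, Rep k lam mu (BB k L L' lam mu) J ∧
      IntM A (MvPolynomial.C (Afac k L lam * Afac k L' mu) * J) := by
  have hk0 : k ≠ 0 := fun h => hk 0 (by rw [h]; simp)
  refine S10_of A hk hkA ?_ ?_ (fun mu P hP => S9 hP)
  · intro J n N0 e0 he0 hE htop m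
    refine propagate hk0 (dg := dg) (cf := dg) (fun m => ?_) A.toAddSubgroup
      (fun c hc => A.mul_mem hki hc) (fun q c hc => A.mul_mem (hQ q) hc) (str10 A hkA)
      (fun f hf => ?_) n e0 (fun c hc => A.mul_mem he0 hc) J ⟨N0, hE⟩
      (fun m hm => htop m hm.ge) m
    · rw [dg_add, dg_single]; simp
    · obtain ⟨N0, h⟩ := hf
      exact phi_inj f N0 h
  · intro L L' lam mu hla hmu h1 h2
    refine ⟨_, ?_, fun N hN => ev_chi k hla hmu h1 h2 hN⟩
    exact A.add_mem (natCast_mem A _) (A.mul_mem hkA (natCast_mem A _))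

end JLQ
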