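import Pool.Agent.H83JL.Uniq
import Pool.Agent.H83JL.Rows
import Pool.Agent.H83JL.Decomp

/-! S7: coefficients as polynomials in the number of variables. -/

set_option autoImplicit false

namespace JLQ

open Finset H83JL Polynomial
open AddMonoidAlgebra (supported mem_supported')

variable {K : Type*} [Field K]

theorem coeff_poly (f : MvPolynomial ℤ K) : ∀ (L0 : ℕ) (η : ℕ → ℤ), (∀ i, L0 ≤ i → η i = 0) →
    ∃ P : K[X], ∀ N, L0 ≤ N → (phi K N f).coeff (fun i : Fin N => η i) = P.eval (N : K) := by
  classical
  induction f using MvPolynomial.induction_on with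
  | C a =>
    intro L0 η hη
    have key : ∀ N, (phi K N (MvPolynomial.C a)).coeff (fun i : Fin N => η i) =
        if (0 : Fin N → ℤ) = (fun i : Fin N => η i) then a else 0 := by
      intro N
      rw [phi, MvPolynomial.aeval_C]
      show (AddMonoidAlgebra.single (0 : Fin N → ℤ) a : Lau K N).coeff _ = _
      rw [AddMonoidAlgebra.coeff_single, Finsupp.single_apply]
    by_cases h0 : ∀ i, i < L0 → η i = 0
    · refine ⟨C a, fun N hN => ?_⟩
      have : (0 : Fin N → ℤ) = (fun i : Fin N => η i) := by
        funext i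
        rcases lt_or_ge i.val L0 with h | h
        · exact (h0 _ h).symm
        · exact (hη _ h).symm
      rw [key, if_pos this, eval_C]
    · push Not at h0
      obtain ⟨i, hi, hne⟩ := h0
      refine ⟨0, fun N hN => ?_⟩
      have : ¬ (0 : Fin N → ℤ) = (fun i : Fin N => η i) :=
        fun h => hne (congrFun h ⟨i, by omega⟩).symm
      rw [key, if_neg this, eval_zero]
  | add f g hf hg =>
    intro L0 η hη
    obtain ⟨P, hP⟩ := hf L0 η hη
    obtain ⟨Q, hQ⟩ := hg L0 η hη
    refine ⟨P + Q, fun N hN => ?_⟩
    rw [map_add, AddMonoidAlgebra.coeff_add, Finsupp.add_apply, hP N hN, hQ N hN, eval_add]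
  | mul_X f a hf =>
    intro L0 η hη
    have h1 : ∀ i : ℕ, ∃ P : K[X], i < L0 → ∀ N, L0 ≤ N →
        (phi K N f).coeff (fun j : Fin N => η j - if (j : ℕ) = i then a else 0) =
          P.eval (N : K) := by
      intro i
      by_cases hi : i < L0
      · obtain ⟨P, hP⟩ := hf L0 (fun j => η j - if j = i then a else 0) (by
          intro j hj
          rw [hη j hj, if_neg (by omega), sub_zero])
        exact ⟨P, fun _ => hP⟩
      · exact ⟨0, fun h => absurd h hi⟩
    choose P hP using h1
    obtain ⟨Q, hQ⟩ := hf (L0 + 1) (fun j => η j - if j = L0 then a else 0) (by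
      intro j hj
      rw [hη j (by omega), if_neg (by omega), sub_zero])
    refine ⟨∑ i ∈ range L0, P i + (X - C (L0 : K)) * Q, fun N hN => ?_⟩
    have hterm : ∀ i : Fin N, (xp K i a * phi K N f).coeff (fun j : Fin N => η j) =
        (fun m : ℕ => if m < L0 then (P m).eval (N : K) else Q.eval (N : K)) i.val := by
      intro i
      rw [coeff_xp_mul]
      have e1 : (fun j : Fin N => η j) - Pi.single i a =
          fun j : Fin N => η j - if (j : ℕ) = i.val then a else 0 := by
        funext j
        simp only [Pi.sub_apply, Pi.single_apply, Fin.ext_iff]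
      rw [e1]
      by_cases hi : i.val < L0
      · simp only [hi, if_true]
        exact hP i.val hi N hN
      · simp only [hi, if_false]
        have hN1 : L0 + 1 ≤ N := by have := i.isLt; omega
        rw [← hQ N hN1]
        have hs := phi_sym (K := K) N f (Equiv.swap i ⟨L0, by omega⟩)
        conv_lhs => rw [← hs]
        rw [perm_coeff]
        congr 1
        funext j
        have hi0 : η i.val = 0 := hη _ (by omega)
        have hL0 : η L0 = 0 := hη _ le_rfl
        by_cases hj1 : j = i
        · subst hj1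
          rw [Equiv.swap_apply_left]
          simp only [hL0]
          by_cases hj2 : j.val = L0
          · simp [hj2, hL0]
          · simp only [hj2, if_false, hi0]
            rw [if_neg (fun h => hj2 h.symm)]
        · by_cases hj2 : j = ⟨L0, by omega⟩
          · subst hj2
            rw [Equiv.swap_apply_right]
            simp [hi0, hL0]
          · rw [Equiv.swap_apply_of_ne_of_ne hj1 hj2]
            have e2 : ¬ (j.val = i.val) := fun h => hj1 (Fin.ext h)
            have e3 : ¬ (j.val = L0) := fun h => hj2 (Fin.ext h)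
            simp [e2, e3]
    have hsum : (phi K N (f * MvPolynomial.X a)).coeff (fun j : Fin N => η j) =
        ∑ i : Fin N, (xp K i a * phi K N f).coeff (fun j : Fin N => η j) := by
      rw [map_mul, phi_X, psum, mul_comm, Finset.sum_mul, AddMonoidAlgebra.coeff_sum,
        Finset.sum_apply']
    rw [hsum, Finset.sum_congr rfl (fun i _ => hterm i),
      Fin.sum_univ_eq_sum_range (fun m : ℕ => if m < L0 then (P m).eval (N : K)
        else Q.eval (N : K)) N, ← Finset.sum_range_add_sum_Ico _ hN]
    have e1 : ∑ m ∈ range L0, (if m < L0 then (P m).eval (N : K) else Q.eval (N : K)) =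
        ∑ m ∈ range L0, (P m).eval (N : K) :=
      Finset.sum_congr rfl fun m hm => if_pos (Finset.mem_range.1 hm)
    have e2 : ∑ m ∈ Ico L0 N, (if m < L0 then (P m).eval (N : K) else Q.eval (N : K)) =
        ∑ m ∈ Ico L0 N, Q.eval (N : K) :=
      Finset.sum_congr rfl fun m hm => if_neg (by have := (Finset.mem_Ico.1 hm).1; omega)
    rw [e1, e2, Finset.sum_const, Nat.card_Ico, eval_add, eval_mul, eval_sub, eval_X, eval_C,
      eval_finsetSum, nsmul_eq_mul, Nat.cast_sub hN]

/-- polynomial identity from infinitely many values -/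
theorem poly_eq_of_large [CharZero K] {P Q : K[X]} {N0 : ℕ}
    (h : ∀ N : ℕ, N0 ≤ N → P.eval (N : K) = Q.eval (N : K)) : P = Q := by
  apply Polynomial.eq_of_infinite_eval_eq
  apply Set.Infinite.mono (s := (fun n : ℕ => (n : K)) '' Set.Ici N0)
  · rintro x ⟨n, hn, rfl⟩
    exact h n hn
  · exact (Set.Ici_infinite N0).image (fun a _ b _ hab => Nat.cast_injective hab)

theorem csum_chi {N : ℕ} (nu tau : ℕ → ℕ) (m : ℕ) (hm : m ≤ N) :
    csum (chi N nu tau) m = ∑ i ∈ range m, (nu i : ℤ) -
      (∑ j ∈ range N, (tau j : ℤ) - ∑ j ∈ range (N - m), (tau j : ℤ)) := by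
  induction m with
  | zero => simp [csum]
  | succ m ih =>
    have h1 := csum_succ (chi N nu tau) ⟨m, by omega⟩
    simp only at h1
    rw [h1, ih (by omega), Finset.sum_range_succ]
    have h2 : N - m = (N - (m + 1)) + 1 := by omega
    rw [h2, Finset.sum_range_succ]
    have h3 : N - 1 - m = N - (m + 1) := by omega
    simp only [chi, h3]
    ring

theorem sum_range_const {g : ℕ → ℤ} {L : ℕ} (hg : ∀ i, L ≤ i → g i = 0) {m : ℕ} (hm : L ≤ m) :
    ∑ i ∈ range m, g i = ∑ i ∈ range L, g i := by
  rw [← Finset.sum_range_add_sum_Ico _ hm, Finset.sum_eq_zero (s := Ico L m), add_zero]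
  intro i hi
  exact hg i (Finset.mem_Ico.1 hi).1

theorem csum_all {N : ℕ} (χ : Fin N → ℤ) : csum χ N = ∑ i, χ i := by
  unfold csum
  congr 1
  ext i
  simp

theorem W_ext {nu tau : ℕ → ℕ} {L L' : ℕ} (hνL : ∀ i, L ≤ i → nu i = 0)
    (hτL : ∀ j, L' ≤ j → tau j = 0) {N N' : ℕ} (hN : L + L' ≤ N) (hNN : N ≤ N') (η : ℕ → ℤ)
    (hη : ∀ i, N ≤ i → η i = 0) (h : (fun i : Fin N' => η i) ∈ W (chi N' nu tau)) :
    (fun i : Fin N => η i) ∈ W (chi N nu tau) := by
  classical
  have hν : ∀ m, L ≤ m → ∑ i ∈ range m, (nu i : ℤ) = ∑ i ∈ range L, (nu i : ℤ) := fun m hm =>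
    sum_range_const (fun i hi => by rw [hνL i hi]; rfl) hm
  have hτ : ∀ m, L' ≤ m → ∑ i ∈ range m, (tau i : ℤ) = ∑ i ∈ range L', (tau i : ℤ) := fun m hm =>
    sum_range_const (fun i hi => by rw [hτL i hi]; rfl) hm
  obtain ⟨h1, h2⟩ := h
  refine ⟨?_, fun S => ?_⟩
  · rw [← csum_all (chi N' nu tau), csum_chi nu tau N' le_rfl,
      Fin.sum_univ_eq_sum_range (fun i => η i) N'] at h1
    rw [← csum_all (chi N nu tau), csum_chi nu tau N le_rfl, Fin.sum_univ_eq_sum_range (fun i => η i) N]
    rw [sum_range_const hη hNN, hν N' (by omega), hτ N' (by omega)] at h1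
    rw [hν N (by omega), hτ N (by omega), h1]
    simp
  · have hS : S.card ≤ N := by simpa using S.card_le_univ
    have hmap : ∑ i ∈ S.map (Fin.castLEEmb hNN), η (i : ℕ) = ∑ i ∈ S, η (i : ℕ) := by
      rw [Finset.sum_map]
      rfl
    rcases Nat.lt_or_ge (N - L') S.card with hc | hc
    · -- large sets
      set T : Finset (Fin N') := univ.filter (fun i : Fin N' => N ≤ i.val) with hT
      have hdis : Disjoint (S.map (Fin.castLEEmb hNN)) T := by
        rw [Finset.disjoint_left]
        intro i hi hi2
        rw [Finset.mem_map] at hi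
        obtain ⟨j, -, rfl⟩ := hi
        rw [hT, Finset.mem_filter] at hi2
        have := j.isLt
        have h5 : ((Fin.castLEEmb hNN) j).val = j.val := rfl
        omega
      have hTc : T.card = N' - N := by
        have e1 : (univ.filter (fun i : Fin N' => i.val < N)).card = N := by
          rw [Fin.card_filter_val_lt]; exact min_eq_right hNN
        have e2 := Finset.card_filter_add_card_filter_not (s := (univ : Finset (Fin N')))
          (fun i : Fin N' => i.val < N)
        rw [e1, Finset.card_univ, Fintype.card_fin] at e2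
        have e3 : T = univ.filter (fun i : Fin N' => ¬ i.val < N) := by
          rw [hT]; ext i; simp
        rw [e3]; omega
      have h3 := h2 (S.map (Fin.castLEEmb hNN) ∪ T)
      rw [Finset.sum_union hdis, Finset.card_union_of_disjoint hdis, Finset.card_map, hTc, hmap,
        Finset.sum_eq_zero (s := T) (fun i hi => hη _ (Finset.mem_filter.1 hi).2), add_zero,
        csum_chi nu tau _ (by omega), hν _ (by omega), hτ N' (by omega)] at h3
      rw [csum_chi nu tau _ hS, hν _ (by omega), hτ N (by omega)]
      have e4 : N' - (S.card + (N' - N)) = N - S.card := by omega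
      rw [e4] at h3
      exact h3
    · have h3 := h2 (S.map (Fin.castLEEmb hNN))
      rw [Finset.card_map, hmap, csum_chi nu tau _ (by omega), hτ N' (by omega),
        hτ (N' - S.card) (by omega)] at h3
      rw [csum_chi nu tau _ hS, hτ N (by omega), hτ (N - S.card) (by omega)]
      exact h3

/-- the support condition for large `N` gives it for all `N ≥ L + L'` -/
theorem supp_all [CharZero K] {nu tau : ℕ → ℕ} {L L' : ℕ} (hνL : ∀ i, L ≤ i → nu i = 0)
    (hτL : ∀ j, L' ≤ j → tau j = 0) (J : MvPolynomial ℤ K) {N0 : ℕ}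
    (hJ : ∀ N, N0 ≤ N → phi K N J ∈ supported K K (W (chi N nu tau))) {N : ℕ}
    (hN : L + L' ≤ N) : phi K N J ∈ supported K K (W (chi N nu tau)) := by
  rw [mem_supported']
  intro η hη
  set η' : ℕ → ℤ := fun i => if h : i < N then η ⟨i, h⟩ else 0 with hη'
  have hz : ∀ i, N ≤ i → η' i = 0 := by
    intro i hi
    simp only [hη']
    rw [dif_neg (by omega)]
  have hr : (fun i : Fin N => η' i) = η := by
    funext i
    simp only [hη']
    rw [dif_pos i.isLt]
  obtain ⟨P, hP⟩ := coeff_poly J N η' hz
  have hP0 : P = 0 := by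
    apply poly_eq_of_large (N0 := max N N0)
    intro M hM
    rw [← hP M (le_trans (le_max_left _ _) hM), eval_zero]
    have h1 := hJ M (le_trans (le_max_right _ _) hM)
    rw [mem_supported'] at h1
    apply h1
    intro h2
    apply hη
    rw [← hr]
    exact W_ext hνL hτL hN (le_trans (le_max_left _ _) hM) η' hz h2
  have h3 := hP N le_rfl
  rw [hr, hP0, eval_zero] at h3
  exact h3

/-- the weight with its negative part moved -/
theorem chi_perm {nu tau : ℕ → ℕ} {L L' : ℕ} (hνL : ∀ i, L ≤ i → nu i = 0)
    (hτL : ∀ j, L' ≤ j → tau j = 0) {N : ℕ} (hN : L + L' ≤ N) :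
    ∃ σ : Equiv.Perm (Fin N), ∀ i, chi N nu tau i =
      (fun i : ℕ => if i < L then (nu i : ℤ) else -(tau (i - L) : ℤ)) (σ i).val := by
  classical
  set g : Fin N → Fin N := fun i => if h1 : i.val < L then i else if h2 : i.val < N - L' then
    ⟨i.val + L', by omega⟩ else ⟨L + (N - 1 - i.val), by have := i.isLt; omega⟩ with hg
  have hv : ∀ i, (g i).val = if i.val < L then i.val else if i.val < N - L' then i.val + L'
      else L + (N - 1 - i.val) := by
    intro i
    simp only [hg]
    split_ifs <;> rfl
  have hinj : Function.Injective g := by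
    intro i j hij
    have h1 := congrArg Fin.val hij
    rw [hv, hv] at h1
    have hi := i.isLt
    have hj := j.isLt
    apply Fin.ext
    split_ifs at h1 <;> omega
  refine ⟨Equiv.ofBijective g (Finite.injective_iff_bijective.1 hinj), fun i => ?_⟩
  rw [Equiv.ofBijective_apply, hv]
  have hi := i.isLt
  simp only [chi]
  by_cases h1 : i.val < L
  · rw [if_pos h1]
    simp only [h1, if_true]
    rw [hτL (N - 1 - i.val) (by omega)]
    simp
  · by_cases h2 : i.val < N - L'
    · rw [if_neg h1, if_pos h2, if_neg (by omega), hνL _ (by omega), hτL _ (by omega),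
        hτL _ (by omega)]
      simp
    · rw [if_neg h1, if_neg h2, if_neg (by omega), hνL _ (by omega)]
      have : L + (N - 1 - i.val) - L = N - 1 - i.val := by omega
      rw [this]
      simp

/-- the leading coefficient for large `N` gives it for all `N ≥ L + L'` -/
theorem lead_all [CharZero K] {nu tau : ℕ → ℕ} {L L' : ℕ} (hνL : ∀ i, L ≤ i → nu i = 0)
    (hτL : ∀ j, L' ≤ j → tau j = 0) (J : MvPolynomial ℤ K) (B : K[X]) {N0 : ℕ}
    (hJ : ∀ N, N0 ≤ N → (phi K N J).coeff (chi N nu tau) = B.eval (N : K)) {N : ℕ}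
    (hN : L + L' ≤ N) : (phi K N J).coeff (chi N nu tau) = B.eval (N : K) := by
  set η : ℕ → ℤ := fun i : ℕ => if i < L then (nu i : ℤ) else -(tau (i - L) : ℤ) with hη
  have hz : ∀ i, L + L' ≤ i → η i = 0 := by
    intro i hi
    simp only [hη]
    rw [if_neg (by omega), hτL _ (by omega)]
    simp
  obtain ⟨P, hP⟩ := coeff_poly J (L + L') η hz
  have hco : ∀ M, L + L' ≤ M → (phi K M J).coeff (chi M nu tau) = P.eval (M : K) := by
    intro M hM
    obtain ⟨σ, hσ⟩ := chi_perm hνL hτL hM
    have e : chi M nu tau = fun i => (fun j : Fin M => η j) (σ i) := by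
      funext i
      exact hσ i
    rw [← hP M hM, e]
    have h1 := perm_coeff σ (phi K M J) (fun j : Fin M => η j)
    rw [phi_sym] at h1
    exact h1.symm
  have hPB : P = B := by
    apply poly_eq_of_large (N0 := max (L + L') N0)
    intro M hM
    rw [← hco M (le_trans (le_max_left _ _) hM), hJ M (le_trans (le_max_right _ _) hM)]
  rw [hco N hN, hPB]

end JLQ
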