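import Pool.Agent.JLQ.Defs97
import Pool.Agent.JLQ.S7

/-! S7: specialisation at all `N ≥ l(λ) + l(μ)`. -/

set_option autoImplicit false

namespace JLQ

open Finset H83JL Polynomial
open AddMonoidAlgebra (supported mem_supported')

variable {K : Type*} [Field K]

private theorem S7F_const (g : ℕ → ℤ) (L : ℕ) (hg : ∀ m, L ≤ m → g m = g L) (n : ℕ)
    (hn : L ≤ n) : ∑ m ∈ range n, g m = ∑ m ∈ range L, g m + ((n : ℤ) - L) * g L := by
  rw [← Finset.sum_range_add_sum_Ico _ hn,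
    Finset.sum_congr rfl (fun m hm => hg m (Finset.mem_Ico.1 hm).1), Finset.sum_const,
    Nat.card_Ico, nsmul_eq_mul, Nat.cast_sub hn]

private theorem S7F_sq {nu tau : ℕ → ℕ} {L L' : ℕ} (hνL : ∀ i, L ≤ i → nu i = 0)
    (hτL : ∀ j, L' ≤ j → tau j = 0) {N : ℕ} (hN : L + L' ≤ N) :
    ∑ i, chi N nu tau i ^ 2 = ∑ i ∈ range L, (nu i : ℤ) ^ 2 + ∑ j ∈ range L', (tau j : ℤ) ^ 2 := by
  have h1 : ∀ i : Fin N, chi N nu tau i ^ 2 =
      (fun i : ℕ => (nu i : ℤ) ^ 2 + (tau (N - 1 - i) : ℤ) ^ 2) i.val := by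
    intro i
    simp only [chi]
    rcases Nat.lt_or_ge i.val L with h | h
    · rw [hτL (N - 1 - i.val) (by omega)]
      simp
    · rw [hνL _ h]
      simp
  rw [Finset.sum_congr rfl (fun i _ => h1 i),
    Fin.sum_univ_eq_sum_range (fun i : ℕ => (nu i : ℤ) ^ 2 + (tau (N - 1 - i) : ℤ) ^ 2) N,
    Finset.sum_add_distrib, Finset.sum_range_reflect (fun j => (tau j : ℤ) ^ 2) N,
    sum_range_const (g := fun i => (nu i : ℤ) ^ 2) (L := L)
      (fun i hi => by simp only [hνL i hi]; norm_num) (by omega),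
    sum_range_const (g := fun i => (tau i : ℤ) ^ 2) (L := L')
      (fun i hi => by simp only [hτL i hi]; norm_num) (by omega)]

private theorem S7F_cc {nu tau : ℕ → ℕ} {L L' : ℕ} (hν : Antitone nu) (hτ : Antitone tau)
    (hνL : ∀ i, L ≤ i → nu i = 0) (hτL : ∀ j, L' ≤ j → tau j = 0) :
    ∃ c0 c1 : ℤ, ∀ N : ℕ, L + L' ≤ N → cc (chi N nu tau) = c0 + c1 * N := by
  set V : ℕ → ℤ := fun m => ∑ i ∈ range m, (nu i : ℤ) with hV
  set T : ℕ → ℤ := fun m => ∑ i ∈ range m, (tau i : ℤ) with hT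
  have hVc : ∀ m, L ≤ m → V m = V L := fun m hm =>
    sum_range_const (fun i hi => by rw [hνL i hi]; rfl) hm
  have hTc : ∀ m, L' ≤ m → T m = T L' := fun m hm =>
    sum_range_const (fun i hi => by rw [hτL i hi]; rfl) hm
  refine ⟨2 * (∑ m ∈ range L, V m + (1 - (L : ℤ)) * V L - T L' + (∑ m ∈ range L', T m +
    (1 - (L' : ℤ)) * T L')) - (V L - T L'), V L + T L', fun N hN => ?_⟩
  have hcs : ∀ m, m ≤ N → csum (chi N nu tau) m = V m - (T N - T (N - m)) := fun m hm =>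
    csum_chi nu tau m hm
  have hsum : ∑ m ∈ range (N + 1), csum (chi N nu tau) m =
      ∑ m ∈ range (N + 1), V m - (N + 1) * T L' + ∑ m ∈ range (N + 1), T m := by
    rw [Finset.sum_congr rfl (fun m hm => hcs m (by rw [Finset.mem_range] at hm; omega))]
    have h2 : ∑ m ∈ range (N + 1), T (N - m) = ∑ m ∈ range (N + 1), T m := by
      have := Finset.sum_range_reflect T (N + 1)
      simpa using this
    rw [← h2, hTc N (by omega)]
    simp only [Finset.sum_sub_distrib, Finset.sum_const, Finset.card_range, nsmul_eq_mul]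
    push_cast
    ring
  have htot : ∑ i, chi N nu tau i = V L - T L' := by
    rw [← csum_all, hcs N le_rfl, hVc N (by omega), hTc N (by omega)]
    simp [hT]
  rw [cc_antitone (chi_antitone hν hτ), hsum, htot, S7F_const V L hVc (N + 1) (by omega),
    S7F_const T L' hTc (N + 1) (by omega)]
  push_cast
  ring

theorem ev_poly (k : K) {nu tau : ℕ → ℕ} {L L' : ℕ} (hν : Antitone nu) (hτ : Antitone tau)
    (hνL : ∀ i, L ≤ i → nu i = 0) (hτL : ∀ j, L' ≤ j → tau j = 0) :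
    ∃ E : K[X], ∀ N : ℕ, L + L' ≤ N → ev k (chi N nu tau) 2 = E.eval (N : K) := by
  obtain ⟨c0, c1, hc⟩ := S7F_cc hν hτ hνL hτL
  refine ⟨C (((∑ i ∈ range L, (nu i : ℤ) ^ 2 + ∑ j ∈ range L', (tau j : ℤ) ^ 2 : ℤ)) : K) -
    C k * (C (c0 : K) + C (c1 : K) * X), fun N hN => ?_⟩
  rw [ev_two, S7F_sq hνL hτL hN, hc N hN]
  simp only [eval_sub, eval_mul, eval_add, eval_C, eval_X]
  push_cast
  ring

/-- specialisation at all `N ≥ l(λ) + l(μ)` -/
theorem S7 [CharZero K] {k : K} {L L' : ℕ} {lam mu : ℕ → ℕ}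
    (hla : Antitone lam) (hmu : Antitone mu)
    (h1 : ∀ i, L ≤ i → lam i = 0) (h2 : ∀ i, L' ≤ i → mu i = 0)
    {s : K[X]} {J : MvPolynomial ℤ K} (hJ : Rep k lam mu s J) {N : ℕ} (hN : L + L' ≤ N) :
    phi K N J ∈ Eig k (chi N lam mu) ∧ (phi K N J).coeff (chi N lam mu) = s.eval (N : K) := by
  obtain ⟨N0, hJ⟩ := hJ
  refine ⟨⟨⟨supp_all h1 h2 J (fun M hM => (hJ M hM).1.1.1) hN, phi_sym N J⟩, ?_⟩,
    lead_all h1 h2 J s (fun M hM => (hJ M hM).2) hN⟩
  obtain ⟨g, hg⟩ := II_stable k 2 J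
  obtain ⟨E, hE⟩ := ev_poly k hla hmu h1 h2
  rw [hg, hE N hN]
  apply AddMonoidAlgebra.ext
  ext η
  set η' : ℕ → ℤ := fun i => if h : i < N then η ⟨i, h⟩ else 0 with hη'
  have hz : ∀ i, N ≤ i → η' i = 0 := by
    intro i hi
    simp only [hη']
    rw [dif_neg (by omega)]
  have hr : (fun i : Fin N => η' i) = η := by
    funext i
    simp only [hη']
    rw [dif_pos i.isLt]
  obtain ⟨P, hP⟩ := coeff_poly g N η' hz
  obtain ⟨Q, hQ⟩ := coeff_poly J N η' hz
  have hPQ : P = E * Q := by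
    apply poly_eq_of_large (N0 := max N N0)
    intro M hM
    have hM1 : N ≤ M := le_trans (le_max_left _ _) hM
    have hM2 : N0 ≤ M := le_trans (le_max_right _ _) hM
    have h3 := (hJ M hM2).1.2
    rw [hg, hE M (by omega)] at h3
    rw [eval_mul, ← hP M hM1, ← hQ M hM1, h3, AddMonoidAlgebra.coeff_smul, Finsupp.smul_apply,
      smul_eq_mul]
  have h4 := hP N le_rfl
  have h5 := hQ N le_rfl
  rw [hr] at h4 h5
  rw [h4, AddMonoidAlgebra.coeff_smul, Finsupp.smul_apply, smul_eq_mul, h5, hPQ, eval_mul]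

end JLQ
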