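import Pool.Agent.JLQ.Defs97
import Pool.Agent.JLQ.S2

/-! Column removal. -/

namespace JLQ

open Finset AddMonoidAlgebra H83JL Polynomial

variable {K : Type*} [Field K]

/-- specialisation at all `N ≥ l(λ) + l(μ)` -/
def SmallN (k : K) : Prop :=
  ∀ (L L' : ℕ) (lam mu : ℕ → ℕ), Antitone lam → Antitone mu → (∀ i, L ≤ i → lam i = 0) →
    (∀ i, L' ≤ i → mu i = 0) → ∀ (s : K[X]) (J : MvPolynomial ℤ K), Rep k lam mu s J →
    ∀ N, L + L' ≤ N →
    phi K N J ∈ Eig k (chi N lam mu) ∧ (phi K N J).coeff (chi N lam mu) = s.eval (N : K)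

/-- hypothesis (a) -/
def StepA (A : Subring K) (k : K) : Prop :=
  ∀ (L L' : ℕ) (lam mu : ℕ → ℕ), Par L lam → Par L' mu →
    (∃ P, Rep k lam 0 1 P ∧ IntM A (MvPolynomial.C (Afac k L lam) * P)) →
    (∃ Q, Rep k mu 0 1 Q ∧ IntM A (MvPolynomial.C (Afac k L' mu) * Q)) →
    ∃ J, Rep k lam mu (BB k L L' lam mu) J ∧
      IntM A (MvPolynomial.C (Afac k L lam * Afac k L' mu) * J)

lemma rat_smul_mem (A : Subring K) (hQ : ∀ q : ℚ, (q : K) ∈ A) (q : ℚ) (a : K)
    (ha : a ∈ A.toAddSubgroup) : (q : K) * a ∈ A.toAddSubgroup :=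
  A.mul_mem (hQ q) ha

/-- integrality from large `N` -/
lemma IntM_of_phi [CharZero K] (A : Subring K) (hQ : ∀ q : ℚ, (q : K) ∈ A)
    {f : MvPolynomial ℤ K} {N0 : ℕ} (h : ∀ N ≥ N0, IntL A (phi K N f)) : IntM A f :=
  fun m => coeff_mem A.toAddSubgroup (rat_smul_mem A hQ) f N0 (fun N hN η => h N hN η) m

lemma IntL_phi (A : Subring K) {f : MvPolynomial ℤ K} (h : IntM A f) (N : ℕ) :
    IntL A (phi K N f) := fun η => phi_coeff_mem A.toAddSubgroup f h N η

lemma phi_C_mul (N : ℕ) (c : K) (f : MvPolynomial ℤ K) :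
    phi K N (MvPolynomial.C c * f) = c • phi K N f := by
  rw [map_mul]
  have : phi K N (MvPolynomial.C c) = algebraMap K (Lau K N) c := by
    rw [phi, MvPolynomial.aeval_C]
  rw [this, Algebra.smul_def]

/-! ### existence for one partition -/

lemma exists_rep [CharZero K] {k : K} (hk : ∀ q : ℚ, (q : K) ≠ k) {L : ℕ} {lam : ℕ → ℕ}
    (h : Par L lam) : ∃ P, Rep k lam 0 1 P := by
  have h0 : Antitone (0 : ℕ → ℕ) := fun _ _ _ => le_rfl
  obtain ⟨J, N0, hJ⟩ := BB_mem hk h.anti h0 (L := L) (L' := 0) h.zero (fun _ _ => rfl) h.size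
    (by simp)
  refine ⟨J, N0, fun N hN => ⟨(hJ N hN).1, ?_⟩⟩
  rw [(hJ N hN).2, BB]
  simp

/-! ### shift of weights -/

lemma W_shift {N : ℕ} {χ η : Fin N → ℤ} (h : η ∈ W χ) (a : ℤ) :
    (fun i => η i + a) ∈ W (fun i => χ i + a) := by
  refine ⟨?_, fun S => ?_⟩
  · simp only [Finset.sum_add_distrib]; rw [h.1]
  · have := h.2 S
    have e : csum (fun i => χ i + a) S.card = csum χ S.card + S.card * a := by
      unfold csum
      rw [Finset.sum_add_distrib, Finset.sum_const, Fin.card_filter_val_lt]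
      have : S.card ≤ N := by simpa using S.card_le_univ
      rw [min_eq_right this]
      simp
    rw [e, Finset.sum_add_distrib, Finset.sum_const]
    simp only [nsmul_eq_mul]
    linarith

lemma cc_shift {N : ℕ} (χ : Fin N → ℤ) (a : ℤ) : cc (fun i => χ i + a) = cc χ := by
  unfold cc
  simp

lemma Eig_shf (k : K) {N : ℕ} {χ : Fin N → ℤ} {f : Lau K N} (hf : f ∈ Eig k χ) (a : ℤ) :
    shf K N a * f ∈ Eig k (fun i => χ i + a) := by
  have hs : ∀ η, f.coeff η ≠ 0 → η ∈ W χ := by
    intro η hη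
    by_contra hcon
    exact hη (AddMonoidAlgebra.mem_supported'.1 hf.1.1 η hcon)
  have hsym : Sym (shf K N a * f) := Sym_shf _ hf.1.2
  refine ⟨⟨?_, hsym⟩, ?_⟩
  · rw [AddMonoidAlgebra.mem_supported']
    intro m hm
    by_contra hcon
    rw [shf_coeff] at hcon
    apply hm
    have := W_shift (hs _ hcon) a
    simpa using this
  · have h1 := (CMSrel_iff k _ hf.1.2).2 hf.2
    have h2 := (CMSrel_shf k (ev k χ 2) a (∑ i, χ i) (fun η hη => (hs η hη).1)).2 h1
    have h3 := (CMSrel_iff k _ hsym).1 h2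
    rw [h3]
    congr 1
    rw [ev_two, ev_two, cc_shift]
    push_cast
    have e : ∀ i : Fin N, ((χ i : K) + a) ^ 2 = (χ i : K) ^ 2 + 2 * a * (χ i : K) + a ^ 2 := by
      intro i; ring
    simp only [e, Finset.sum_add_distrib, ← Finset.mul_sum, Finset.sum_const, Finset.card_univ,
      Fintype.card_fin, nsmul_eq_mul]
    ring

/-! ### the factors -/

lemma Afac_mem (A : Subring K) {k : K} (hkA : k ∈ A) (L : ℕ) (lam : ℕ → ℕ) :
    Afac k L lam ∈ A := by
  refine Subring.prod_mem _ fun i _ => Subring.prod_mem _ fun j _ => ?_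
  refine A.add_mem (A.sub_mem (A.sub_mem (natCast_mem A _) (natCast_mem A _)) A.one_mem)
    (A.mul_mem hkA (A.sub_mem (natCast_mem A _) (natCast_mem A _)))

lemma conj_succ (L : ℕ) (nu : ℕ → ℕ) (j : ℕ) :
    conj L nu (j + 1) = conj L (fun i => nu i - 1) j := by
  unfold conj
  congr 1
  ext i
  simp only [mem_filter, mem_range]
  omega

lemma Afac_column (k : K) {L : ℕ} {nu : ℕ → ℕ} (hν : Antitone nu) (hL : ∀ i, L ≤ i → nu i = 0) :
    Afac k L nu = Afac k L (fun i => nu i - 1) *
      ∏ i ∈ range (conj L nu 0), ((nu i : K) - 1 + k * ((i : K) - conj L nu 0)) := by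
  have hset : range (conj L nu 0) = (range L).filter (fun i => 0 < nu i) := by
    ext i
    rw [mem_range, lt_conj hν hL, mem_filter, mem_range]
    constructor
    · intro h
      refine ⟨?_, h⟩
      by_contra hc
      rw [hL i (not_lt.1 hc)] at h
      omega
    · exact fun h => h.2
  rw [hset, Finset.prod_filter, Afac, Afac, ← Finset.prod_mul_distrib]
  refine Finset.prod_congr rfl fun i _ => ?_
  rcases Nat.eq_zero_or_pos (nu i) with h0 | h0
  · simp [h0]
  · obtain ⟨t, ht⟩ : ∃ t, nu i = t + 1 := ⟨nu i - 1, by omega⟩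
    rw [if_pos h0, ht, Finset.prod_range_succ']
    simp only [Nat.add_sub_cancel]
    congr 1
    · refine Finset.prod_congr rfl fun j _ => ?_
      rw [conj_succ]
      push_cast
      ring
    · push_cast; ring

/-- the column `(1^m)` -/
def col (m : ℕ) : ℕ → ℕ := fun i => if i < m then 1 else 0

lemma Par_col (m : ℕ) : Par m (col m) where
  anti := by
    intro a b hab
    unfold col
    split_ifs <;> omega
  zero := by
    intro i hi
    simp [col, not_lt.2 hi]
  size := by
    have : ∀ i ∈ range m, col m i = 1 := by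
      intro i hi
      simp [col, mem_range.1 hi]
    rw [Finset.sum_congr rfl this]
    simp

lemma conj_col (m : ℕ) : conj m (col m) 0 = m := by
  unfold conj col
  rw [Finset.filter_true_of_mem]
  · simp
  · intro i hi
    simp [mem_range.1 hi]

lemma Afac_col (k : K) (m : ℕ) : Afac k m (col m) = ∏ i ∈ range m, (k * ((i : K) - m)) := by
  unfold Afac
  refine Finset.prod_congr rfl fun i hi => ?_
  have : col m i = 1 := by simp [col, mem_range.1 hi]
  rw [this, Finset.prod_range_one, conj_col]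
  simp

lemma BB_col (k : K) {L m : ℕ} (hm : 0 < m) (lam : ℕ → ℕ) (x : K) :
    (BB k L m lam (col m)).eval x =
      ∏ i ∈ range (conj L lam 0), ((lam i : K) + k * ((i : K) + m - x)) := by
  have h1 : col m 0 = 1 := by simp [col, hm]
  rw [BB, eval_prod]
  refine Finset.prod_congr rfl fun i _ => ?_
  rw [h1, Finset.prod_range_one, ff, conj_col]
  simp


/-! ### the column -/

lemma chi_col {N m : ℕ} (hm : m ≤ N) (i : Fin N) :
    chi N (col m) 0 i = if (i : ℕ) < m then 1 else 0 := by
  unfold chi col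
  split_ifs <;> simp

lemma csum_col {N m : ℕ} (hm : m ≤ N) (j : ℕ) (hj : j ≤ N) :
    csum (chi N (col m) 0) j = (min j m : ℕ) := by
  unfold csum
  have : ∀ i ∈ univ.filter (fun i : Fin N => i.val < j), chi N (col m) 0 i =
      if (i : ℕ) < m then 1 else 0 := fun i _ => chi_col hm i
  rw [Finset.sum_congr rfl this, ← Finset.sum_filter, Finset.filter_filter, Finset.sum_const]
  have e : (univ.filter (fun i : Fin N => i.val < j ∧ i.val < m)) =
      univ.filter (fun i : Fin N => i.val < min j m) := by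
    ext i; simp
  rw [e, Fin.card_filter_val_lt]
  simp
  omega

lemma W_col {N m : ℕ} (hm : m ≤ N) {ρ : Fin N → ℤ} (hρ : Antitone ρ)
    (h : ρ ∈ W (chi N (col m) 0)) : ρ = chi N (col m) 0 := by
  have hsum : ∑ i, ρ i = m := by
    rw [h.1]
    have := csum_col hm N le_rfl
    unfold csum at this
    rw [Finset.filter_true_of_mem (fun i _ => i.isLt)] at this
    rw [this, min_eq_right hm]
  have hle : ∀ S : Finset (Fin N), ∑ i ∈ S, ρ i ≤ (min S.card m : ℕ) := by
    intro S
    have h2 := h.2 S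
    rwa [csum_col hm _ (by simpa using S.card_le_univ)] at h2
  have h1 : ∀ i, ρ i ≤ 1 := by
    intro i
    have := hle {i}
    rw [Finset.sum_singleton, Finset.card_singleton] at this
    have h3 : (min 1 m : ℕ) ≤ 1 := min_le_left _ _
    omega
  have h0 : ∀ i, 0 ≤ ρ i := by
    intro i
    have h2 := hle (univ.erase i)
    have h3 := Finset.add_sum_erase univ ρ (mem_univ i)
    have h4 : (min (univ.erase i : Finset (Fin N)).card m : ℕ) ≤ m := min_le_right _ _
    rw [hsum] at h3
    omega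
  funext i
  rw [chi_col hm]
  split_ifs with him
  · by_contra hne
    have hi0 : ρ i = 0 := by have := h0 i; have := h1 i; omega
    have hz : ∀ j, i ≤ j → ρ j = 0 := fun j hj => le_antisymm ((hρ hj).trans hi0.le) (h0 j)
    have h5 : ∑ j, ρ j = ∑ j ∈ Iio i, ρ j := by
      symm
      refine Finset.sum_subset (subset_univ _) fun j _ hj => ?_
      rw [mem_Iio, not_lt] at hj
      exact hz j hj
    have h6 := hle (Iio i)
    rw [← h5, hsum, Fin.card_Iio] at h6
    have h7 : (min (i : ℕ) m : ℕ) ≤ i := min_le_left _ _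
    omega
  · by_contra hne
    have hi1 : ρ i = 1 := by have := h0 i; have := h1 i; omega
    have hz : ∀ j, j ≤ i → 1 ≤ ρ j := fun j hj => hi1.ge.trans (hρ hj)
    have h5 : ((Iic i).card : ℤ) ≤ ∑ j ∈ Iic i, ρ j := by
      have := Finset.card_nsmul_le_sum (Iic i) ρ 1 (fun j hj => hz j (mem_Iic.1 hj))
      simpa using this
    have h6 := hle (Iic i)
    rw [Fin.card_Iic] at h5 h6
    have h7 : (min ((i : ℕ) + 1) m : ℕ) ≤ m := min_le_right _ _
    push Not at him
    omega

/-- minuscule weights -/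
lemma IntL_col (A : Subring K) {N m : ℕ} (hm : m ≤ N) {f : Lau K N}
    (hf : f ∈ VV K (chi N (col m) 0)) (h1 : f.coeff (chi N (col m) 0) ∈ A) : IntL A f := by
  intro η
  by_cases h0 : f.coeff η = 0
  · rw [h0]; exact A.zero_mem
  · obtain ⟨σ, hσ⟩ := exists_sort η
    have h2 : f.coeff (fun i => η (σ i)) = f.coeff η := by
      rw [← perm_coeff, hf.2]
    have h3 : (fun i => η (σ i)) ∈ W (chi N (col m) 0) := by
      by_contra hcon
      apply h0
      rw [← h2]
      exact AddMonoidAlgebra.mem_supported'.1 hf.1 _ hcon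
    rw [← h2, W_col hm hσ h3]
    exact h1

lemma Int_col [CharZero K] (A : Subring K) {k : K} (hk : ∀ q : ℚ, (q : K) ≠ k) (hkA : k ∈ A)
    (hQ : ∀ q : ℚ, (q : K) ∈ A) (m : ℕ) :
    ∃ Q, Rep k (col m) 0 1 Q ∧ IntM A (MvPolynomial.C (Afac k m (col m)) * Q) := by
  obtain ⟨Q, N0, hQ'⟩ := exists_rep hk (Par_col m)
  refine ⟨Q, ⟨N0, hQ'⟩, IntM_of_phi A hQ (N0 := max N0 m) fun N hN => ?_⟩
  obtain ⟨h1, h2⟩ := hQ' N ((le_max_left _ _).trans hN)
  have h3 : IntL A (phi K N Q) := by
    refine IntL_col A ((le_max_right _ _).trans hN) h1.1 ?_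
    rw [h2]; simpa using A.one_mem
  intro η
  rw [phi_C_mul, AddMonoidAlgebra.coeff_smul, Finsupp.smul_apply, smul_eq_mul]
  exact A.mul_mem (Afac_mem A hkA _ _) (h3 η)

/-! ### the induction -/

lemma chi_remove {L N : ℕ} {nu : ℕ → ℕ} (hν : Antitone nu) (hL : ∀ i, L ≤ i → nu i = 0)
    (hN : conj L nu 0 ≤ N) (i : Fin N) :
    chi N (fun i => nu i - 1) (col (N - conj L nu 0)) i + 1 = chi N nu 0 i := by
  have h := lt_conj hν hL (i : ℕ) 0
  have hi := i.isLt
  unfold chi col
  by_cases hc : (i : ℕ) < conj L nu 0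
  · have h1 := h.1 hc
    rw [if_neg (by omega)]
    simp only [Pi.zero_apply, Nat.cast_zero, sub_zero]
    omega
  · have h1 : nu i = 0 := by
      by_contra hne
      exact hc (h.2 (by omega))
    rw [if_pos (by omega), h1]
    simp
    omega

theorem S8 [CharZero K] (A : Subring K) {k : K} (hk : ∀ q : ℚ, (q : K) ≠ k) (hkA : k ∈ A)
    (hki : k⁻¹ ∈ A) (hQ : ∀ q : ℚ, (q : K) ∈ A) (hA : StepA A k) (hS : SmallN k) :
    ∀ (n L : ℕ) (nu : ℕ → ℕ), Par L nu → ∑ i ∈ range L, nu i = n →
      ∃ P, Rep k nu 0 1 P ∧ IntM A (MvPolynomial.C (Afac k L nu) * P) := by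
  have hk0 : k ≠ 0 := fun h0 => hk 0 (by simp [h0])
  intro n
  induction n using Nat.strong_induction_on with
  | _ n ihn =>
  intro L nu hP hn
  obtain ⟨P, N0, hrep⟩ := exists_rep hk hP
  refine ⟨P, ⟨N0, hrep⟩, ?_⟩
  set l := conj L nu 0 with hl
  rcases Nat.eq_zero_or_pos l with hl0 | hlpos
  · -- the empty partition
    have hnu : nu = col 0 := by
      funext i
      by_contra hne
      have : 0 < nu i := by
        simp only [col, Nat.not_lt_zero, if_false] at hne
        omega
      have := (lt_conj hP.anti hP.zero i 0).2 this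
      omega
    refine IntM_of_phi A hQ (N0 := N0) fun N hN => ?_
    obtain ⟨h1, h2⟩ := hrep N hN
    have h3 : IntL A (phi K N P) := by
      rw [hnu] at h1 h2
      refine IntL_col A (Nat.zero_le _) h1.1 ?_
      rw [h2]; simpa using A.one_mem
    intro η
    rw [phi_C_mul, AddMonoidAlgebra.coeff_smul, Finsupp.smul_apply, smul_eq_mul]
    exact A.mul_mem (Afac_mem A hkA _ _) (h3 η)
  set lam : ℕ → ℕ := fun i => nu i - 1 with hlam
  have hPl : Par L lam := by
    refine ⟨?_, ?_, ?_⟩
    · intro a b hab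
      have := hP.anti hab
      simp only [hlam]
      omega
    · intro i hi
      simp [hlam, hP.zero i hi]
    · refine le_trans (Finset.sum_le_sum fun i _ => ?_) hP.size
      simp only [hlam]
      omega
  have hlt : ∑ i ∈ range L, lam i < n := by
    rw [← hn]
    have h0 : 0 < nu 0 := (lt_conj hP.anti hP.zero 0 0).1 hlpos
    have hL0 : 0 < L := by
      by_contra hc
      rw [hP.zero 0 (by omega)] at h0
      omega
    refine Finset.sum_lt_sum (fun i _ => ?_) ⟨0, mem_range.2 hL0, ?_⟩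
    · simp only [hlam]; omega
    · simp only [hlam]; omega
  have IH := ihn _ hlt L lam hPl rfl
  refine IntM_of_phi A hQ (N0 := max N0 (l + 1)) fun N hN => ?_
  have hN0 : N0 ≤ N := (le_max_left _ _).trans hN
  have hNl : l + 1 ≤ N := (le_max_right _ _).trans hN
  obtain ⟨h1, h2⟩ := hrep N hN0
  set m := N - l with hm
  have hmpos : 0 < m := by omega
  obtain ⟨J, hJ, hJA⟩ := hA L m lam (col m) hPl (Par_col m) IH (Int_col A hk hkA hQ m)
  have hlamz : ∀ i, l ≤ i → lam i = 0 := by
    intro i hi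
    have : ¬ 0 < nu i := by
      rw [← lt_conj hP.anti hP.zero]; omega
    simp only [hlam]; omega
  obtain ⟨g1, g2⟩ := hS l m lam (col m) hPl.anti (Par_col m).anti hlamz (Par_col m).zero _ J hJ N
    (by omega)
  -- the shifted function
  have hchi : (fun i => chi N lam (col m) i + 1) = chi N nu 0 := by
    funext i
    exact chi_remove hP.anti hP.zero (by omega) i
  have g3 := Eig_shf k g1 1
  rw [hchi] at g3
  have g4 : (shf K N 1 * phi K N J).coeff (chi N nu 0) =
      (BB k L m lam (col m)).eval (N : K) := by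
    rw [shf_coeff, ← g2]
    congr 1
    funext i
    rw [← hchi]
    ring
  have hχ : Antitone (chi N nu 0) := chi_antitone hP.anti (fun _ _ _ => le_rfl)
  have key : shf K N 1 * phi K N J = (BB k L m lam (col m)).eval (N : K) • phi K N P := by
    rw [← sub_eq_zero]
    apply eig_zero hk hχ (sub_mem g3 (Submodule.smul_mem _ _ h1))
    rw [AddMonoidAlgebra.coeff_sub, Finsupp.sub_apply, g4, AddMonoidAlgebra.coeff_smul,
      Finsupp.smul_apply, h2]
    simp
  -- integrality
  have i1 := IntL_phi A hJA N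
  have i2 : IntL A ((Afac k L lam * Afac k m (col m) * (BB k L m lam (col m)).eval (N : K)) •
      phi K N P) := by
    intro η
    have h3 := i1 (fun i => η i - 1)
    rw [phi_C_mul, AddMonoidAlgebra.coeff_smul, Finsupp.smul_apply, smul_eq_mul,
      ← shf_coeff, key] at h3
    rw [AddMonoidAlgebra.coeff_smul, Finsupp.smul_apply, smul_eq_mul] at h3 ⊢
    rw [mul_assoc]
    exact h3
  -- the factors
  have hconjl : conj L lam 0 ≤ l := by
    unfold conj at hl ⊢
    rw [hl]
    apply Finset.card_le_card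
    intro i
    simp only [mem_filter, mem_range, hlam]
    omega
  have hfac : Afac k L nu * Afac k m (col m) =
      (∏ i ∈ Ico (conj L lam 0) l, (k * ((i : K) - l))) *
        (Afac k L lam * Afac k m (col m) * (BB k L m lam (col m)).eval (N : K)) := by
    have e1 := Afac_column k hP.anti hP.zero
    rw [← hl, ← hlam] at e1
    have e2 : ∏ i ∈ range l, ((nu i : K) - 1 + k * ((i : K) - l)) =
        (∏ i ∈ range (conj L lam 0), ((lam i : K) + k * ((i : K) + m - N))) *
          ∏ i ∈ Ico (conj L lam 0) l, (k * ((i : K) - l)) := by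
      rw [← Finset.prod_range_mul_prod_Ico _ hconjl]
      congr 1
      · refine Finset.prod_congr rfl fun i hi => ?_
        have hi' := (lt_conj hP.anti hP.zero i 0).1 ((mem_range.1 hi).trans_le hconjl)
        have : (lam i : K) = (nu i : K) - 1 := by
          simp only [hlam]
          rw [Nat.cast_sub hi', Nat.cast_one]
        rw [this, hm, Nat.cast_sub (by omega)]
        ring
      · refine Finset.prod_congr rfl fun i hi => ?_
        rw [mem_Ico] at hi
        have h5 := (lt_conj hP.anti hP.zero i 0).1 (by omega)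
        have h6 : ¬ 0 < lam i := by
          rw [← lt_conj hPl.anti hPl.zero]; omega
        have h7 : nu i = 1 := by
          simp only [hlam] at h6; omega
        rw [h7]
        simp
    rw [e1, e2, BB_col k hmpos]
    ring
  have hcol0 : Afac k m (col m) ≠ 0 := by
    rw [Afac_col, Finset.prod_ne_zero_iff]
    intro i hi
    rw [mem_range] at hi
    refine mul_ne_zero hk0 (sub_ne_zero.2 ?_)
    exact_mod_cast hi.ne
  have hcolinv : (Afac k m (col m))⁻¹ ∈ A := by
    rw [Afac_col, ← Finset.prod_inv_distrib]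
    refine Subring.prod_mem _ fun i _ => ?_
    rw [mul_inv]
    refine A.mul_mem hki ?_
    have := hQ (((i : ℚ) - m)⁻¹)
    push_cast at this
    exact this
  have hu : Afac k L nu = ((Afac k m (col m))⁻¹ * ∏ i ∈ Ico (conj L lam 0) l,
      (k * ((i : K) - l))) *
        (Afac k L lam * Afac k m (col m) * (BB k L m lam (col m)).eval (N : K)) := by
    rw [mul_assoc, ← hfac, mul_comm (Afac k L nu), inv_mul_cancel_left₀ hcol0]
  intro η
  have h3 := i2 η
  rw [AddMonoidAlgebra.coeff_smul, Finsupp.smul_apply, smul_eq_mul] at h3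
  rw [phi_C_mul, AddMonoidAlgebra.coeff_smul, Finsupp.smul_apply, smul_eq_mul, hu, mul_assoc]
  refine A.mul_mem (A.mul_mem hcolinv (Subring.prod_mem _ fun i _ => A.mul_mem hkA
    (A.sub_mem (natCast_mem A _) (natCast_mem A _)))) h3

end JLQ
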