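import Pool.Agent.H83JL.CMS

/-! Triangular lemma (S4) and regularity at `k = 0` (S6). -/

namespace JLQ

open Finset AddMonoidAlgebra H83JL

variable {K : Type*} [Field K] {N : ℕ}

/-- restriction of a Laurent polynomial to a set of exponents -/
noncomputable def restr (S : Set (Fin N → ℤ)) (f : H83JL.Lau K N) : H83JL.Lau K N :=
  open Classical in .ofCoeff (f.coeff.filter (fun η => η ∈ S))

lemma restr_coeff (S : Set (Fin N → ℤ)) (f : H83JL.Lau K N) (η : Fin N → ℤ) [Decidable (η ∈ S)] :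
    (restr S f).coeff η = if η ∈ S then f.coeff η else 0 := by
  classical
  rw [restr, coeff_ofCoeff, Finsupp.filter_apply]
  congr

lemma restr_sym {S : Set (Fin N → ℤ)}
    (hS : ∀ (σ : Equiv.Perm (Fin N)) (η), η ∈ S → (fun i => η (σ i)) ∈ S)
    {f : H83JL.Lau K N} (hf : H83JL.Sym f) : H83JL.Sym (restr S f) := by
  classical
  intro σ
  apply AddMonoidAlgebra.ext
  ext η
  rw [perm_coeff, restr_coeff, restr_coeff]
  have h1 : f.coeff (fun i => η (σ i)) = f.coeff η := by
    rw [← perm_coeff, hf]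
  rw [h1]
  have h2 : (fun i => η (σ i)) ∈ S ↔ η ∈ S := by
    constructor
    · intro h
      have := hS σ⁻¹ _ h
      simpa using this
    · exact hS σ η
  simp only [h2]

lemma restr_add_compl (S : Set (Fin N → ℤ)) (f : H83JL.Lau K N) :
    restr S f + restr Sᶜ f = f := by
  classical
  apply AddMonoidAlgebra.ext
  ext η
  rw [coeff_add, Finsupp.add_apply, restr_coeff, restr_coeff]
  by_cases h : η ∈ S <;> simp [h]

/-- the coefficient of `I_n g` at an exponent which no other exponent of `g` dominates -/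
lemma diag_gen (k : K) (m : ℕ) {η : Fin N → ℤ} (hη : Antitone η) :
    ∀ (n : ℕ) (g : H83JL.Lau K N), g.coeff.support.card = n → H83JL.Sym g →
      (∀ ρ, Antitone ρ → g.coeff ρ ≠ 0 → ρ ≠ η → η ∉ W ρ) →
      (II k N m g).coeff η = ev k η m * g.coeff η := by
  classical
  intro n
  induction n using Nat.strong_induction_on with
  | _ n ihn =>
  intro g hn hg hmax
  by_cases hg0 : g = 0
  · rw [hg0]; simp
  have hne : g.coeff.support.Nonempty := by
    rw [Finset.nonempty_iff_ne_empty]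
    intro h
    rw [Finsupp.support_eq_empty] at h
    exact hg0 (by simpa using h)
  obtain ⟨ζ, hζ⟩ := hne
  obtain ⟨σ, hσ⟩ := exists_sort ζ
  set ρ : Fin N → ℤ := fun i => ζ (σ i) with hρdef
  have hgρ : g.coeff ρ ≠ 0 := by
    rw [hρdef, ← perm_coeff, hg]
    exact Finsupp.mem_support_iff.1 hζ
  have hdec : g = orb ρ g + (g - orb ρ g) := by abel
  have hcoef : ∀ ξ, (g - orb ρ g).coeff ξ =
      if (∃ σ : Equiv.Perm (Fin N), (fun i => ξ (σ i)) = ρ) then 0 else g.coeff ξ := by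
    intro ξ
    rw [coeff_sub, Finsupp.sub_apply, orb_coeff]
    split_ifs <;> simp
  have hsymd : H83JL.Sym (g - orb ρ g) := by
    intro τ
    rw [map_sub, hg, orb_sym ρ hg]
  have h2 : (II k N m (g - orb ρ g)).coeff η = ev k η m * (g - orb ρ g).coeff η := by
    refine ihn _ ?_ (g - orb ρ g) rfl hsymd ?_
    · rw [← hn]
      apply Finset.card_lt_card
      refine ⟨?_, ?_⟩
      · intro ξ hξ
        rw [Finsupp.mem_support_iff, hcoef] at hξ
        rw [Finsupp.mem_support_iff]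
        intro h
        apply hξ
        rw [h]; simp
      · intro hsub
        have := hsub hζ
        rw [Finsupp.mem_support_iff, hcoef, if_pos ⟨σ, rfl⟩] at this
        exact this rfl
    · intro τ hτ hτ0 hτη
      apply hmax τ hτ _ hτη
      intro h
      apply hτ0
      rw [hcoef, h]; simp
  have h1 : (II k N m (orb ρ g)).coeff η = ev k η m * (orb ρ g).coeff η := by
    have hV := orb_mem ρ hσ hg
    by_cases hρη : ρ = η
    · rw [hρη] at hV ⊢
      exact diag_II hη k hV m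
    · have hW := hmax ρ hσ hgρ hρη
      have h3 : (II k N m (orb ρ g)).coeff η = 0 :=
        mem_supported'.1 (VV_II k m hV).1 η hW
      have h4 : (orb ρ g).coeff η = 0 := mem_supported'.1 hV.1 η hW
      rw [h3, h4, mul_zero]
  conv_lhs => rw [hdec]
  rw [map_add, coeff_add, Finsupp.add_apply, h1, h2, ← mul_add]
  congr 1
  rw [coeff_sub, Finsupp.sub_apply]
  ring

/-- **(S4)** triangular lemma -/
theorem tri_bad (k : K) (m : ℕ) {f : H83JL.Lau K N} (hf : H83JL.Sym f) (bad : Set (Fin N → ℤ))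
    (hperm : ∀ (σ : Equiv.Perm (Fin N)) (η), η ∈ bad → (fun i => η (σ i)) ∈ bad)
    (hne : ∃ η ∈ bad, f.coeff η ≠ 0) :
    ∃ η ∈ bad, Antitone η ∧ f.coeff η ≠ 0 ∧
      (II k N m f).coeff η = ev k η m * f.coeff η + (II k N m (restr badᶜ f)).coeff η := by
  classical
  set T := f.coeff.support.filter (fun η => η ∈ bad ∧ Antitone η) with hT
  have hTne : T.Nonempty := by
    obtain ⟨η, hη, h0⟩ := hne
    obtain ⟨σ, hσ⟩ := exists_sort η
    refine ⟨fun i => η (σ i), ?_⟩
    rw [hT, mem_filter, Finsupp.mem_support_iff]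
    refine ⟨?_, hperm σ η hη, hσ⟩
    rw [← perm_coeff, hf]
    exact h0
  obtain ⟨η, hηT, hmax⟩ := Finset.exists_max_image T cc hTne
  rw [hT, mem_filter, Finsupp.mem_support_iff] at hηT
  obtain ⟨h0, hbad, hanti⟩ := hηT
  refine ⟨η, hbad, hanti, h0, ?_⟩
  have hmain : (II k N m (restr bad f)).coeff η = ev k η m * (restr bad f).coeff η := by
    refine diag_gen k m hanti _ _ rfl (restr_sym hperm hf) ?_
    intro ρ hρ hρ0 hρη hW
    rw [restr_coeff] at hρ0
    have hρbad : ρ ∈ bad := by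
      by_contra h
      rw [if_neg h] at hρ0
      exact hρ0 rfl
    rw [if_pos hρbad] at hρ0
    have h1 := hmax ρ (by
      rw [hT, mem_filter, Finsupp.mem_support_iff]
      exact ⟨hρ0, hρbad, hρ⟩)
    have h2 := cc_lt hρ hanti hW (Ne.symm hρη)
    omega
  rw [restr_coeff, if_pos hbad] at hmain
  conv_lhs => rw [← restr_add_compl bad f]
  rw [map_add, coeff_add, Finsupp.add_apply, hmain]

/-! ### integrality of the operators -/

lemma intg_DD {O : AddSubgroup K} {i j : Fin N} {f : H83JL.Lau K N}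
    (hf : ∀ η, f.coeff η ∈ O) : ∀ η, (DD i j f).coeff η ∈ O := by
  classical
  have e : f = ∑ ζ ∈ f.coeff.support, f.coeff ζ • (single ζ 1 : H83JL.Lau K N) := by
    conv_lhs => rw [← sum_coeff_single f]
    refine Finset.sum_congr rfl fun ζ _ => ?_
    exact H83JL.single_eq_smul ζ _
  intro η
  rw [e, map_sum, coeff_sum, Finset.sum_apply']
  refine sum_mem fun ζ _ => ?_
  rw [map_smul, coeff_smul, Finsupp.smul_apply, smul_eq_mul, DD_single]
  have key : ∃ z : ℤ, (DDmon K i j ζ).coeff η = (z : K) := by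
    unfold DDmon
    split_ifs with h
    · refine ⟨∑ s ∈ range (ζ i - ζ j).toNat, if stp i j s ζ = η then 1 else 0, ?_⟩
      rw [coeff_sum, Finset.sum_apply']
      push_cast
      refine Finset.sum_congr rfl fun s _ => ?_
      rw [coeff_single, Finsupp.single_apply]
    · refine ⟨-∑ s ∈ range (ζ j - ζ i).toNat, if stp i j s (swp i j ζ) = η then 1 else 0, ?_⟩
      rw [coeff_neg, Finsupp.neg_apply, coeff_sum, Finset.sum_apply']
      push_cast
      congr 1
      refine Finset.sum_congr rfl fun s _ => ?_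
      rw [coeff_single, Finsupp.single_apply]
  obtain ⟨z, hz⟩ := key
  rw [hz, mul_comm, ← zsmul_eq_mul]
  exact zsmul_mem (hf ζ) z

lemma intg_euler {O : AddSubgroup K} {i : Fin N} {f : H83JL.Lau K N}
    (hf : ∀ η, f.coeff η ∈ O) : ∀ η, (euler i f).coeff η ∈ O := by
  intro η
  rw [euler_coeff, ← zsmul_eq_mul]
  exact zsmul_mem (hf η) _

lemma intg_dun {O : AddSubgroup K} {k : K} (hk : ∀ x ∈ O, k * x ∈ O) {i : Fin N}
    {f : H83JL.Lau K N} (hf : ∀ η, f.coeff η ∈ O) : ∀ η, (dun k i f).coeff η ∈ O := by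
  intro η
  rw [dun_apply, coeff_sub, Finsupp.sub_apply, coeff_smul, Finsupp.smul_apply, smul_eq_mul,
    coeff_sum, Finset.sum_apply']
  exact sub_mem (intg_euler hf η) (hk _ (sum_mem fun j _ => intg_DD hf η))

lemma intg_II {O : AddSubgroup K} {k : K} (hk : ∀ x ∈ O, k * x ∈ O) (n : ℕ)
    {f : H83JL.Lau K N} (hf : ∀ η, f.coeff η ∈ O) : ∀ η, (II k N n f).coeff η ∈ O := by
  intro η
  rw [II, LinearMap.sum_apply, coeff_sum, Finset.sum_apply']
  refine sum_mem fun i _ => ?_
  have : ∀ n : ℕ, ∀ η, ((dun k i ^ n) f).coeff η ∈ O := by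
    intro n
    induction n with
    | zero => simpa using hf
    | succ n ih =>
      intro η
      rw [pow_succ', Module.End.mul_apply]
      exact intg_dun hk ih η
  exact this n η

/-! ### squares -/

lemma csum_top (χ : Fin N → ℤ) : csum χ N = ∑ i, χ i := by
  unfold csum
  congr 1
  ext i
  simp

lemma abel {χ η : Fin N → ℤ} (hη : Antitone η) (h : η ∈ W χ) :
    ∀ m : ℕ, m ≤ N → ∀ t : ℤ, (∀ i : Fin N, i.val < m → t ≤ η i) →
      t * (csum χ m - csum η m) ≤ csum (fun i => η i * (χ i - η i)) m := by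
  intro m
  induction m with
  | zero =>
    intro _ t _
    have h0 : ∀ χ : Fin N → ℤ, csum χ 0 = 0 := fun χ => by
      unfold csum
      exact Finset.sum_eq_zero fun i hi => by simp at hi
    rw [h0, h0, h0]
    simp
  | succ m ih =>
    intro hm t ht
    have h1 : csum χ (m + 1) = csum χ m + χ ⟨m, hm⟩ := csum_succ χ ⟨m, hm⟩
    have h2 : csum η (m + 1) = csum η m + η ⟨m, hm⟩ := csum_succ η ⟨m, hm⟩
    have h3 : csum (fun i => η i * (χ i - η i)) (m + 1) =
        csum (fun i => η i * (χ i - η i)) m + η ⟨m, hm⟩ * (χ ⟨m, hm⟩ - η ⟨m, hm⟩) :=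
      csum_succ (fun i => η i * (χ i - η i)) ⟨m, hm⟩
    have h4 := ih (by omega) (η ⟨m, hm⟩) (fun i hi => hη (by
      rw [Fin.le_def]; exact hi.le))
    have h5 : csum η (m + 1) ≤ csum χ (m + 1) := csum_le_of_mem h hm
    have h6 : t ≤ η ⟨m, hm⟩ := ht _ (by simp)
    rw [h3]
    have h7 : t * (csum χ (m + 1) - csum η (m + 1)) ≤
        η ⟨m, hm⟩ * (csum χ (m + 1) - csum η (m + 1)) :=
      mul_le_mul_of_nonneg_right h6 (by linarith)
    refine h7.trans ?_
    rw [h1, h2]
    nlinarith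

lemma sq_lt {χ η : Fin N → ℤ} (hη : Antitone η) (h : η ∈ W χ) (hne : η ≠ χ) :
    ∑ i, η i ^ 2 < ∑ i, χ i ^ 2 := by
  obtain ⟨t, ht⟩ : ∃ t : ℤ, ∀ i : Fin N, t ≤ η i := by
    refine ⟨-∑ i, |η i|, fun i => ?_⟩
    have := Finset.single_le_sum (f := fun i => |η i|) (fun _ _ => abs_nonneg _) (mem_univ i)
    have h2 := neg_abs_le (η i)
    linarith
  have h1 := abel hη h N le_rfl t (fun i _ => ht i)
  rw [csum_top, csum_top, csum_top, h.1, sub_self, mul_zero] at h1
  have h2 : 0 < ∑ i, (χ i - η i) ^ 2 := by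
    obtain ⟨i, hi⟩ := Function.ne_iff.1 hne
    refine Finset.sum_pos' (fun _ _ => sq_nonneg _) ⟨i, mem_univ i, ?_⟩
    have : χ i - η i ≠ 0 := fun h => hi (by omega)
    positivity
  have h3 : ∑ i, χ i ^ 2 - ∑ i, η i ^ 2 = ∑ i, (χ i - η i) ^ 2 + 2 * ∑ i, η i * (χ i - η i) := by
    rw [← Finset.sum_sub_distrib, Finset.mul_sum, ← Finset.sum_add_distrib]
    refine Finset.sum_congr rfl fun i _ => ?_
    ring
  linarith

/-- **(S6)** regularity: if `n + k m` is invertible in `O` for all integers `m` and `n ≠ 0`,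
then an eigenfunction with leading coefficient in `O` has all its coefficients in `O` -/
theorem eig_reg {O : Subring K} {k : K} (hk : k ∈ O)
    (hu : ∀ n m : ℤ, n ≠ 0 → ((n : K) + k * m) ≠ 0 ∧ ((n : K) + k * m)⁻¹ ∈ O)
    {χ : Fin N → ℤ} (hχ : Antitone χ) {f : H83JL.Lau K N} (hf : f ∈ Eig k χ)
    (h1 : f.coeff χ ∈ O) : ∀ η, f.coeff η ∈ O := by
  classical
  by_contra hcon
  push Not at hcon
  obtain ⟨ζ, hζ⟩ := hcon
  obtain ⟨η, hbad, hanti, h0, hII⟩ := tri_bad k 2 hf.1.2 {η | f.coeff η ∉ O}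
    (by
      intro σ η hη
      have h1 : f.coeff (fun i => η (σ i)) = f.coeff η := by
        rw [← perm_coeff, hf.1.2]
      simpa [h1] using hη)
    ⟨ζ, hζ, fun h => hζ (by rw [h]; exact O.zero_mem)⟩
  have hηW : η ∈ W χ := by
    by_contra h
    exact h0 (mem_supported'.1 hf.1.1 η h)
  have hηχ : η ≠ χ := by
    rintro rfl
    exact hbad h1
  have hgood : (II k N 2 (restr {η | f.coeff η ∉ O}ᶜ f)).coeff η ∈ O := by
    refine intg_II (O := O.toAddSubgroup) (k := k) (fun x hx => O.mul_mem hk hx) 2 ?_ η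
    intro ξ
    rw [restr_coeff]
    split_ifs with h
    · simpa using h
    · exact O.zero_mem
  rw [hf.2, coeff_smul, Finsupp.smul_apply, smul_eq_mul, ev_two, ev_two] at hII
  have hlt := sq_lt hanti hηW hηχ
  obtain ⟨hne, hinv⟩ := hu (∑ b, χ b ^ 2 - ∑ b, η b ^ 2) (cc η - cc χ) (by omega)
  have h2 : (((∑ b, χ b ^ 2 - ∑ b, η b ^ 2 : ℤ) : K) + k * ((cc η - cc χ : ℤ) : K)) *
      f.coeff η = (II k N 2 (restr {η | f.coeff η ∉ O}ᶜ f)).coeff η := by
    push_cast at hII ⊢
    linear_combination hII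
  have h3 : f.coeff η = (((∑ b, χ b ^ 2 - ∑ b, η b ^ 2 : ℤ) : K) +
      k * ((cc η - cc χ : ℤ) : K))⁻¹ * (II k N 2 (restr {η | f.coeff η ∉ O}ᶜ f)).coeff η := by
    rw [← h2, inv_mul_cancel_left₀ hne]
  apply hbad
  show f.coeff η ∈ O
  rw [h3]
  exact O.mul_mem hinv hgood

end JLQ
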