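import Pool.Agent.JLQ.Defs97
import Pool.Agent.JLQ.S2
import Pool.Agent.JLQ.T34
import Pool.Agent.JLQ.FA
import Pool.Agent.JLQ.S7F
import Pool.Agent.JLQ.S8
import Pool.Agent.JLQ.S10

/-! Polynomiality in `k`, from integrality over `F[k, 1/k]` and regularity at `k = 0`. -/

namespace JLQ

open Finset AddMonoidAlgebra H83JL Polynomial

variable {F : Type*} [Field F] [CharZero F]

lemma rat_mem_Ok (q : ℚ) : (q : RatFunc F) ∈ Ok F := by
  have e : (q : RatFunc F) = (q.num : RatFunc F) * ((q.den : ℤ) : RatFunc F)⁻¹ := by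
    conv_lhs => rw [← Rat.num_div_den q]
    push_cast
    rw [div_eq_mul_inv]
  rw [e]
  refine (Ok F).mul_mem (intCast_mem _ _) ?_
  have h := (unit_Ok (F := F) (q.den : ℤ) 0 (by exact_mod_cast q.den_nz)).2
  simpa using h

/-- products of polynomial expressions in `k` -/
lemma Afac_memM {K : Type*} [Field K] (O : Subring K) {k : K} (hk : k ∈ O) (L : ℕ) (lam : ℕ → ℕ) :
    Afac k L lam ∈ O := by
  unfold Afac
  refine O.prod_mem fun i _ => O.prod_mem fun j _ => ?_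
  exact O.add_mem (O.sub_mem (O.sub_mem (natCast_mem _ _) (natCast_mem _ _)) O.one_mem)
    (O.mul_mem hk (O.sub_mem (natCast_mem _ _) (natCast_mem _ _)))

lemma BB_eval_memM {K : Type*} [Field K] (O : Subring K) {k : K} (hk : k ∈ O) (L L' : ℕ)
    (lam mu : ℕ → ℕ) (N : ℕ) : (BB k L L' lam mu).eval (N : K) ∈ O := by
  unfold BB
  rw [Polynomial.eval_prod]
  refine O.prod_mem fun i _ => ?_
  rw [Polynomial.eval_prod]
  refine O.prod_mem fun u _ => ?_
  unfold ff
  simp only [eval_add, eval_natCast, eval_mul, eval_C, eval_sub, eval_X]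
  exact O.add_mem (O.add_mem (natCast_mem _ _) (natCast_mem _ _))
    (O.mul_mem hk (O.sub_mem (O.add_mem (natCast_mem _ _) (natCast_mem _ _)) (natCast_mem _ _)))

/-- regularity at `k = 0` -/
lemma regular {L L' : ℕ} {lam mu : ℕ → ℕ} (hla : Antitone lam) (hmu : Antitone mu)
    {J : MvPolynomial ℤ (RatFunc F)}
    (hJ : Rep (RatFunc.X : RatFunc F) lam mu (BB RatFunc.X L L' lam mu) J) (m : ℤ →₀ ℕ) :
    J.coeff m ∈ Ok F := by
  obtain ⟨N0, h⟩ := hJ
  have : J.coeff m ∈ (Ok F).toAddSubgroup := by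
    refine coeff_mem (Ok F).toAddSubgroup (fun q a ha => ?_) J N0 (fun N hN η => ?_) m
    · exact (Ok F).mul_mem (rat_mem_Ok q) ha
    · obtain ⟨h1, h2⟩ := h N hN
      refine eig_reg (O := Ok F) X_mem_Ok (fun n m hn => ?_) (chi_antitone hla hmu) h1 ?_ η
      · exact unit_Ok n m hn
      · rw [h2]
        exact BB_eval_memM _ X_mem_Ok _ _ _ _ _
  exact this

/-- the coefficients of the normalised Jack-Laurent symmetric function are polynomial in `k` -/
theorem poly_of_int {L L' : ℕ} {lam mu : ℕ → ℕ} (hla : Antitone lam) (hmu : Antitone mu)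
    {J : MvPolynomial ℤ (RatFunc F)}
    (hJ : Rep (RatFunc.X : RatFunc F) lam mu (BB RatFunc.X L L' lam mu) J)
    (hi : IntM (Rk F) (MvPolynomial.C (Afac (RatFunc.X : RatFunc F) L lam *
      Afac RatFunc.X L' mu) * J)) (m : ℤ →₀ ℕ) :
    ∃ p : F[X], Afac (RatFunc.X : RatFunc F) L lam * Afac RatFunc.X L' mu * J.coeff m =
      algebraMap F[X] (RatFunc F) p := by
  apply inter_RO
  · have := hi m
    rwa [MvPolynomial.coeff_C_mul] at this
  · exact (Ok F).mul_mem ((Ok F).mul_mem (Afac_memM _ X_mem_Ok _ _) (Afac_memM _ X_mem_Ok _ _))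
      (regular hla hmu hJ m)

/-- **main theorem**: `A(λ) A(μ) J_{λ,μ}` has coefficients in `F[k]` -/
theorem main {L L' : ℕ} {lam mu : ℕ → ℕ} (h1 : Par L lam) (h2 : Par L' mu) :
    ∃ J : MvPolynomial ℤ (RatFunc F),
      Rep (RatFunc.X : RatFunc F) lam mu (BB RatFunc.X L L' lam mu) J ∧
      ∀ m, ∃ p : F[X], Afac (RatFunc.X : RatFunc F) L lam * Afac RatFunc.X L' mu * J.coeff m =
        algebraMap F[X] (RatFunc F) p := by
  have hA : StepA (Rk F) (RatFunc.X : RatFunc F) :=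
    S10 (Rk F) X_irrat X_mem_Rk Xinv_mem_Rk rat_mem_Rk
  have hS : SmallN (RatFunc.X : RatFunc F) :=
    fun L L' lam mu a b c d s J hJ N hN => S7 a b c d hJ hN
  have hP := S8 (Rk F) X_irrat X_mem_Rk Xinv_mem_Rk rat_mem_Rk hA hS _ L lam h1 rfl
  have hQ := S8 (Rk F) X_irrat X_mem_Rk Xinv_mem_Rk rat_mem_Rk hA hS _ L' mu h2 rfl
  obtain ⟨J, hJ, hi⟩ := hA L L' lam mu h1 h2 hP hQ
  exact ⟨J, hJ, poly_of_int h1.anti h2.anti hJ hi⟩

end JLQ
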