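import Pool.Agent.JLQ.S8
import Pool.Agent.JLQ.S10
import Pool.Agent.JLQ.S7F
import Pool.Agent.JLQ.FA

/-! Integrality over `F[k]` of `A(λ) A(μ) B(λ,μ) P_{λ,μ}`. -/

namespace JLQ

open Finset AddMonoidAlgebra H83JL Polynomial

lemma Par_zero34 (lam : ℕ → ℕ) (L : ℕ) (h : Par L lam) : ∀ i, L ≤ i → lam i = 0 := h.zero

theorem main34 {F : Type*} [Field F] [CharZero F] {L L' : ℕ} {lam mu : ℕ → ℕ}
    (hla : Par L lam) (hmu : Par L' mu) :
    ∃ J : MvPolynomial ℤ (RatFunc F),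
      Rep (RatFunc.X : RatFunc F) lam mu (BB (RatFunc.X : RatFunc F) L L' lam mu) J ∧
      ∀ m, ∃ p : F[X], (MvPolynomial.C (Afac (RatFunc.X : RatFunc F) L lam *
        Afac (RatFunc.X : RatFunc F) L' mu) * J).coeff m = algebraMap F[X] (RatFunc F) p := by
  have : CharZero (RatFunc F) := by
    exact charZero_of_injective_algebraMap (R := F[X]) (RatFunc.algebraMap_injective F)
  have hk : ∀ q : ℚ, (q : RatFunc F) ≠ RatFunc.X := X_irrat
  have hSA : StepA (Rk F) (RatFunc.X : RatFunc F) :=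
    S10 (Rk F) hk X_mem_Rk Xinv_mem_Rk rat_mem_Rk
  have hSN : SmallN (RatFunc.X : RatFunc F) := by
    intro L L' lam mu h1 h2 h3 h4 s J hJ N hN
    exact S7 h1 h2 h3 h4 hJ hN
  have hS8 := S8 (Rk F) hk X_mem_Rk Xinv_mem_Rk rat_mem_Rk hSA hSN
  obtain ⟨J, ⟨N0, hJ⟩, hR⟩ := hSA L L' lam mu hla hmu (hS8 _ L lam hla rfl) (hS8 _ L' mu hmu rfl)
  refine ⟨J, ⟨N0, hJ⟩, fun m => inter_RO (hR m) ?_⟩
  -- regularity at zero
  have hnat : ∀ n : ℕ, (n : RatFunc F) ∈ Ok F := fun n => natCast_mem _ n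
  have hB : ∀ N : ℕ, (BB (RatFunc.X : RatFunc F) L L' lam mu).eval (N : RatFunc F) ∈ Ok F := by
    intro N
    rw [BB, Polynomial.eval_prod]
    refine prod_mem fun i _ => ?_
    rw [Polynomial.eval_prod]
    refine prod_mem fun u _ => ?_
    rw [ff]
    simp only [eval_add, eval_mul, eval_sub, eval_natCast, eval_C, eval_X]
    exact add_mem (add_mem (hnat _) (hnat _)) (mul_mem X_mem_Ok (sub_mem
      (add_mem (hnat _) (hnat _)) (hnat _)))
  have hA : ∀ (L : ℕ) (lam : ℕ → ℕ), Afac (RatFunc.X : RatFunc F) L lam ∈ Ok F := by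
    intro L lam
    rw [Afac]
    refine prod_mem fun i _ => prod_mem fun j _ => ?_
    exact add_mem (sub_mem (sub_mem (hnat _) (hnat _)) (one_mem _))
      (mul_mem X_mem_Ok (sub_mem (hnat _) (hnat _)))
  have hrat : ∀ q : ℚ, (q : RatFunc F) ∈ Ok F := by
    intro q
    exact ⟨Polynomial.C (q : F), 1, by simp, by rw [rat_eq]; simp⟩
  have hJO : ∀ m, J.coeff m ∈ Ok F := by
    intro m
    refine coeff_mem (Ok F).toAddSubgroup (fun q c hc => (Ok F).mul_mem (hrat q) hc) J N0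
      (fun N hN η => ?_) m
    obtain ⟨h1, h2⟩ := hJ N hN
    exact eig_reg X_mem_Ok (fun n m hn => unit_Ok n m hn) (chi_antitone hla.anti hmu.anti) h1
      (by rw [h2]; exact hB N) η
  rw [MvPolynomial.coeff_C_mul]
  exact mul_mem (mul_mem (hA _ _) (hA _ _)) (hJO m)

end JLQ
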