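import Pool.Agent.H83JL.CMS

/-! Structure of the second integral on monomials in the power sums. -/

namespace JLQ

open Finset AddMonoidAlgebra H83JL

variable {K : Type*} [Field K]

lemma hh_mul {N : ℕ} {i j : Fin N} (hij : i ≠ j) {f g : Lau K N} (hf : Sym f) (hg : Sym g) :
    hh (f * g) i j = hh f i j * g + f * hh g i j := by
  have e1 : DD i j (euler i (f * g)) = DD i j (euler i f) * g + f * DD i j (euler i g) := by
    rw [euler_mul, map_add, DD_mul_sym hij _ _ hg, mul_comm f (euler i g),
      DD_mul_sym hij _ _ hf, mul_comm f]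
  have e2 : DD j i (euler j (f * g)) = DD j i (euler j f) * g + f * DD j i (euler j g) := by
    rw [euler_mul, map_add, DD_mul_sym hij.symm _ _ hg, mul_comm f (euler j g),
      DD_mul_sym hij.symm _ _ hf, mul_comm f]
  rw [hh, e1, e2, hh, hh]
  ring

lemma Sym_mul {N : ℕ} {f g : Lau K N} (hf : Sym f) (hg : Sym g) : Sym (f * g) := by
  intro σ
  rw [map_mul, hf σ, hg σ]

/-- Leibniz rule -/
theorem II2_mul {N : ℕ} (k : K) {f g : Lau K N} (hf : Sym f) (hg : Sym g) :
    II k N 2 (f * g) = II k N 2 f * g + f * II k N 2 g +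
      (2 : K) • ∑ i, euler i f * euler i g := by
  rw [II_two k (Sym_mul hf hg), II_two k hf, II_two k hg]
  have e1 : ∀ i : Fin N, euler i (euler i (f * g)) =
      euler i (euler i f) * g + f * euler i (euler i g) + (2 : K) • (euler i f * euler i g) := by
    intro i
    rw [euler_mul, map_add, euler_mul, euler_mul, two_smul]
    ring
  have e2 : ∑ i : Fin N, ∑ j ∈ Ioi i, hh (f * g) i j =
      (∑ i : Fin N, ∑ j ∈ Ioi i, hh f i j) * g + f * ∑ i : Fin N, ∑ j ∈ Ioi i, hh g i j := by
    rw [Finset.sum_mul, Finset.mul_sum, ← Finset.sum_add_distrib]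
    refine Finset.sum_congr rfl fun i _ => ?_
    rw [Finset.sum_mul, Finset.mul_sum, ← Finset.sum_add_distrib]
    refine Finset.sum_congr rfl fun j hj => ?_
    rw [mem_Ioi] at hj
    exact hh_mul hj.ne hf hg
  rw [e2, Finset.sum_congr rfl fun i _ => e1 i, Finset.sum_add_distrib, Finset.sum_add_distrib,
    ← Finset.sum_mul, ← Finset.mul_sum, ← Finset.smul_sum, smul_add, sub_mul, mul_sub,
    smul_mul_assoc, mul_smul_comm]
  abel

lemma perm_psum' {N : ℕ} (a : ℤ) : Sym (psum K N a) := fun σ => perm_psum σ a

/-- the second integral of a power sum -/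
theorem II2_psum {N : ℕ} (k : K) (a : ℤ) :
    II k N 2 (psum K N a) = ((a : K) ^ 2) • psum K N a -
      (k * (a.natAbs : K)) • ∑ s ∈ range a.natAbs,
        (psum K N (a.sign * s) * psum K N (a - a.sign * s) - psum K N a) := by
  have hS : Sym (psum K N a) := perm_psum' a
  have h0 : II k N 2 (psum K N a) = ∑ i, (euler i (euler i (psum K N a)) -
      k • ∑ j ∈ univ.erase i, DD i j (euler i (psum K N a))) := by
    rw [II, LinearMap.sum_apply]
    refine Finset.sum_congr rfl fun i _ => ?_
    rw [pow_two, Module.End.mul_apply, dun_sym k i hS, dun_apply]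
  have h1 : ∀ i : Fin N, euler i (euler i (psum K N a)) = ((a : K) ^ 2) • xp K i a := by
    intro i
    rw [euler_psum, map_smul, euler_xp, if_pos rfl, smul_smul, pow_two]
  have key : ∀ (i : Fin N) (b c : ℤ), ∑ j ∈ univ.erase i, xp K i b * xp K j c =
      xp K i b * psum K N c - xp K i (b + c) := by
    intro i b c
    rw [← Finset.mul_sum, psum, ← Finset.add_sum_erase _ _ (mem_univ i), mul_add, xp_mul]
    ring
  have h2 : ∀ i : Fin N, (∑ j ∈ univ.erase i, DD i j (euler i (psum K N a)) : Lau K N) =
      ((a.natAbs : K)) • ∑ s ∈ range a.natAbs,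
        (xp K i (if 0 < a then a - s else a.sign * s) *
          psum K N (if 0 < a then (s : ℤ) else a - a.sign * s) - xp K i a) := by
    intro i
    rw [euler_psum]
    simp only [map_smul, ← Finset.smul_sum]
    rcases lt_trichotomy a 0 with ha | ha | ha
    · obtain ⟨b, hb⟩ := Int.eq_ofNat_of_zero_le (show 0 ≤ -a by omega)
      have ha' : a = -(b : ℤ) := by omega
      have hs : a.sign = -1 := Int.sign_eq_neg_one_of_neg ha
      have hn : a.natAbs = b := by omega
      rw [hs, hn]
      have e : ∑ j ∈ univ.erase i, DD i j (xp K i a) =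
          - ∑ s ∈ range b, (xp K i (-s : ℤ) * psum K N (s - b : ℤ) - xp K i a) := by
        have : ∀ j ∈ univ.erase i, DD i j (xp K i a) =
            -∑ s ∈ range b, xp K i (-s : ℤ) * xp K j (s - b : ℤ) := by
          intro j hj
          simp only [mem_erase, mem_univ, and_true] at hj
          rw [ha']
          exact DD_xp_neg (Ne.symm hj) b
        rw [Finset.sum_congr rfl this, Finset.sum_neg_distrib, Finset.sum_comm]
        congr 1
        refine Finset.sum_congr rfl fun s _ => ?_
        rw [key]
        congr 2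
        rw [ha']; ring
      rw [e, ha']
      push_cast
      rw [neg_smul, smul_neg, neg_neg]
      congr 1
      refine Finset.sum_congr rfl fun s _ => ?_
      rw [if_neg (by omega), if_neg (by omega)]
      have e1 : (-1 : ℤ) * (s : ℤ) = -s := by ring
      rw [e1]
      have e2 : (-(b : ℤ) - -(s : ℤ)) = s - b := by ring
      rw [e2]
    · subst ha; simp
    · obtain ⟨b, hb⟩ := Int.eq_ofNat_of_zero_le ha.le
      have hs : a.sign = 1 := Int.sign_eq_one_of_pos ha
      have hn : a.natAbs = b := by omega
      rw [hs, hn]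
      have e : ∑ j ∈ univ.erase i, DD i j (xp K i a) =
          ∑ s ∈ range b, (xp K i (b - s : ℤ) * psum K N (s : ℤ) - xp K i a) := by
        have : ∀ j ∈ univ.erase i, DD i j (xp K i a) =
            ∑ s ∈ range b, xp K i (b - s : ℤ) * xp K j s := by
          intro j hj
          simp only [mem_erase, mem_univ, and_true] at hj
          rw [hb]
          exact DD_xp_nat (Ne.symm hj) b
        rw [Finset.sum_congr rfl this, Finset.sum_comm]
        refine Finset.sum_congr rfl fun s _ => ?_
        rw [key]
        congr 2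
        rw [hb]; ring
      rw [e, hb]
      push_cast
      congr 1
      refine Finset.sum_congr rfl fun s _ => ?_
      rw [if_pos (by omega), if_pos (by omega)]
  rw [h0, Finset.sum_congr rfl fun i _ => by rw [h1 i, h2 i]]
  rw [Finset.sum_sub_distrib, ← Finset.smul_sum, ← Finset.smul_sum, ← Finset.smul_sum, smul_smul]
  congr 2
  rw [Finset.sum_comm]
  refine Finset.sum_congr rfl fun s _ => ?_
  rw [Finset.sum_sub_distrib, ← Finset.sum_mul]
  split_ifs with h
  · rw [Int.sign_eq_one_of_pos h, one_mul]
    show psum K N (a - s) * psum K N s - psum K N a = _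
    rw [mul_comm]
  · rfl

end JLQ
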