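import Pool.Agent.JLQ.S1

/-! Structure theorem for the second integral on monomials. -/

namespace JLQ

open Finset AddMonoidAlgebra H83JL

variable {K : Type*} [Field K]

/-- the degree `∑ |a| m(a)` -/
def dg (m : ℤ →₀ ℕ) : ℕ := m.sum fun a e => a.natAbs * e

lemma dg_add (m m' : ℤ →₀ ℕ) : dg (m + m') = dg m + dg m' := by
  unfold dg
  rw [Finsupp.sum_add_index']
  · intro a; simp
  · intro a b c; ring

lemma dg_single (a : ℤ) (e : ℕ) : dg (Finsupp.single a e) = a.natAbs * e := by
  unfold dg
  rw [Finsupp.sum_single_index]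
  simp

/-- polynomials with coefficients in `A`, supported on degree `n`, exponent `z` of `p_0` -/
def TS (A : Subring K) (n z : ℕ) : AddSubgroup (MvPolynomial ℤ K) where
  carrier := {f | ∀ m, f.coeff m ∈ A ∧ (f.coeff m ≠ 0 → dg m = n ∧ m 0 = z)}
  zero_mem' := by intro m; simp
  add_mem' := by
    intro f g hf hg m
    refine ⟨by rw [MvPolynomial.coeff_add]; exact add_mem (hf m).1 (hg m).1, fun h => ?_⟩
    by_cases h1 : f.coeff m = 0
    · apply (hg m).2
      intro h2; apply h; rw [MvPolynomial.coeff_add, h1, h2, add_zero]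
    · exact (hf m).2 h1
  neg_mem' := by
    intro f hf m
    rw [MvPolynomial.coeff_neg]
    exact ⟨neg_mem (hf m).1, fun h => (hf m).2 (by simpa using h)⟩

/-- polynomials with coefficients in `A`, supported on degrees `< n` -/
def US (A : Subring K) (n : ℕ) : AddSubgroup (MvPolynomial ℤ K) where
  carrier := {f | ∀ m, f.coeff m ∈ A ∧ (f.coeff m ≠ 0 → dg m < n)}
  zero_mem' := by intro m; simp
  add_mem' := by
    intro f g hf hg m
    refine ⟨by rw [MvPolynomial.coeff_add]; exact add_mem (hf m).1 (hg m).1, fun h => ?_⟩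
    by_cases h1 : f.coeff m = 0
    · apply (hg m).2
      intro h2; apply h; rw [MvPolynomial.coeff_add, h1, h2, add_zero]
    · exact (hf m).2 h1
  neg_mem' := by
    intro f hf m
    rw [MvPolynomial.coeff_neg]
    exact ⟨neg_mem (hf m).1, fun h => (hf m).2 (by simpa using h)⟩

lemma mono_TS (A : Subring K) (m : ℤ →₀ ℕ) {c : K} (hc : c ∈ A) {n z : ℕ} (h1 : dg m = n)
    (h2 : m 0 = z) : MvPolynomial.monomial m c ∈ TS A n z := by
  classical
  intro m'
  rw [MvPolynomial.coeff_monomial]
  split_ifs with h
  · subst h; exact ⟨hc, fun _ => ⟨h1, h2⟩⟩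
  · exact ⟨zero_mem _, fun h => absurd rfl h⟩

lemma mono_US (A : Subring K) (m : ℤ →₀ ℕ) {c : K} (hc : c ∈ A) {n : ℕ} (h1 : dg m < n) :
    MvPolynomial.monomial m c ∈ US A n := by
  classical
  intro m'
  rw [MvPolynomial.coeff_monomial]
  split_ifs with h
  · subst h; exact ⟨hc, fun _ => h1⟩
  · exact ⟨zero_mem _, fun h => absurd rfl h⟩

/-- multiplication by a monomial -/
lemma TS_mul (A : Subring K) (m : ℤ →₀ ℕ) {c : K} (hc : c ∈ A) {n z : ℕ}
    {f : MvPolynomial ℤ K} (hf : f ∈ TS A n z) :
    f * MvPolynomial.monomial m c ∈ TS A (n + dg m) (z + m 0) := by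
  classical
  intro m'
  rw [MvPolynomial.coeff_mul_monomial']
  split_ifs with h
  · refine ⟨mul_mem (hf _).1 hc, fun h0 => ?_⟩
    have h1 := (hf (m' - m)).2 (left_ne_zero_of_mul h0)
    have h2 : m' = (m' - m) + m := (tsub_add_cancel_of_le h).symm
    rw [h2, dg_add, Finsupp.add_apply, h1.1, h1.2]
    exact ⟨rfl, rfl⟩
  · exact ⟨zero_mem _, fun h => absurd rfl h⟩

lemma US_mul (A : Subring K) (m : ℤ →₀ ℕ) {c : K} (hc : c ∈ A) {n : ℕ}
    {f : MvPolynomial ℤ K} (hf : f ∈ US A n) :
    f * MvPolynomial.monomial m c ∈ US A (n + dg m) := by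
  classical
  intro m'
  rw [MvPolynomial.coeff_mul_monomial']
  split_ifs with h
  · refine ⟨mul_mem (hf _).1 hc, fun h0 => ?_⟩
    have h1 := (hf (m' - m)).2 (left_ne_zero_of_mul h0)
    have h2 : m' = (m' - m) + m := (tsub_add_cancel_of_le h).symm
    rw [h2, dg_add]
    omega
  · exact ⟨zero_mem _, fun h => absurd rfl h⟩

lemma sup_mul (A : Subring K) (m : ℤ →₀ ℕ) {c : K} (hc : c ∈ A) {n z : ℕ}
    {f : MvPolynomial ℤ K} (hf : f ∈ TS A n z ⊔ US A n) :
    f * MvPolynomial.monomial m c ∈ TS A (n + dg m) (z + m 0) ⊔ US A (n + dg m) := by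
  obtain ⟨t, ht, u, hu, rfl⟩ := AddSubgroup.mem_sup.1 hf
  rw [add_mul]
  exact AddSubgroup.mem_sup.2 ⟨_, TS_mul A m hc ht, _, US_mul A m hc hu, rfl⟩

/-- the derivation `p_b ↦ b p_{a+b}` -/
noncomputable def der (K : Type*) [Field K] (a : ℤ) :
    Derivation K (MvPolynomial ℤ K) (MvPolynomial ℤ K) :=
  MvPolynomial.mkDerivation K (fun b : ℤ => (b : K) • MvPolynomial.X (a + b))

lemma der_spec (a : ℤ) (F : MvPolynomial ℤ K) (N : ℕ) :
    ∑ i, euler i (phi K N F) * xp K i a = phi K N (der K a F) := by
  induction F using MvPolynomial.induction_on with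
  | C c =>
    have h : ∀ i : Fin N, euler i (phi K N (MvPolynomial.C c)) = 0 := by
      intro i
      rw [phi, MvPolynomial.aeval_C]
      show euler i (single 0 c) = 0
      rw [euler_single]; simp
    simp only [h, zero_mul, Finset.sum_const_zero]
    have : der K a (MvPolynomial.C c) = 0 := by
      rw [← MvPolynomial.algebraMap_eq, Derivation.map_algebraMap]
    rw [this, map_zero]
  | add f g hf hg =>
    rw [map_add, map_add, map_add, ← hf, ← hg, ← Finset.sum_add_distrib]
    refine Finset.sum_congr rfl fun i _ => ?_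
    rw [map_add, add_mul]
  | mul_X f b hf =>
    have hX : der K a (MvPolynomial.X b) = (b : K) • MvPolynomial.X (a + b) := by
      rw [der, MvPolynomial.mkDerivation_X]
    have hD : der K a (f * MvPolynomial.X b) = f * ((b : K) • MvPolynomial.X (a + b)) +
        MvPolynomial.X b * der K a f := by
      rw [Derivation.leibniz, smul_eq_mul, smul_eq_mul, hX]
    have : ∀ i : Fin N, euler i (phi K N (f * MvPolynomial.X b)) * xp K i a =
        psum K N b * (euler i (phi K N f) * xp K i a) +
          phi K N f * ((b : K) • xp K i (a + b)) := by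
      intro i
      rw [map_mul, euler_mul, phi_X, euler_psum, add_mul, mul_assoc, mul_assoc, smul_mul_assoc,
        xp_mul, add_comm b a]
      ring
    rw [Finset.sum_congr rfl fun i _ => this i, Finset.sum_add_distrib, ← Finset.mul_sum,
      ← Finset.mul_sum, ← Finset.smul_sum, hD, map_add, map_mul, map_mul, ← hf, map_smul, phi_X,
      phi_X]
    rw [add_comm]
    rfl

lemma der_mem (A : Subring K) (a : ℤ) (m : ℤ →₀ ℕ) :
    der K a (MvPolynomial.monomial m 1) ∈
      TS A (dg m + a.natAbs) (m 0) ⊔ US A (dg m + a.natAbs) := by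
  rw [der, MvPolynomial.mkDerivation_monomial, one_smul, Finsupp.sum]
  refine sum_mem fun b hb => ?_
  have hbm : 1 ≤ m b := Nat.one_le_iff_ne_zero.2 (Finsupp.mem_support_iff.1 hb)
  have e : MvPolynomial.monomial (m - Finsupp.single b 1) ((m b : ℕ) : K) •
      ((b : K) • MvPolynomial.X (R := K) (a + b)) =
      MvPolynomial.monomial (m - Finsupp.single b 1 + Finsupp.single (a + b) 1)
        (((m b * b : ℤ)) : K) := by
    rw [smul_eq_mul, mul_smul_comm, MvPolynomial.X, MvPolynomial.monomial_mul,
      MvPolynomial.smul_monomial]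
    congr 1
    push_cast
    rw [smul_eq_mul]; ring
  rw [e]
  have hle : Finsupp.single b 1 ≤ m := by
    rw [Finsupp.single_le_iff]; exact hbm
  have hdm : dg (m - Finsupp.single b 1) + b.natAbs = dg m := by
    have := dg_add (m - Finsupp.single b 1) (Finsupp.single b 1)
    rw [tsub_add_cancel_of_le hle, dg_single, mul_one] at this
    exact this.symm
  have hc : (((m b * b : ℤ)) : K) ∈ A := intCast_mem A _
  by_cases hb0 : b = 0
  · subst hb0; simp [zero_mem]
  by_cases hs : (a + b).natAbs = a.natAbs + b.natAbs
  · refine AddSubgroup.mem_sup_left (mono_TS A _ hc ?_ ?_)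
    · rw [dg_add, dg_single]; omega
    · have h1 : a + b ≠ 0 := by omega
      rw [Finsupp.add_apply, Finsupp.tsub_apply, Finsupp.single_eq_of_ne (Ne.symm hb0),
        Finsupp.single_eq_of_ne (Ne.symm h1)]
      rfl
  · refine AddSubgroup.mem_sup_right (mono_US A _ hc ?_)
    rw [dg_add, dg_single]
    omega

/-- the integral of a power sum, stable form -/
lemma II2_X (A : Subring K) {k : K} (hk : k ∈ A) (a : ℤ) (ha : a ≠ 0) :
    ∃ V ∈ TS A a.natAbs 0 ⊔ US A a.natAbs, ∀ N, II k N 2 (phi K N (MvPolynomial.X a)) =
      phi K N (MvPolynomial.monomial (Finsupp.single a 1 + Finsupp.single 0 1)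
        (-(k * (a.natAbs : K))) + V) := by
  have hn : 0 < a.natAbs := Int.natAbs_pos.2 ha
  refine ⟨MvPolynomial.monomial (Finsupp.single a 1) ((a : K) ^ 2) +
    MvPolynomial.monomial (Finsupp.single a 1) (k * (a.natAbs : K) * (a.natAbs : K)) +
    ∑ s ∈ Finset.Ioo 0 a.natAbs, MvPolynomial.monomial
      (Finsupp.single (a.sign * s) 1 + Finsupp.single (a - a.sign * s) 1)
      (-(k * (a.natAbs : K))), ?_, ?_⟩
  · refine AddSubgroup.mem_sup_left (add_mem (add_mem ?_ ?_) (sum_mem fun s hs => ?_))
    · refine mono_TS A _ (pow_mem (intCast_mem A a) 2) (by rw [dg_single, mul_one]) ?_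
      rw [Finsupp.single_eq_of_ne (Ne.symm ha)]
    · refine mono_TS A _ (mul_mem (mul_mem hk (natCast_mem A _)) (natCast_mem A _))
        (by rw [dg_single, mul_one]) ?_
      rw [Finsupp.single_eq_of_ne (Ne.symm ha)]
    · rw [mem_Ioo] at hs
      have h1 : a.sign * s ≠ 0 := by
        rcases lt_or_gt_of_ne ha with h | h
        · rw [Int.sign_eq_neg_one_of_neg h]; omega
        · rw [Int.sign_eq_one_of_pos h]; omega
      have h2 : a - a.sign * s ≠ 0 := by
        rcases lt_or_gt_of_ne ha with h | h
        · rw [Int.sign_eq_neg_one_of_neg h]; omega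
        · rw [Int.sign_eq_one_of_pos h]; omega
      refine mono_TS A _ (neg_mem (mul_mem hk (natCast_mem A _))) ?_ ?_
      · rw [dg_add, dg_single, dg_single, mul_one, mul_one]
        rcases lt_or_gt_of_ne ha with h | h
        · rw [Int.sign_eq_neg_one_of_neg h]; omega
        · rw [Int.sign_eq_one_of_pos h]; omega
      · rw [Finsupp.add_apply, Finsupp.single_eq_of_ne (Ne.symm h1),
          Finsupp.single_eq_of_ne (Ne.symm h2)]
        rfl
  · intro N
    rw [phi_X, II2_psum, map_add, map_add, map_add, map_sum]
    have hm : ∀ (b : ℤ) (c : K), phi K N (MvPolynomial.monomial (Finsupp.single b 1) c) =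
        c • psum K N b := by
      intro b c
      have : MvPolynomial.monomial (Finsupp.single b 1) c = c • MvPolynomial.X (R := K) b := by
        rw [MvPolynomial.X, MvPolynomial.smul_monomial, smul_eq_mul, mul_one]
      rw [this, map_smul, phi_X]
    have hm2 : ∀ (b d : ℤ) (c : K), phi K N (MvPolynomial.monomial
        (Finsupp.single b 1 + Finsupp.single d 1) c) = c • (psum K N b * psum K N d) := by
      intro b d c
      have : MvPolynomial.monomial (Finsupp.single b 1 + Finsupp.single d 1) c =
          c • (MvPolynomial.X (R := K) b * MvPolynomial.X d) := by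
        rw [MvPolynomial.X, MvPolynomial.X, MvPolynomial.monomial_mul, MvPolynomial.smul_monomial,
          smul_eq_mul, mul_one, mul_one]
      rw [this, map_smul, map_mul, phi_X, phi_X]
    rw [hm, hm, hm2]
    simp only [hm2]
    have hr : range a.natAbs = insert 0 (Finset.Ioo 0 a.natAbs) := by
      ext s; simp only [mem_range, mem_insert, mem_Ioo]; omega
    rw [Finset.sum_sub_distrib, Finset.sum_const, card_range, hr,
      Finset.sum_insert (by simp), ← Finset.smul_sum, ← Nat.cast_smul_eq_nsmul K, smul_sub,
      smul_add, smul_smul]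
    simp only [Nat.cast_zero, mul_zero, sub_zero, neg_smul]
    rw [mul_comm (psum K N a) (psum K N 0)]
    abel

/-- **Structure theorem.** -/
theorem struct (A : Subring K) {k : K} (hk : k ∈ A) (m : ℤ →₀ ℕ) :
    ∃ V ∈ TS A (dg m) (m 0) ⊔ US A (dg m), ∀ N,
      II k N 2 (phi K N (MvPolynomial.monomial m 1)) =
      phi K N (MvPolynomial.monomial (m + Finsupp.single 0 1) (-(k * (dg m : K))) + V) := by
  obtain ⟨s, rfl⟩ : ∃ s : Multiset ℤ, m = Multiset.toFinsupp s :=
    ⟨Finsupp.toMultiset m, by simp⟩
  induction s using Multiset.induction with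
  | empty =>
    refine ⟨0, zero_mem _, fun N => ?_⟩
    rw [map_zero]
    have h1 : phi K N (MvPolynomial.monomial 0 1) = 1 := by
      have : (MvPolynomial.monomial (0 : ℤ →₀ ℕ) (1 : K)) = 1 := rfl
      rw [this, map_one]
    have h2 : dg (0 : ℤ →₀ ℕ) = 0 := by simp [dg]
    rw [h1, h2]
    simp only [Nat.cast_zero, mul_zero, neg_zero, map_zero, add_zero]
    have hs : Sym (1 : Lau K N) := fun σ => by rw [map_one]
    have he : ∀ i : Fin N, euler i (1 : Lau K N) = 0 := by
      intro i
      rw [AddMonoidAlgebra.one_def, euler_single]; simp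
    rw [II, LinearMap.sum_apply]
    refine Finset.sum_eq_zero fun i _ => ?_
    rw [pow_two, Module.End.mul_apply, dun_sym k i hs, he, map_zero]
  | cons a s ih =>
    obtain ⟨V, hV, hVN⟩ := ih
    set m := Multiset.toFinsupp s with hm
    have hcons : Multiset.toFinsupp (a ::ₘ s) = m + Finsupp.single a 1 := by
      rw [← Multiset.singleton_add, map_add, Multiset.toFinsupp_singleton, add_comm]
    rw [hcons]
    have hmono : MvPolynomial.monomial (m + Finsupp.single a 1) (1 : K) =
        MvPolynomial.monomial m 1 * MvPolynomial.X a := by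
      rw [MvPolynomial.X, MvPolynomial.monomial_mul, mul_one]
    have hX : MvPolynomial.X a = MvPolynomial.monomial (Finsupp.single a 1) (1 : K) := rfl
    by_cases ha : a = 0
    · subst ha
      refine ⟨V * MvPolynomial.X 0, ?_, fun N => ?_⟩
      · have := sup_mul A (Finsupp.single 0 1) (one_mem A) hV
        rw [hX]
        convert this using 2
        all_goals simp [dg_add, dg_single]
      · have hN : ∀ f : MvPolynomial ℤ K, phi K N (f * MvPolynomial.X 0) =
            (N : K) • phi K N f := by
          intro f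
          rw [map_mul, phi_X, psum_zero, mul_comm]
          rw [Algebra.smul_def]
          simp
        rw [hmono, hN, map_smul, hVN, map_add, map_add, hN, smul_add]
        congr 1
        have e : MvPolynomial.monomial (m + Finsupp.single 0 1 + Finsupp.single 0 1)
            (-(k * (dg (m + Finsupp.single 0 1) : K))) =
            MvPolynomial.monomial (m + Finsupp.single 0 1) (-(k * (dg m : K))) *
              MvPolynomial.X 0 := by
          rw [MvPolynomial.X, MvPolynomial.monomial_mul, mul_one, dg_add, dg_single]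
          simp
        rw [e, hN]
    · obtain ⟨V', hV', hV'N⟩ := II2_X A hk a ha
      refine ⟨V * MvPolynomial.X a + MvPolynomial.monomial m 1 * V' +
        (2 * a : K) • der K a (MvPolynomial.monomial m 1), ?_, fun N => ?_⟩
      · have hd : dg (m + Finsupp.single a 1) = dg m + a.natAbs := by
          rw [dg_add, dg_single, mul_one]
        have h0 : (m + Finsupp.single a 1 : ℤ →₀ ℕ) 0 = m 0 := by
          rw [Finsupp.add_apply, Finsupp.single_eq_of_ne (Ne.symm ha)]; rfl
        rw [hd, h0]
        refine add_mem (add_mem ?_ ?_) ?_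
        · have := sup_mul A (Finsupp.single a 1) (one_mem A) hV
          rw [dg_single, mul_one, Finsupp.single_eq_of_ne (Ne.symm ha)] at this
          exact this
        · have := sup_mul A m (one_mem A) hV'
          rw [zero_add, add_comm a.natAbs] at this
          rw [mul_comm]
          exact this
        · have h1 := der_mem A a m
          have e : (2 * a : K) • der K a (MvPolynomial.monomial m 1) =
              (2 * a : ℤ) • der K a (MvPolynomial.monomial m 1) := by
            rw [← Int.cast_smul_eq_zsmul K]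
            push_cast
            rfl
          rw [e]
          exact zsmul_mem h1 _
      · rw [hmono, map_mul, II2_mul k (phi_sym N _) (phi_sym N _), hVN, hV'N]
        have e1 : ∑ i : Fin N, euler i (phi K N (MvPolynomial.monomial m 1)) *
            euler i (phi K N (MvPolynomial.X a)) =
            (a : K) • phi K N (der K a (MvPolynomial.monomial m 1)) := by
          rw [← der_spec, Finset.smul_sum]
          refine Finset.sum_congr rfl fun i _ => ?_
          rw [phi_X, euler_psum, mul_smul_comm]
        have e2 : MvPolynomial.monomial (m + Finsupp.single a 1 + Finsupp.single 0 1)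
            (-(k * (dg (m + Finsupp.single a 1) : K))) =
            MvPolynomial.monomial (m + Finsupp.single 0 1) (-(k * (dg m : K))) *
              MvPolynomial.X a +
            MvPolynomial.monomial m 1 * MvPolynomial.monomial
              (Finsupp.single a 1 + Finsupp.single 0 1) (-(k * (a.natAbs : K))) := by
          rw [MvPolynomial.X, MvPolynomial.monomial_mul, MvPolynomial.monomial_mul, mul_one,
            one_mul, dg_add, dg_single]
          have i1 : m + Finsupp.single 0 1 + Finsupp.single a 1 =
              m + Finsupp.single a 1 + Finsupp.single 0 1 := by abel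
          have i2 : m + (Finsupp.single a 1 + Finsupp.single 0 1) =
              m + Finsupp.single a 1 + Finsupp.single 0 1 := by abel
          rw [i1, i2, ← map_add]
          congr 1
          push_cast
          ring
        rw [e1, e2]
        simp only [map_add, map_mul, map_smul]
        rw [smul_smul]
        ring

end JLQ
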