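import Pool.Agent.JLQ.T34

/-! The top part of an eigenfunction factorises (S5). -/

namespace JLQ

open Finset AddMonoidAlgebra H83JL

variable {K : Type*} [Field K] {N : ℕ}

/-- the norm of an exponent -/
def nrm (η : Fin N → ℤ) : ℤ := ∑ i, |η i|

lemma nrm_perm (σ : Equiv.Perm (Fin N)) (η : Fin N → ℤ) :
    nrm (fun i => η (σ i)) = nrm η :=
  Equiv.sum_comp σ (fun i => |η i|)

lemma csum_le_nonneg {χ : Fin N → ℤ} (h0 : ∀ i, 0 ≤ χ i) (m : ℕ) : csum χ m ≤ ∑ i, χ i :=
  Finset.sum_le_sum_of_subset_of_nonneg (Finset.filter_subset _ _) (fun i _ _ => h0 i)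

lemma W_nonneg {χ η : Fin N → ℤ} (h0 : ∀ i, 0 ≤ χ i) (h : η ∈ W χ) (i : Fin N) : 0 ≤ η i := by
  have h1 := h.2 (univ.erase i)
  have h2 := csum_le_nonneg h0 (univ.erase i).card
  have h3 := Finset.add_sum_erase univ η (mem_univ i)
  have h4 := h.1
  linarith

lemma W_nonpos {χ η : Fin N → ℤ} (h0 : ∀ i, χ i ≤ 0) (h : η ∈ W χ) (i : Fin N) : η i ≤ 0 := by
  have h1 := h.2 {i}
  rw [Finset.sum_singleton] at h1
  refine h1.trans ?_
  exact Finset.sum_nonpos fun i _ => h0 i

lemma nrm_le {χ η : Fin N → ℤ} (h : η ∈ W χ) : nrm η ≤ nrm χ := by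
  classical
  have e : ∀ x : ℤ, |x| = 2 * max x 0 - x := by
    intro x
    rcases abs_cases x with h | h <;> rcases max_cases x 0 with h' | h' <;> omega
  have h1 : ∑ i, max (η i) 0 ≤ ∑ i, max (χ i) 0 := by
    have h2 : ∑ i, max (η i) 0 = ∑ i ∈ univ.filter (fun i => 0 < η i), η i := by
      rw [Finset.sum_filter]
      refine Finset.sum_congr rfl fun i _ => ?_
      split_ifs with h
      · exact max_eq_left h.le
      · exact max_eq_right (not_lt.1 h)
    rw [h2]
    refine (h.2 _).trans ?_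
    unfold csum
    refine (Finset.sum_le_sum (fun i _ => le_max_left (χ i) 0)).trans ?_
    exact Finset.sum_le_sum_of_subset_of_nonneg (Finset.filter_subset _ _)
      (fun i _ _ => le_max_right _ _)
  unfold nrm
  simp only [e, Finset.sum_sub_distrib, ← Finset.mul_sum, h.1]
  linarith

lemma clo_nrm (n : ℤ) : Clo {η : Fin N → ℤ | nrm η < n} where
  perm := by
    intro σ η h
    simp only [Set.mem_ofPred_eq] at h ⊢
    rw [nrm_perm]
    exact h
  stp := by
    intro i j s η hij h hs0 hs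
    simp only [Set.mem_ofPred_eq] at h ⊢
    refine lt_of_le_of_lt ?_ h
    have e : ∀ l, |stp i j s η l| = |η l| + (if l = i then (|η i - s| - |η i|) else 0) +
        (if l = j then (|η j + s| - |η j|) else 0) := by
      intro l
      rw [stp_apply]
      by_cases h1 : l = i
      · subst h1
        simp [hij]
      · by_cases h2 : l = j
        · subst h2
          simp [h1]
        · simp [h1, h2]
    unfold nrm
    simp only [e, Finset.sum_add_distrib, Finset.sum_ite_eq', mem_univ, if_true]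
    have : |η i - s| + |η j + s| ≤ |η i| + |η j| := by
      rcases abs_cases (η i - s) with h1 | h1 <;> rcases abs_cases (η j + s) with h2 | h2 <;>
        rcases abs_cases (η i) with h3 | h3 <;> rcases abs_cases (η j) with h4 | h4 <;> omega
    linarith

lemma dun_mul_sym (k : K) (i : Fin N) (u g : H83JL.Lau K N) (hg : H83JL.Sym g) :
    dun k i (u * g) = dun k i u * g + u * euler i g := by
  have h1 : ∑ j ∈ univ.erase i, DD i j (u * g) = (∑ j ∈ univ.erase i, DD i j u) * g := by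
    rw [Finset.sum_mul]
    refine Finset.sum_congr rfl fun j hj => ?_
    simp only [mem_erase, mem_univ, and_true] at hj
    exact DD_mul_sym (Ne.symm hj) _ _ hg
  rw [dun_apply, dun_apply, h1, euler_mul, sub_mul, smul_mul_assoc]
  ring

lemma S5_II2_mul (k : K) {f g : H83JL.Lau K N} (hf : H83JL.Sym f) (hg : H83JL.Sym g) :
    II k N 2 (f * g) = II k N 2 f * g + f * II k N 2 g + 2 * ∑ i, euler i f * euler i g := by
  rw [II, LinearMap.sum_apply, LinearMap.sum_apply, LinearMap.sum_apply, Finset.sum_mul,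
    Finset.mul_sum, Finset.mul_sum, ← Finset.sum_add_distrib, ← Finset.sum_add_distrib]
  refine Finset.sum_congr rfl fun i _ => ?_
  have hfg : H83JL.Sym (f * g) := fun σ => by rw [map_mul, hf, hg]
  simp only [pow_two, Module.End.mul_apply]
  rw [dun_sym k i hfg, dun_sym k i hf, dun_sym k i hg, euler_mul, map_add,
    dun_mul_sym k i _ _ hg, mul_comm f (euler i g), dun_mul_sym k i _ _ hf]
  ring

lemma mul_supp {A B C : Set (Fin N → ℤ)} (h : ∀ a ∈ A, ∀ b ∈ B, a + b ∈ C)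
    {f g : H83JL.Lau K N} (hf : f ∈ supported K K A) (hg : g ∈ supported K K B) :
    f * g ∈ supported K K C := by
  refine supp_induction (P := fun f => f * g ∈ supported K K C) f hf (by simp) ?_ ?_
  · intro f1 f2 h1 h2; rw [add_mul]; exact add_mem h1 h2
  · intro η hη c
    refine supp_induction (P := fun g => single η c * g ∈ supported K K C) g hg (by simp) ?_ ?_
    · intro f1 f2 h1 h2; rw [mul_add]; exact add_mem h1 h2
    · intro η' hη' c'
      rw [single_mul_single]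
      exact single_mem (h _ hη _ hη') _

lemma mul_top {χ χ' : Fin N → ℤ} {f g : H83JL.Lau K N} (hf : f ∈ supported K K (W χ))
    (hg : g ∈ supported K K (W χ')) : (f * g).coeff (χ + χ') = f.coeff χ * g.coeff χ' := by
  classical
  refine supp_induction (P := fun f => (f * g).coeff (χ + χ') = f.coeff χ * g.coeff χ')
    f hf (by simp) ?_ ?_
  · intro f1 f2 h1 h2
    rw [add_mul, coeff_add, Finsupp.add_apply, h1, h2, coeff_add, Finsupp.add_apply, add_mul]
  · intro η hη c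
    refine supp_induction (P := fun g => (single η c * g).coeff (χ + χ') =
      (single η c : H83JL.Lau K N).coeff χ * g.coeff χ') g hg (by simp) ?_ ?_
    · intro f1 f2 h1 h2
      rw [mul_add, coeff_add, Finsupp.add_apply, h1, h2, coeff_add, Finsupp.add_apply, mul_add]
    · intro η' hη' c'
      rw [single_mul_single]
      simp only [coeff_single, Finsupp.single_apply]
      by_cases h : η + η' = χ + χ'
      · obtain ⟨h1, h2⟩ := W_add_eq hη hη' h
        simp [h1, h2]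
      · have : ¬ (η = χ ∧ η' = χ') := by rintro ⟨rfl, rfl⟩; exact h rfl
        rw [if_neg h]
        by_cases h1 : η = χ
        · have h2 : η' ≠ χ' := fun h2 => this ⟨h1, h2⟩
          simp [h2]
        · simp [h1]

lemma nrm_split {χ₁ χ₂ : Fin N → ℤ} (h1 : ∀ i, 0 ≤ χ₁ i) (h2 : ∀ i, χ₂ i ≤ 0)
    (h12 : ∀ i, χ₁ i = 0 ∨ χ₂ i = 0) : nrm (χ₁ + χ₂) = ∑ i, χ₁ i - ∑ i, χ₂ i := by
  unfold nrm
  rw [← Finset.sum_sub_distrib]
  refine Finset.sum_congr rfl fun i _ => ?_
  rw [Pi.add_apply]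
  rcases h12 i with h | h
  · rw [h, zero_add, zero_sub, abs_of_nonpos (h2 i)]
  · rw [h, add_zero, sub_zero, abs_of_nonneg (h1 i)]

lemma cross_mem {χ₁ χ₂ : Fin N → ℤ} (h1 : ∀ i, 0 ≤ χ₁ i) (h2 : ∀ i, χ₂ i ≤ 0)
    (h12 : ∀ i, χ₁ i = 0 ∨ χ₂ i = 0) {F G : H83JL.Lau K N}
    (hF : F ∈ supported K K (W χ₁)) (hG : G ∈ supported K K (W χ₂)) :
    ∑ i, euler i F * euler i G ∈ supported K K {η : Fin N → ℤ | nrm η < nrm (χ₁ + χ₂)} := by
  refine sum_mem fun i _ => ?_
  have hF' : euler i F ∈ supported K K {η | η ∈ W χ₁ ∧ η i ≠ 0} := by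
    rw [mem_supported']
    intro m hm
    rw [euler_coeff]
    by_cases h : m i = 0
    · rw [h]; simp
    · have : m ∉ W χ₁ := fun h' => hm ⟨h', h⟩
      rw [mem_supported'.1 hF m this, mul_zero]
  have hG' : euler i G ∈ supported K K {η | η ∈ W χ₂ ∧ η i ≠ 0} := by
    rw [mem_supported']
    intro m hm
    rw [euler_coeff]
    by_cases h : m i = 0
    · rw [h]; simp
    · have : m ∉ W χ₂ := fun h' => hm ⟨h', h⟩
      rw [mem_supported'.1 hG m this, mul_zero]
  refine mul_supp ?_ hF' hG'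
  rintro a ⟨ha, hai⟩ b ⟨hb, hbi⟩
  simp only [Set.mem_ofPred_eq]
  rw [nrm_split h1 h2 h12, ← ha.1, ← hb.1, ← Finset.sum_sub_distrib]
  unfold nrm
  refine Finset.sum_lt_sum (fun l _ => ?_) ⟨i, mem_univ i, ?_⟩
  · have h3 := W_nonneg h1 ha l
    have h4 := W_nonpos h2 hb l
    rw [Pi.add_apply, abs_le]
    constructor <;> linarith
  · have h3 := W_nonneg h1 ha i
    have h4 := W_nonpos h2 hb i
    have h5 : 0 < a i := lt_of_le_of_ne h3 (Ne.symm hai)
    have h6 : b i < 0 := lt_of_le_of_ne h4 hbi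
    rw [Pi.add_apply, abs_lt]
    constructor <;> linarith

lemma ev_add (k : K) {χ₁ χ₂ : Fin N → ℤ} (h1 : Antitone χ₁) (h2 : Antitone χ₂)
    (h12 : ∀ i, χ₁ i = 0 ∨ χ₂ i = 0) :
    ev k (χ₁ + χ₂) 2 = ev k χ₁ 2 + ev k χ₂ 2 := by
  have hs : ∑ b, (χ₁ + χ₂) b ^ 2 = ∑ b, χ₁ b ^ 2 + ∑ b, χ₂ b ^ 2 := by
    rw [← Finset.sum_add_distrib]
    refine Finset.sum_congr rfl fun b _ => ?_
    rw [Pi.add_apply]
    rcases h12 b with h | h <;> rw [h] <;> ring
  have h3 : Antitone (χ₁ + χ₂) := h1.add h2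
  have hc : cc (χ₁ + χ₂) = cc χ₁ + cc χ₂ := by
    rw [cc_antitone h3, cc_antitone h1, cc_antitone h2]
    simp only [csum_add, Finset.sum_add_distrib, Pi.add_apply]
    ring
  rw [ev_two, ev_two, ev_two, hs, hc]
  push_cast
  ring

/-- **(S5)** -/
theorem top_factor [CharZero K] {k : K} (hk : ∀ q : ℚ, (q : K) ≠ k) {χ₁ χ₂ : Fin N → ℤ}
    (h1 : Antitone χ₁) (h2 : Antitone χ₂) (h1' : ∀ i, 0 ≤ χ₁ i) (h2' : ∀ i, χ₂ i ≤ 0)
    (h12 : ∀ i, χ₁ i = 0 ∨ χ₂ i = 0) {f F G : H83JL.Lau K N} (hf : f ∈ Eig k (χ₁ + χ₂))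
    (hF : F ∈ Eig k χ₁) (hG : G ∈ Eig k χ₂) (η : Fin N → ℤ) (hη : nrm η = nrm (χ₁ + χ₂)) :
    F.coeff χ₁ * G.coeff χ₂ * f.coeff η = f.coeff (χ₁ + χ₂) * (F * G).coeff η := by
  classical
  set χ := χ₁ + χ₂ with hχdef
  have hχ : Antitone χ := h1.add h2
  set a := F.coeff χ₁ * G.coeff χ₂ with ha
  set b := f.coeff χ with hb
  have hFG : F * G ∈ VV K χ := by
    refine ⟨mul_supp (fun a ha b hb => W_add ha hb) hF.1.1 hG.1.1, fun σ => ?_⟩
    rw [map_mul, hF.1.2, hG.1.2]
  set D := a • f - b • (F * G) with hD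
  have hDV : D ∈ VV K χ := sub_mem (Submodule.smul_mem _ _ hf.1) (Submodule.smul_mem _ _ hFG)
  have hDχ : D.coeff χ = 0 := by
    have : (F * G).coeff χ = a := mul_top hF.1.1 hG.1.1
    rw [hD, coeff_sub, Finsupp.sub_apply, coeff_smul, coeff_smul, Finsupp.smul_apply,
      Finsupp.smul_apply, smul_eq_mul, smul_eq_mul, this, ← hb]
    ring
  set Γ := ∑ i, euler i F * euler i G with hΓ
  have hΓm := cross_mem h1' h2' h12 hF.1.1 hG.1.1
  rw [← hΓ, ← hχdef] at hΓm
  have hIID : II k N 2 D = ev k χ 2 • D - (2 * b) • Γ := by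
    rw [hD, map_sub, map_smul, map_smul, hf.2, S5_II2_mul k hF.1.2 hG.1.2, hF.2, hG.2, ← hΓ,
      hχdef, ev_add k h1 h2 h12]
    simp only [Algebra.smul_def, map_mul, map_add, map_ofNat]
    ring
  by_contra hcon
  have hne : D.coeff η ≠ 0 := by
    intro h
    apply hcon
    rw [hD, coeff_sub, Finsupp.sub_apply, coeff_smul, coeff_smul, Finsupp.smul_apply,
      Finsupp.smul_apply, smul_eq_mul, smul_eq_mul] at h
    exact sub_eq_zero.1 h
  obtain ⟨ζ, hbad, hanti, h0, hII⟩ := tri_bad k 2 hDV.2 {ζ | nrm ζ = nrm χ}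
    (by
      intro σ ζ hζ
      simp only [Set.mem_ofPred_eq] at hζ ⊢
      rw [nrm_perm, hζ])
    ⟨η, hη, hne⟩
  simp only [Set.mem_ofPred_eq] at hbad
  have hζW : ζ ∈ W χ := by
    by_contra h
    exact h0 (mem_supported'.1 hDV.1 ζ h)
  have hgood : (II k N 2 (restr {ζ | nrm ζ = nrm χ}ᶜ D)).coeff ζ = 0 := by
    have h3 : restr {ζ | nrm ζ = nrm χ}ᶜ D ∈ supported K K {η : Fin N → ℤ | nrm η < nrm χ} := by
      rw [mem_supported']
      intro m hm
      rw [restr_coeff]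
      split_ifs with h
      · by_contra h4
        have h5 : m ∈ W χ := by
          by_contra h6
          exact h4 (mem_supported'.1 hDV.1 m h6)
        exact hm (lt_of_le_of_ne (nrm_le h5) h)
      · rfl
    refine mem_supported'.1 (II_mem (clo_nrm _) k 2 h3) ζ ?_
    simp only [Set.mem_ofPred_eq]
    rw [hbad]
    exact lt_irrefl _
  have hΓζ : Γ.coeff ζ = 0 := by
    refine mem_supported'.1 hΓm ζ ?_
    simp only [Set.mem_ofPred_eq]
    rw [hbad]
    exact lt_irrefl _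
  rw [hgood, add_zero, hIID, coeff_sub, Finsupp.sub_apply, coeff_smul, coeff_smul,
    Finsupp.smul_apply, Finsupp.smul_apply, smul_eq_mul, smul_eq_mul, hΓζ, mul_zero, sub_zero]
    at hII
  have hevne : ev k χ 2 = ev k ζ 2 := mul_right_cancel₀ h0 hII
  have hζχ : ζ = χ := by
    by_contra h
    exact ev_ne hk hχ hanti hζW h hevne.symm
  rw [hζχ] at h0
  exact h0 hDχ

end JLQ
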