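import Pool.Agent.JLQ.Defs8

/-! The first column of the product `A(ν)`. -/

namespace JLQ

open Finset AddMonoidAlgebra H83JL

variable {K : Type*} [Field K]

lemma conj_pred {L : ℕ} {nu lam : ℕ → ℕ} (hlam : ∀ i, lam i = nu i - 1) (j : ℕ) :
    conj L nu (j + 1) = conj L lam j := by
  unfold conj
  congr 1
  ext i
  simp only [mem_filter, mem_range, hlam]
  constructor
  · rintro ⟨h1, h2⟩; exact ⟨h1, by omega⟩
  · rintro ⟨h1, h2⟩; exact ⟨h1, by omega⟩

lemma conj_colm {L' m : ℕ} (hm : m ≤ L') : conj L' (colm m) 0 = m := by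
  unfold conj colm
  have : (range L').filter (fun i => 0 < if i < m then 1 else 0) = range m := by
    ext i
    simp only [mem_filter, mem_range]
    constructor
    · rintro ⟨_, h⟩
      by_contra hcon
      rw [if_neg hcon] at h
      omega
    · intro h
      exact ⟨by omega, by rw [if_pos h]; omega⟩
  rw [this, card_range]

lemma Af_split (k : K) {L : ℕ} {nu lam : ℕ → ℕ} (hν : Antitone nu)
    (hL : ∀ i, L ≤ i → nu i = 0) (hlam : ∀ i, lam i = nu i - 1) :
    Af k L nu = (∏ i ∈ range (conj L nu 0), ((lam i : K) + k * (i - (conj L nu 0 : K)))) *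
      Af k L lam := by
  have h1 : ∀ i ∈ range L, ∏ j ∈ range (nu i),
      ((nu i : K) - (j + 1) + k * (i - (conj L nu j : K))) =
      (if i < conj L nu 0 then ((lam i : K) + k * (i - (conj L nu 0 : K))) else 1) *
        ∏ j ∈ range (lam i), ((lam i : K) - (j + 1) + k * (i - (conj L lam j : K))) := by
    intro i _
    have hc := lt_conj hν hL i 0
    by_cases h0 : 0 < nu i
    · have h2 : nu i = lam i + 1 := by rw [hlam]; omega
      rw [if_pos (hc.2 h0), h2, Finset.prod_range_succ', mul_comm]
      congr 1
      · push_cast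
        ring
      · refine Finset.prod_congr rfl fun j _ => ?_
        rw [conj_pred hlam]
        push_cast
        ring
    · have h2 : nu i = 0 := by omega
      have h3 : lam i = 0 := by rw [hlam]; omega
      rw [if_neg (fun h => h0 (hc.1 h)), h2, h3]
      simp
  have h2 : (range L).filter (fun i => i < conj L nu 0) = range (conj L nu 0) := by
    ext i
    have := conj_le L nu 0
    simp only [mem_filter, mem_range]
    omega
  rw [Af, Finset.prod_congr rfl h1, Finset.prod_mul_distrib, Af, ← Finset.prod_filter, h2]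

/-- row S8a -/
lemma Af_col (A : Subring K) {k : K} (hk : k ∈ A) {L L' : ℕ} {nu lam : ℕ → ℕ} (hν : Antitone nu)
    (hL : ∀ i, L ≤ i → nu i = 0) (hlam : ∀ i, lam i = nu i - 1) (m : ℕ) (hm : m ≤ L') :
    ∃ u ∈ A, Af k L nu = u * (Af k L lam *
      (BB k L L' lam (colm m)).eval ((conj L nu 0 + m : ℕ) : K)) := by
  set l := conj L nu 0 with hl
  have hmemf : ∀ i : ℕ, ((lam i : K) + k * (i - (l : K))) ∈ A := fun i =>
    A.add_mem (natCast_mem A _) (A.mul_mem hk (A.sub_mem (natCast_mem A _) (natCast_mem A _)))
  rcases Nat.eq_zero_or_pos m with h0 | hpos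
  · subst h0
    refine ⟨∏ i ∈ range l, ((lam i : K) + k * (i - (l : K))), A.prod_mem fun i _ => hmemf i, ?_⟩
    have : BB k L L' lam (colm 0) = 1 := by
      rw [BB]
      simp [colm]
    rw [this, Polynomial.eval_one, mul_one, Af_split k hν hL hlam]
  · have hle : conj L lam 0 ≤ l := by
      rw [hl]
      unfold conj
      apply Finset.card_le_card
      intro i hi
      rw [mem_filter] at hi ⊢
      refine ⟨hi.1, ?_⟩
      have := hi.2
      rw [hlam] at this
      omega
    refine ⟨∏ i ∈ range l \ range (conj L lam 0), ((lam i : K) + k * (i - (l : K))),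
      A.prod_mem fun i _ => hmemf i, ?_⟩
    have h1 : (BB k L L' lam (colm m)).eval ((l + m : ℕ) : K) =
        ∏ i ∈ range (conj L lam 0), ((lam i : K) + k * (i - (l : K))) := by
      have hc : colm m 0 = 1 := by rw [colm, if_pos hpos]
      rw [BB, hc, Polynomial.eval_prod]
      refine Finset.prod_congr rfl fun i _ => ?_
      rw [Finset.prod_range_one, ff, conj_colm hm]
      simp only [Polynomial.eval_add, Polynomial.eval_mul, Polynomial.eval_sub,
        Polynomial.eval_C, Polynomial.eval_X, Polynomial.eval_natCast]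
      push_cast
      ring
    have h2 := Finset.prod_sdiff (f := fun i : ℕ => ((lam i : K) + k * (i - (l : K))))
      (Finset.range_mono hle)
    rw [h1, Af_split k hν hL hlam, ← hl, ← h2]
    ring

end JLQ
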