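import Pool.Agent.H83JL.CMS

/-! (S8) column removal: integrality of `A(ν) P_ν` by induction on the number of columns. -/

namespace JLQ

open Finset AddMonoidAlgebra H83JL

variable {K : Type*} [Field K] {N : ℕ}

/-! ### the product `A(λ)` -/

/-- the product `A(λ)`, rows and columns counted from zero -/
noncomputable def AL (k : K) (L : ℕ) (lam : ℕ → ℕ) : K :=
  ∏ i ∈ range L, ∏ j ∈ range (lam i),
    ((lam i : K) - ((j : K) + 1) + k * ((i : K) - (conj L lam j : K)))

lemma conj_indep {L1 L2 : ℕ} {nu : ℕ → ℕ} (hν : Antitone nu) (h1 : ∀ i, L1 ≤ i → nu i = 0)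
    (h2 : ∀ i, L2 ≤ i → nu i = 0) (u : ℕ) : conj L1 nu u = conj L2 nu u := by
  have a := lt_conj hν h1
  have b := lt_conj hν h2
  rcases lt_trichotomy (conj L1 nu u) (conj L2 nu u) with h | h | h
  · have h3 := (b (conj L1 nu u) u).1 h
    have h4 := (a (conj L1 nu u) u).2 h3
    omega
  · exact h
  · have h3 := (a (conj L2 nu u) u).1 h
    have h4 := (b (conj L2 nu u) u).2 h3
    omega

lemma ff_indep {k : K} {L1 L2 : ℕ} {lam mu : ℕ → ℕ} (hμ : Antitone mu)
    (h1 : ∀ i, L1 ≤ i → mu i = 0) (h2 : ∀ i, L2 ≤ i → mu i = 0) (i u : ℕ) :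
    ff k L1 lam mu i u = ff k L2 lam mu i u := by
  unfold ff
  rw [conj_indep hμ h1 h2]

lemma BB_indep {k : K} {L1 L2 L1' L2' : ℕ} {lam mu : ℕ → ℕ} (hla : Antitone lam)
    (hμ : Antitone mu) (h1 : ∀ i, L1 ≤ i → lam i = 0) (h2 : ∀ i, L2 ≤ i → lam i = 0)
    (h1' : ∀ i, L1' ≤ i → mu i = 0) (h2' : ∀ i, L2' ≤ i → mu i = 0) :
    BB k L1 L1' lam mu = BB k L2 L2' lam mu := by
  unfold BB
  rw [conj_indep hla h1 h2]
  exact Finset.prod_congr rfl fun i _ => Finset.prod_congr rfl fun u _ => ff_indep hμ h1' h2' i u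

lemma AL_indep_le {k : K} {L1 L2 : ℕ} {lam : ℕ → ℕ} (hla : Antitone lam)
    (h1 : ∀ i, L1 ≤ i → lam i = 0) (h : L1 ≤ L2) : AL k L1 lam = AL k L2 lam := by
  unfold AL
  have h2 : ∀ i, L2 ≤ i → lam i = 0 := fun i hi => h1 i (by omega)
  have e : ∀ i j : ℕ, ((lam i : K) - ((j : K) + 1) + k * ((i : K) - (conj L1 lam j : K))) =
      ((lam i : K) - ((j : K) + 1) + k * ((i : K) - (conj L2 lam j : K))) := by
    intro i j; rw [conj_indep hla h1 h2]
  simp only [e]
  apply Finset.prod_subset (Finset.range_mono h)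
  intro i _ hi
  rw [h1 i (by simpa using hi)]
  simp

lemma AL_indep {k : K} {L1 L2 : ℕ} {lam : ℕ → ℕ} (hla : Antitone lam)
    (h1 : ∀ i, L1 ≤ i → lam i = 0) (h2 : ∀ i, L2 ≤ i → lam i = 0) :
    AL k L1 lam = AL k L2 lam := by
  rcases le_total L1 L2 with h | h
  · exact AL_indep_le hla h1 h
  · exact (AL_indep_le hla h2 h).symm

/-- the partition without its first column -/
def rmc (nu : ℕ → ℕ) : ℕ → ℕ := fun i => nu i - 1

/-- the column of length `m` -/
def col (m : ℕ) : ℕ → ℕ := fun i => if i < m then 1 else 0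

lemma rmc_antitone {nu : ℕ → ℕ} (h : Antitone nu) : Antitone (rmc nu) := by
  intro a b hab
  have := h hab
  simp only [rmc]; omega

lemma col_antitone (m : ℕ) : Antitone (col m) := by
  intro a b hab
  simp only [col]
  split_ifs <;> omega

lemma col_zero {m : ℕ} : ∀ i, m ≤ i → col m i = 0 := by
  intro i hi
  simp only [col]; rw [if_neg (by omega)]

lemma conj_rmc (L : ℕ) (nu : ℕ → ℕ) (j : ℕ) : conj L (rmc nu) j = conj L nu (j + 1) := by
  unfold conj rmc
  congr 1
  ext i
  simp only [mem_filter, mem_range]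
  constructor
  · rintro ⟨a, b⟩; exact ⟨a, by omega⟩
  · rintro ⟨a, b⟩; exact ⟨a, by omega⟩

lemma conj_col (m : ℕ) : conj m (col m) 0 = m := by
  unfold conj col
  rw [Finset.filter_true_of_mem, card_range]
  intro i hi
  rw [if_pos (by simpa using hi)]; omega

/-- `A(ν)` and the first column -/
lemma AL_rmc {k : K} {L : ℕ} {nu : ℕ → ℕ} (hν : Antitone nu) (hL : ∀ i, L ≤ i → nu i = 0) :
    AL k L nu = (∏ i ∈ range (conj L nu 0), ((rmc nu i : K) + k * ((i : K) - (conj L nu 0 : K)))) *
      AL k L (rmc nu) := by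
  have hlt := lt_conj hν hL
  have hle : conj L nu 0 ≤ L := conj_le L nu 0
  have e1 : AL k L nu = ∏ i ∈ range (conj L nu 0), ∏ j ∈ range (nu i),
      ((nu i : K) - ((j : K) + 1) + k * ((i : K) - (conj L nu j : K))) := by
    unfold AL
    symm
    apply Finset.prod_subset (Finset.range_mono hle)
    intro i _ hi
    have : nu i = 0 := by
      by_contra h
      have := (hlt i 0).2 (by omega)
      exact hi (by simpa using this)
    rw [this]; simp
  have e2 : AL k L (rmc nu) = ∏ i ∈ range (conj L nu 0), ∏ j ∈ range (rmc nu i),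
      ((rmc nu i : K) - ((j : K) + 1) + k * ((i : K) - (conj L (rmc nu) j : K))) := by
    unfold AL
    symm
    apply Finset.prod_subset (Finset.range_mono hle)
    intro i _ hi
    have : nu i = 0 := by
      by_contra h
      have := (hlt i 0).2 (by omega)
      exact hi (by simpa using this)
    have : rmc nu i = 0 := by simp only [rmc]; omega
    rw [this]; simp
  rw [e1, e2, ← Finset.prod_mul_distrib]
  refine Finset.prod_congr rfl fun i hi => ?_
  have h1 : nu i = rmc nu i + 1 := by
    have := (hlt i 0).1 (by simpa using hi)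
    simp only [rmc]; omega
  rw [h1, Finset.prod_range_succ', mul_comm]
  congr 1
  · push_cast
    ring
  · refine Finset.prod_congr rfl fun j _ => ?_
    rw [conj_rmc]
    push_cast
    ring

lemma BB_col {k : K} {L : ℕ} {nu : ℕ → ℕ} {m : ℕ} (hm : 1 ≤ m) :
    (BB k L m (rmc nu) (col m)).eval (((conj L nu 0 + m : ℕ)) : K) =
      ∏ i ∈ range (conj L (rmc nu) 0), ((rmc nu i : K) + k * ((i : K) - (conj L nu 0 : K))) := by
  unfold BB
  rw [Polynomial.eval_prod]
  refine Finset.prod_congr rfl fun i _ => ?_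
  have h1 : col m 0 = 1 := by simp only [col]; rw [if_pos (by omega)]
  rw [h1, Finset.prod_range_one, ff, conj_col]
  simp only [Polynomial.eval_add, Polynomial.eval_sub, Polynomial.eval_mul, Polynomial.eval_C,
    Polynomial.eval_X, Polynomial.eval_natCast]
  push_cast
  ring

lemma AL_BB {k : K} (hk0 : k ≠ 0) [CharZero K] {O : Subring K} (hk : k ∈ O) {L : ℕ} {nu : ℕ → ℕ}
    (hν : Antitone nu) (hL : ∀ i, L ≤ i → nu i = 0) {m : ℕ} (hm : 1 ≤ m) :
    ∃ c ∈ O, c ≠ 0 ∧ AL k L nu = c * (AL k L (rmc nu) *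
      (BB k L m (rmc nu) (col m)).eval (((conj L nu 0 + m : ℕ)) : K)) := by
  have hle : conj L (rmc nu) 0 ≤ conj L nu 0 := by
    rw [conj_rmc]
    unfold conj
    apply Finset.card_le_card
    intro i hi
    rw [mem_filter] at hi ⊢
    exact ⟨hi.1, by omega⟩
  have hlt := lt_conj (rmc_antitone hν) (L := L) (fun i hi => by simp [rmc, hL i hi])
  refine ⟨∏ i ∈ Ico (conj L (rmc nu) 0) (conj L nu 0),
    ((rmc nu i : K) + k * ((i : K) - (conj L nu 0 : K))), ?_, ?_, ?_⟩
  · refine O.prod_mem fun i _ => ?_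
    refine O.add_mem (natCast_mem O _) (O.mul_mem hk (O.sub_mem (natCast_mem O _)
      (natCast_mem O _)))
  · rw [Finset.prod_ne_zero_iff]
    intro i hi
    rw [mem_Ico] at hi
    have h0 : rmc nu i = 0 := by
      by_contra h
      have := (hlt i 0).2 (by omega)
      omega
    rw [h0]
    have : ((i : K) - (conj L nu 0 : K)) ≠ 0 := by
      rw [sub_ne_zero]
      exact_mod_cast hi.2.ne
    simpa using ⟨hk0, this⟩
  · rw [AL_rmc hν hL, BB_col hm, ← Finset.prod_range_mul_prod_Ico _ hle]
    ring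

/-! ### shifting -/

lemma cc_shift (χ : Fin N → ℤ) (a : ℤ) : cc (fun i => χ i + a) = cc χ := by
  unfold cc
  simp

lemma csum_shift (χ : Fin N → ℤ) (a : ℤ) {m : ℕ} (hm : m ≤ N) :
    csum (fun i => χ i + a) m = csum χ m + m * a := by
  unfold csum
  rw [Finset.sum_add_distrib, Finset.sum_const, Fin.card_filter_val_lt, min_eq_right hm]
  simp

lemma W_shift {χ η : Fin N → ℤ} (a : ℤ) (h : η ∈ W χ) :
    (fun i => η i + a) ∈ W (fun i => χ i + a) := by
  refine ⟨?_, fun S => ?_⟩
  · rw [Finset.sum_add_distrib, Finset.sum_add_distrib, h.1]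
  · have hc : S.card ≤ N := by
      simpa using Finset.card_le_univ S
    rw [csum_shift χ a hc, Finset.sum_add_distrib, Finset.sum_const]
    have := h.2 S
    simpa using this

lemma VV_shf {χ : Fin N → ℤ} (a : ℤ) {f : H83JL.Lau K N} (hf : f ∈ VV K χ) :
    shf K N a * f ∈ VV K (fun i => χ i + a) := by
  refine ⟨?_, Sym_shf a hf.2⟩
  rw [mem_supported']
  intro η hη
  rw [shf_coeff]
  apply mem_supported'.1 hf.1
  intro h
  apply hη
  have := W_shift a h
  simpa using this

theorem Eig_shf {k : K} {χ : Fin N → ℤ} (a : ℤ) {f : H83JL.Lau K N} (hf : f ∈ Eig k χ) :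
    shf K N a * f ∈ Eig k (fun i => χ i + a) := by
  refine ⟨VV_shf a hf.1, ?_⟩
  have h1 := (CMSrel_iff k (ev k χ 2) hf.1.2).2 hf.2
  have h2 := (CMSrel_shf k (ev k χ 2) a (∑ i, χ i) (f := f) (by
    intro η hη
    have : η ∈ W χ := by
      by_contra h
      exact hη (mem_supported'.1 hf.1.1 η h)
    exact this.1)).2 h1
  have h3 := (CMSrel_iff k _ (Sym_shf a hf.1.2)).1 h2
  rw [h3]
  congr 1
  rw [ev_two, ev_two, cc_shift]
  have : ∑ b, (χ b + a) ^ 2 = ∑ b, χ b ^ 2 + 2 * a * ∑ b, χ b + N * a ^ 2 := by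
    rw [Finset.mul_sum]
    have e : ∀ b, (χ b + a) ^ 2 = χ b ^ 2 + 2 * a * χ b + a ^ 2 := fun b => by ring
    simp only [e, Finset.sum_add_distrib, Finset.sum_const, Finset.card_univ, Fintype.card_fin,
      nsmul_eq_mul]
  rw [this]
  push_cast
  ring

/-! ### columns -/

lemma csum_zero' (χ : Fin N → ℤ) : csum χ 0 = 0 := by
  unfold csum
  exact Finset.sum_eq_zero fun i hi => by simp at hi

lemma csum_full (χ : Fin N → ℤ) : csum χ N = ∑ i, χ i := by
  unfold csum
  congr 1
  ext i
  simp

/-- the weights below `(0, …, 0, -1, …, -1)` -/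
lemma chi_col_min {m : ℕ} (hm : m < N) {ρ : Fin N → ℤ} (hρ : Antitone ρ)
    (h : ρ ∈ W (chi N 0 (col m))) : ρ = chi N 0 (col m) := by
  have hN : 0 < N := by omega
  have hchi : ∀ i : Fin N, chi N 0 (col m) i = if N - 1 - i.val < m then -1 else 0 := by
    intro i
    simp only [chi, col, Pi.zero_apply]
    split_ifs <;> simp
  have hsum : ∑ i, chi N 0 (col m) i = -(m : ℤ) := by
    simp only [hchi]
    rw [← Finset.sum_filter]
    rw [Finset.sum_const]
    have : (univ.filter (fun i : Fin N => N - 1 - i.val < m)).card = m := by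
      have h1 : (univ.filter (fun i : Fin N => N - 1 - i.val < m)) =
          (univ.filter (fun i : Fin N => ¬ i.val < N - m)) := by
        ext i
        have := i.isLt
        simp only [mem_filter, mem_univ, true_and]
        omega
      rw [h1]
      have h2 := Finset.card_filter_add_card_filter_not (s := (univ : Finset (Fin N)))
        (fun i : Fin N => i.val < N - m)
      rw [Fin.card_filter_val_lt, Finset.card_univ, Fintype.card_fin] at h2
      omega
    rw [this]; simp
  -- upper bound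
  have hup : ∀ i, ρ i ≤ 0 := by
    intro i
    have h1 := h.2 {i}
    rw [Finset.sum_singleton, Finset.card_singleton] at h1
    have h2 : csum (chi N 0 (col m)) 1 ≤ 0 := by
      unfold csum
      refine Finset.sum_nonpos fun j _ => ?_
      rw [hchi]; split_ifs <;> simp
    linarith
  have hlo : ∀ i, -1 ≤ ρ i := by
    intro i
    have h1 := h.2 (univ.erase i)
    have h2 := Finset.add_sum_erase univ ρ (mem_univ i)
    rw [h.1, hsum] at h2
    rw [Finset.card_erase_of_mem (mem_univ i), Finset.card_univ, Fintype.card_fin] at h1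
    have h3 : csum (chi N 0 (col m)) (N - 1) ≤ -(m : ℤ) + 1 := by
      have h4 : csum (chi N 0 (col m)) (N - 1 + 1) = csum (chi N 0 (col m)) (N - 1) +
          chi N 0 (col m) ⟨N - 1, by omega⟩ := csum_succ _ ⟨N - 1, by omega⟩
      rw [Nat.sub_add_cancel (by omega : 1 ≤ N), csum_full, hsum] at h4
      have h5 : -1 ≤ chi N 0 (col m) ⟨N - 1, by omega⟩ := by
        rw [hchi]; split_ifs <;> simp
      linarith
    linarith
  -- the number of entries `-1`
  have hcard : (univ.filter (fun i : Fin N => ρ i = -1)).card = m := by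
    have h1 : ∑ i, ρ i = -((univ.filter (fun i : Fin N => ρ i = -1)).card : ℤ) := by
      rw [Finset.card_filter]
      push_cast
      rw [← Finset.sum_neg_distrib]
      refine Finset.sum_congr rfl fun i _ => ?_
      have := hup i
      have := hlo i
      split_ifs <;> omega
    rw [h.1, hsum] at h1
    omega
  ext i
  rw [hchi]
  have hi := i.isLt
  split_ifs with hcase
  · by_contra hne
    have h0 : ρ i = 0 := by
      have := hup i
      have := hlo i
      omega
    have hsub : univ.filter (fun j : Fin N => ρ j = -1) ⊆ univ.filter (fun j : Fin N => ¬ j.val < i.val + 1) := by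
      intro j hj
      rw [mem_filter] at hj ⊢
      refine ⟨mem_univ _, fun hlt => ?_⟩
      have := hρ (show j ≤ i by rw [Fin.le_def]; omega)
      rw [hj.2, h0] at this
      omega
    have h1 := Finset.card_le_card hsub
    have h2 := Finset.card_filter_add_card_filter_not (s := (univ : Finset (Fin N)))
        (fun j : Fin N => j.val < i.val + 1)
    rw [Fin.card_filter_val_lt, Finset.card_univ, Fintype.card_fin, min_eq_right (by omega)] at h2
    omega
  · by_contra hne
    have h0 : ρ i = -1 := by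
      have := hup i
      have := hlo i
      omega
    have hsub : univ.filter (fun j : Fin N => ¬ j.val < i.val) ⊆ univ.filter (fun j : Fin N => ρ j = -1) := by
      intro j hj
      rw [mem_filter] at hj ⊢
      refine ⟨mem_univ _, ?_⟩
      have := hρ (show i ≤ j by rw [Fin.le_def]; omega)
      have := hlo j
      omega
    have h1 := Finset.card_le_card hsub
    have h2 := Finset.card_filter_add_card_filter_not (s := (univ : Finset (Fin N)))
        (fun j : Fin N => j.val < i.val)
    rw [Fin.card_filter_val_lt, Finset.card_univ, Fintype.card_fin, min_eq_right (by omega)] at h2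
    omega

/-- if `χ` is minimal then an element of `VV χ` is a multiple of the orbit sum -/
lemma VV_min {χ : Fin N → ℤ} (hmin : ∀ ρ : Fin N → ℤ, Antitone ρ → ρ ∈ W χ → ρ = χ)
    {O : AddSubgroup K} {f : H83JL.Lau K N} (hf : f ∈ VV K χ) (h : f.coeff χ ∈ O) :
    ∀ η, f.coeff η ∈ O := by
  intro η
  obtain ⟨σ, hσ⟩ := exists_sort η
  have h1 : f.coeff (fun i => η (σ i)) = f.coeff η := by
    rw [← perm_coeff, hf.2]
  by_cases h0 : f.coeff η = 0
  · rw [h0]; exact O.zero_mem
  · have h2 : (fun i => η (σ i)) ∈ W χ := by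
      by_contra h3
      apply h0
      rw [← h1]
      exact mem_supported'.1 hf.1 _ h3
    rw [← h1, hmin _ hσ h2]
    exact h

end JLQ
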