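import Pool.Agent.JLQ.Defs8
import Pool.Agent.JLQ.S8h86

/-! Row S8d: the space `VV` of a column consists of multiples of one orbit sum. -/

namespace JLQ

open Finset AddMonoidAlgebra H83JL

variable {K : Type*} [Field K]

lemma S8d_colm (m : ℕ) : colm m = col m := rfl

lemma S8d_full {N : ℕ} {ρ : Fin N → ℤ} (h : ρ ∈ W (chi N (fun _ => 0) (colm N))) :
    ρ = chi N (fun _ => 0) (colm N) := by
  have hchi : ∀ i : Fin N, chi N (fun _ => 0) (colm N) i = -1 := by
    intro i
    have hi := i.isLt
    simp only [chi, colm]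
    rw [if_pos (by omega)]
    simp
  have hup : ∀ i, ρ i ≤ -1 := by
    intro i
    have h1 := h.2 {i}
    have hN : 0 < N := by have := i.isLt; omega
    rw [Finset.sum_singleton, Finset.card_singleton] at h1
    have h2 : csum (chi N (fun _ => 0) (colm N)) 1 = -1 := by
      have h3 := csum_succ (chi N (fun _ => 0) (colm N)) ⟨0, hN⟩
      simp only [zero_add] at h3
      rw [h3, csum_zero', hchi]; ring
    rw [h2] at h1
    exact h1
  have hsum := h.1
  ext i
  rw [hchi]
  by_contra hne
  have hlt : ρ i < -1 := lt_of_le_of_ne (hup i) hne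
  have h3 : ∑ j, ρ j < ∑ j, chi N (fun _ => 0) (colm N) j := by
    refine Finset.sum_lt_sum (fun j _ => ?_) ⟨i, mem_univ i, ?_⟩
    · rw [hchi]; exact hup j
    · rw [hchi]; exact hlt
  omega

/-- row S8d -/
lemma VV_col {N m : ℕ} (hm : m ≤ N) {f : Lau K N} (hf : f ∈ VV K (chi N (fun _ => 0) (colm m)))
    (η : Fin N → ℤ) : f.coeff η = 0 ∨ f.coeff η = f.coeff (chi N (fun _ => 0) (colm m)) := by
  obtain ⟨σ, hσ⟩ := exists_sort η
  have h1 : f.coeff (fun i => η (σ i)) = f.coeff η := by
    rw [← perm_coeff, hf.2]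
  by_cases h0 : f.coeff η = 0
  · exact Or.inl h0
  · right
    have h2 : (fun i => η (σ i)) ∈ W (chi N (fun _ => 0) (colm m)) := by
      by_contra h3
      apply h0
      rw [← h1]
      exact mem_supported'.1 hf.1 _ h3
    rw [← h1]
    congr 1
    rcases lt_or_eq_of_le hm with hlt | rfl
    · exact chi_col_min hlt hσ h2
    · exact S8d_full h2

end JLQ
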