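import Pool.Agent.H83JL.CMS

/-! Row S8e: existence of the eigenvector with leading coefficient one. -/

namespace JLQ

open Finset AddMonoidAlgebra H83JL

variable {K : Type*} [Field K]

/-- row S8e -/
lemma exists_eig [CharZero K] {k : K} (hk : ∀ q : ℚ, (q : K) ≠ k) {N : ℕ} {χ : Fin N → ℤ}
    (hχ : Antitone χ) : ∃ f ∈ Eig k χ, f.coeff χ = 1 := by
  classical
  set g : Lau K N := ∑ σ : Equiv.Perm (Fin N), perm σ (single χ 1) with hg
  have hgV : g ∈ VV K χ := by
    refine ⟨?_, ?_⟩
    · refine sum_mem fun σ _ => ?_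
      rw [perm_single]
      exact single_mem ((clo_W χ).perm σ⁻¹ _ (mem_W_self hχ)) 1
    · intro τ
      rw [hg, map_sum]
      have e : ∀ σ : Equiv.Perm (Fin N), perm τ (perm σ (single χ 1)) =
          perm (τ * σ) (single χ (1 : K)) := fun σ => (perm_mul τ σ _).symm
      simp only [e]
      exact Equiv.sum_comp (Equiv.mulLeft τ) (fun σ => perm σ (single χ (1 : K)))
  have hgc : g.coeff χ ≠ 0 := by
    have h1 : g.coeff χ = ((univ.filter (fun σ : Equiv.Perm (Fin N) =>
        χ = fun i => χ (σ i))).card : K) := by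
      rw [hg, coeff_sum, Finset.sum_apply', Finset.card_filter]
      push_cast
      refine Finset.sum_congr rfl fun σ _ => ?_
      rw [perm_coeff, coeff_single, Finsupp.single_apply]
    rw [h1, Nat.cast_ne_zero]
    apply Finset.card_ne_zero_of_mem (a := 1)
    simp
  obtain ⟨f, hf, z, hz, hfz⟩ := Submodule.mem_sup.1 (VV_le hk _ χ hχ rfl hgV)
  have hz0 : z.coeff χ = 0 := ZZ_coeff hχ hz
  have hfc : f.coeff χ = g.coeff χ := by
    rw [← hfz, coeff_add, Finsupp.add_apply, hz0, add_zero]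
  refine ⟨(g.coeff χ)⁻¹ • f, Submodule.smul_mem _ _ hf, ?_⟩
  rw [coeff_smul, Finsupp.smul_apply, hfc, smul_eq_mul, inv_mul_cancel₀ hgc]

end JLQ
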